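import Mathlib

/-!
# The augmented homogeneous bar complex, with simplices as lists
-/

namespace Pool.Agent.H.MP_e5d137_al

open Finsupp

section Cone

variable {Γ : Type}

/-- integral chains on lists of elements -/
abbrev LC (Γ : Type) := List Γ →₀ ℤ

/-- the cone operator -/
noncomputable def consL (g : Γ) : LC Γ →ₗ[ℤ] LC Γ := Finsupp.lmapDomain ℤ ℤ (List.cons g)

@[simp] lemma consL_single (g : Γ) (σ : List Γ) (k : ℤ) :
    consL g (single σ k) = single (g :: σ) k := by
  simp [consL]

/-- boundary of a simplex -/
noncomputable def bdl : List Γ → LC Γ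
  | [] => 0
  | (g :: σ) => single σ 1 - consL g (bdl σ)

/-- boundary of a chain -/
noncomputable def bdL : LC Γ →ₗ[ℤ] LC Γ := Finsupp.linearCombination ℤ bdl

@[simp] lemma bdL_single (σ : List Γ) (k : ℤ) : bdL (single σ k) = k • bdl σ := by
  simp [bdL]

lemma bdL_consL (g : Γ) (c : LC Γ) : bdL (consL g c) = c - consL g (bdL c) := by
  induction c using Finsupp.induction_linear with
  | zero => simp
  | add a b ha hb => rw [map_add, map_add, ha, hb, map_add, map_add]; abel
  | single σ k =>
    simp only [consL_single, bdL_single, bdl, map_smul]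
    rw [smul_sub]
    congr 1
    simp

lemma bdL_bdl (σ : List Γ) : bdL (bdl σ) = 0 := by
  induction σ with
  | nil => simp [bdl]
  | cons g σ ih =>
    rw [bdl, map_sub, bdL_consL, ih]
    simp

lemma bdL_bdL (c : LC Γ) : bdL (bdL c) = 0 := by
  induction c using Finsupp.induction_linear with
  | zero => simp
  | add a b ha hb => rw [map_add, map_add, ha, hb]; simp
  | single σ k => rw [bdL_single, map_smul, bdL_bdl]; simp

/-- map induced by a map on vertices -/
noncomputable def mapL (f : Γ → Γ) : LC Γ →ₗ[ℤ] LC Γ := Finsupp.lmapDomain ℤ ℤ (List.map f)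

@[simp] lemma mapL_single (f : Γ → Γ) (σ : List Γ) (k : ℤ) :
    mapL f (single σ k) = single (σ.map f) k := by
  simp [mapL]

lemma mapL_consL (f : Γ → Γ) (g : Γ) (c : LC Γ) :
    mapL f (consL g c) = consL (f g) (mapL f c) := by
  induction c using Finsupp.induction_linear with
  | zero => simp
  | add a b ha hb => simp only [map_add, ha, hb]
  | single σ k => simp

lemma bdl_map (f : Γ → Γ) (σ : List Γ) : bdl (σ.map f) = mapL f (bdl σ) := by
  induction σ with
  | nil => simp [bdl]
  | cons g σ ih => simp only [List.map_cons, bdl, ih, map_sub, mapL_single, mapL_consL]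

lemma bdL_mapL (f : Γ → Γ) (c : LC Γ) : bdL (mapL f c) = mapL f (bdL c) := by
  induction c using Finsupp.induction_linear with
  | zero => simp
  | add a b ha hb => simp only [map_add, ha, hb]
  | single σ k => simp [bdl_map]

lemma mapL_comp (f g : Γ → Γ) (c : LC Γ) : mapL f (mapL g c) = mapL (f ∘ g) c := by
  induction c using Finsupp.induction_linear with
  | zero => simp
  | add a b ha hb => simp only [map_add, ha, hb]
  | single σ k => simp

lemma mapL_id (c : LC Γ) : mapL (fun x => x) c = c := by
  induction c using Finsupp.induction_linear with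
  | zero => simp
  | add a b ha hb => simp only [map_add, ha, hb]
  | single σ k => simp

/-- the prism operator between the simplicial maps induced by `f` and `f'` -/
noncomputable def prl (f f' : Γ → Γ) : List Γ → LC Γ
  | [] => 0
  | (g :: σ) => single (f g :: f' g :: σ.map f') 1 - consL (f g) (prl f f' σ)

noncomputable def prL (f f' : Γ → Γ) : LC Γ →ₗ[ℤ] LC Γ := Finsupp.linearCombination ℤ (prl f f')

@[simp] lemma prL_single (f f' : Γ → Γ) (σ : List Γ) (k : ℤ) :
    prL f f' (single σ k) = k • prl f f' σ := by
  simp [prL]

lemma prL_consL (f f' : Γ → Γ) (g : Γ) (c : LC Γ) :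
    prL f f' (consL g c) = consL (f g) (consL (f' g) (mapL f' c)) - consL (f g) (prL f f' c) := by
  induction c using Finsupp.induction_linear with
  | zero => simp
  | add a b ha hb => rw [map_add, map_add, ha, hb]; simp only [map_add]; abel
  | single σ k =>
    simp only [consL_single, prL_single, prl, mapL_single, map_smul]
    rw [smul_sub]
    congr 1
    simp

lemma bdL_prl (f f' : Γ → Γ) (σ : List Γ) :
    bdL (prl f f' σ) + prL f f' (bdl σ) = single (σ.map f') 1 - single (σ.map f) 1 := by
  induction σ with
  | nil => simp [prl, bdl]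
  | cons g σ ih =>
    have h1 : bdL (prl f f' σ) = single (σ.map f') 1 - single (σ.map f) 1 - prL f f' (bdl σ) := by
      rw [← ih]; abel
    simp only [prl, bdl, map_sub, bdL_single, one_smul, prL_single, prL_consL, bdL_consL,
      List.map_cons, h1, consL_single, bdl_map, mapL_single]
    abel

lemma bdL_prL (f f' : Γ → Γ) (c : LC Γ) :
    bdL (prL f f' c) + prL f f' (bdL c) = mapL f' c - mapL f c := by
  induction c using Finsupp.induction_linear with
  | zero => simp
  | add a b ha hb =>
    simp only [map_add]
    rw [show bdL (prL f f' a) + bdL (prL f f' b) + (prL f f' (bdL a) + prL f f' (bdL b)) =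
      (bdL (prL f f' a) + prL f f' (bdL a)) + (bdL (prL f f' b) + prL f f' (bdL b)) by abel,
      ha, hb]
    abel
  | single σ k =>
    rw [prL_single, bdL_single, map_smul, map_smul, ← smul_add, bdL_prl, mapL_single, mapL_single,
      smul_sub]
    simp

end Cone

end Pool.Agent.H.MP_e5d137_al
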