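import Mathlib

/-!
# Homological isoperimetric functions of groups

The cellular chain complex of a contractible CW complex on which a group `Γ` acts freely by
permuting cells, the mass of a chain, and the homological isoperimetric functions.
-/

namespace Pool.Agent.H.MP_e5d137_al

open scoped ENNReal

/-- `GComplex Γ` records the integral cellular chain complex of the universal cover of a
`K(Γ,1)`: `cell i` is the set of `i`-cells of the universal cover, on which `Γ` acts freely
(cells are oriented in a `Γ`-invariant way), `bd i` is the cellular boundary map from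
`(i+1)`-chains to `i`-chains, it commutes with `Γ`, and the complex, augmented by the sum of
the coefficients of a `0`-chain, is exact. -/
structure GComplex (Γ : Type) [Group Γ] where
  cell : ℕ → Type
  [act : ∀ i, MulAction Γ (cell i)]
  free : ∀ (i : ℕ) (g : Γ) (x : cell i), g • x = x → g = 1
  bd : ∀ i, (cell (i + 1) →₀ ℤ) →+ (cell i →₀ ℤ)
  bd_smul : ∀ (i : ℕ) (g : Γ) (c : cell (i + 1) →₀ ℤ),
    bd i (c.mapDomain (fun x => g • x)) = (bd i c).mapDomain (fun x => g • x)
  nonempty : Nonempty (cell 0)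
  exact_zero : ∀ c : cell 0 →₀ ℤ, c.sum (fun _ k => k) = 0 ↔ ∃ b, bd 0 b = c
  exact_succ : ∀ (i : ℕ) (c : cell (i + 1) →₀ ℤ), bd i c = 0 ↔ ∃ b, bd (i + 1) b = c

attribute [instance] GComplex.act

/-- The mass (`ℓ¹`-norm) of an integral chain: the number of cells, with multiplicity. -/
def mass {α : Type} (c : α →₀ ℤ) : ℕ := c.sum fun _ k => k.natAbs

namespace GComplex

variable {Γ : Type} [Group Γ]

/-- The `K(Γ,1)` has a finite `N`-skeleton: for `i ≤ N` there are finitely many orbits of
`i`-cells. -/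
def FiniteTo (K : GComplex Γ) (N : ℕ) : Prop :=
  ∀ i ≤ N, ∃ s : Finset (K.cell i), ∀ x : K.cell i, ∃ g : Γ, ∃ y ∈ s, g • y = x

/-- The filling volume of an `m`-chain `z`: the least mass of an `(m+1)`-chain with
boundary `z`. -/
noncomputable def fillVol (K : GComplex Γ) (m : ℕ) (z : K.cell m →₀ ℤ) : ℕ∞ :=
  ⨅ (c : K.cell (m + 1) →₀ ℤ) (_ : K.bd m c = z), (mass c : ℕ∞)

/-- The `m`-dimensional (homological) isoperimetric function: the supremum of the filling
volumes of the `m`-dimensional boundaries (for `m ≥ 1` these are exactly the `m`-cycles) of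
mass at most `L`. -/
noncomputable def iso (K : GComplex Γ) (m L : ℕ) : ℕ∞ :=
  ⨆ (z : K.cell m →₀ ℤ) (_ : ∃ c, K.bd m c = z) (_ : mass z ≤ L), K.fillVol m z

end GComplex

/-- The relation `g ≼ h`: `g(L) ≤ C h(CL + C) + CL + C` for some constant `C > 0`. -/
def Dominated (g h : ℕ → ℝ≥0∞) : Prop :=
  ∃ C : ℕ, 0 < C ∧ ∀ L : ℕ, g L ≤ C * h (C * L + C) + C * L + C

/-- The group of inner automorphisms of the free group of rank `n`. -/
def Inn (n : ℕ) : Subgroup (MulAut (FreeGroup (Fin n))) :=
  (MulAut.conj : FreeGroup (Fin n) →* MulAut (FreeGroup (Fin n))).range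

instance (n : ℕ) : (Inn n).Normal := by
  constructor
  rintro _ ⟨u, rfl⟩ g
  refine ⟨g u, ?_⟩
  ext x
  simp [MulAut.conj_apply]

/-- The outer automorphism group of the free group of rank `n`. -/
abbrev Out (n : ℕ) : Type := MulAut (FreeGroup (Fin n)) ⧸ Inn n

/-- The function `L ↦ exp(L^{1/m})`. -/
noncomputable def expRoot (m : ℕ) (L : ℕ) : ℝ≥0∞ :=
  ENNReal.ofReal (Real.exp ((L : ℝ) ^ ((1 : ℝ) / m)))

end Pool.Agent.H.MP_e5d137_al
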