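import Mathlib
import Pool.Agent.H.MP_e5d137_al.Bar
import Pool.Agent.H.MP_e5d137_al.Defs

/-!
# Cup products of 1-cochains and products of closed paths in the bar complex
-/

namespace Pool.Agent.H.MP_e5d137_al

open Finsupp

section Cup

variable {Γ : Type}

/-- cup product of a list of 1-cochains -/
def cup : List (Γ → Γ → ℤ) → List Γ → ℤ
  | [], [_] => 1
  | (θ :: r), (g :: g' :: σ) => θ g g' * cup r (g' :: σ)
  | _, _ => 0

noncomputable def cupL (θs : List (Γ → Γ → ℤ)) : LC Γ →ₗ[ℤ] ℤ :=
  Finsupp.linearCombination ℤ (cup θs)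

@[simp] lemma cupL_single (θs : List (Γ → Γ → ℤ)) (σ : List Γ) (k : ℤ) :
    cupL θs (single σ k) = k * cup θs σ := by
  simp [cupL]

@[simp] lemma cup_nil (θs : List (Γ → Γ → ℤ)) : cup θs [] = 0 := by
  cases θs <;> simp [cup]

lemma cupL_cons_cons (θ : Γ → Γ → ℤ) (r : List (Γ → Γ → ℤ)) (a b : Γ) (c : LC Γ) :
    cupL (θ :: r) (consL a (consL b c)) = θ a b * cupL r (consL b c) := by
  induction c using Finsupp.induction_linear with
  | zero => simp
  | add x y hx hy => simp only [map_add, hx, hy, mul_add]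
  | single σ k =>
    simp only [consL_single, cupL_single, cup]
    ring

/-- some consecutive triple of vertices violates the cocycle condition -/
def Bad : List (Γ → Γ → ℤ) → List Γ → Prop
  | (θ :: r), (g :: g' :: g'' :: σ) =>
      θ g g' + θ g' g'' - θ g g'' ≠ 0 ∨ Bad r (g' :: g'' :: σ)
  | _, _ => False

lemma bad_of_cup_ne (θs : List (Γ → Γ → ℤ)) (σ : List Γ) (h : cupL θs (bdl σ) ≠ 0) :
    Bad θs σ := by
  induction θs generalizing σ with
  | nil =>
    exfalso
    apply h
    rcases σ with _ | ⟨g, _ | ⟨g', _ | ⟨g'', σ⟩⟩⟩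
    · simp [bdl]
    · simp [bdl, cup]
    · simp [bdl, cup]
    · simp only [bdl, map_sub, cupL_single, consL_single]
      simp only [cup]
      have key : ∀ c : LC Γ, cupL ([] : List (Γ → Γ → ℤ)) (consL g (consL g' c)) = 0 := by
        intro c
        induction c using Finsupp.induction_linear with
        | zero => simp
        | add x y hx hy => simp only [map_add, hx, hy, add_zero]
        | single σ k => simp [cup]
      have key2 := key (single σ 1)
      have key3 := key (consL g'' (bdl σ))
      rw [consL_single, consL_single, cupL_single] at key2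
      rw [key3]
      rcases σ with _ | ⟨a, σ⟩ <;> simp [cup]
  | cons θ r ih =>
    rcases σ with _ | ⟨g, _ | ⟨g', _ | ⟨g'', σ⟩⟩⟩
    · exfalso; apply h; simp [bdl]
    · exfalso; apply h; simp [bdl]
    · exfalso; apply h; simp [bdl, cup]
    · have e1 : cupL (θ :: r) (bdl (g :: g' :: g'' :: σ)) =
          (θ g g' + θ g' g'' - θ g g'') * cup r (g'' :: σ)
            - θ g g' * cupL r (bdl (g' :: g'' :: σ)) := by
        have h1 : bdl (g :: g' :: g'' :: σ) = single (g' :: g'' :: σ) 1
            - (consL g (single (g'' :: σ) 1) - consL g (consL g' (bdl (g'' :: σ)))) := by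
          conv_lhs => rw [bdl]
          conv_lhs => rw [show bdl (g' :: g'' :: σ) = single (g'' :: σ) 1 -
            consL g' (bdl (g'' :: σ)) from rfl]
          rw [map_sub]
        have h2 : bdl (g' :: g'' :: σ) = single (g'' :: σ) 1 - consL g' (bdl (g'' :: σ)) := rfl
        rw [h1, map_sub, map_sub, cupL_cons_cons, h2, map_sub]
        simp only [consL_single, cupL_single, cup]
        ring
      rw [e1] at h
      by_cases h0 : θ g g' + θ g' g'' - θ g g'' = 0
      · right
        apply ih
        intro h3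
        apply h
        rw [h0, h3]; ring
      · left; exact h0

lemma Bad.exists {θs : List (Γ → Γ → ℤ)} {σ : List Γ} (h : Bad θs σ) :
    ∃ θ ∈ θs, ∃ g ∈ σ, ∃ g' ∈ σ, ∃ g'' ∈ σ, θ g g' + θ g' g'' - θ g g'' ≠ 0 := by
  induction θs generalizing σ with
  | nil => exact absurd h (by cases σ <;> simp [Bad])
  | cons θ r ih =>
    rcases σ with _ | ⟨g, _ | ⟨g', _ | ⟨g'', σ⟩⟩⟩
    · simp [Bad] at h
    · simp [Bad] at h
    · simp [Bad] at h
    · rcases h with h | h
      · exact ⟨θ, by simp, g, by simp, g', by simp, g'', by simp, h⟩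
      · obtain ⟨θ', h1, a, ha, b, hb, c, hc, h2⟩ := ih h
        exact ⟨θ', List.mem_cons_of_mem _ h1, a, List.mem_cons_of_mem _ ha, b,
          List.mem_cons_of_mem _ hb, c, List.mem_cons_of_mem _ hc, h2⟩

/-- evaluation of a cup product on a prism -/
lemma cupL_prl (θ : Γ → Γ → ℤ) (r : List (Γ → Γ → ℤ)) (f f' : Γ → Γ) (σ : List Γ) (t : ℤ)
    (h1 : ∀ g ∈ σ, θ (f g) (f' g) = t) (h2 : ∀ g ∈ σ, ∀ g' ∈ σ, θ (f g) (f g') = 0) :
    cupL (θ :: r) (prl f f' σ) = t * cup r (σ.map f') := by
  rcases σ with _ | ⟨g, τ⟩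
  · simp [prl]
  · rw [prl, map_sub, cupL_single, cup, h1 g (by simp)]
    have : cupL (θ :: r) (consL (f g) (prl f f' τ)) = 0 := by
      rcases τ with _ | ⟨g', τ'⟩
      · simp [prl]
      · have e : prl f f' (g' :: τ') =
            consL (f g') (single (f' g' :: τ'.map f') 1 - prl f f' τ') := by
          rw [prl, map_sub, consL_single]
        rw [e, cupL_cons_cons, h2 g (by simp) g' (by simp), zero_mul]
    rw [this]
    simp

end Cup

end Pool.Agent.H.MP_e5d137_al
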