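import Mathlib
import Pool.Agent.H.MP_e5d137_al.Cup

/-!
# Products of closed paths: the torus cycles
-/

namespace Pool.Agent.H.MP_e5d137_al

open Finsupp

section Torus

variable {Γ : Type} [Group Γ]

/-- the prism of a chain along the path which starts at `g` and has steps `L` -/
noncomputable def pathPr (E : LC Γ) : Γ → List Γ → LC Γ
  | _, [] => 0
  | g, (s :: L) => prL (fun x => x * g) (fun x => x * (g * s)) E + pathPr E (g * s) L

/-- the product of the paths with the steps `L ∈ Ls` -/
noncomputable def torus : List (List Γ) → LC Γ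
  | [] => single [1] 1
  | (L :: Ls) => pathPr (torus Ls) 1 L

lemma pathPr_zero (g : Γ) (L : List Γ) : pathPr (0 : LC Γ) g L = 0 := by
  induction L generalizing g with
  | nil => rfl
  | cons s L ih => rw [pathPr, ih]; simp

lemma pathPr_nil (g : Γ) (L : List Γ) : pathPr (single ([] : List Γ) 1 : LC Γ) g L = 0 := by
  induction L generalizing g with
  | nil => rfl
  | cons s L ih => rw [pathPr, ih]; simp [prl]

lemma bdL_pathPr (E : LC Γ) (g : Γ) (L : List Γ) :
    bdL (pathPr E g L) = mapL (fun x => x * (g * L.prod)) E - mapL (fun x => x * g) E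
      - pathPr (bdL E) g L := by
  induction L generalizing g with
  | nil => simp [pathPr]
  | cons s L ih =>
    rw [pathPr, pathPr, map_add, ih (g * s)]
    have h := bdL_prL (fun x => x * g) (fun x => x * (g * s)) E
    have h' : bdL (prL (fun x => x * g) (fun x => x * (g * s)) E) =
      mapL (fun x => x * (g * s)) E - mapL (fun x => x * g) E -
        prL (fun x => x * g) (fun x => x * (g * s)) (bdL E) := by rw [← h]; abel
    rw [h', List.prod_cons]
    have e : (fun x : Γ => x * (g * s * L.prod)) = (fun x : Γ => x * (g * (s * L.prod))) := by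
      funext x; rw [mul_assoc g s]
    rw [e]
    abel

lemma bdL_torus (Ls : List (List Γ)) (h : ∀ L ∈ Ls, L.prod = 1) :
    (Ls = [] → bdL (torus Ls) = single [] 1) ∧ (Ls ≠ [] → bdL (torus Ls) = 0) := by
  induction Ls with
  | nil => simp [torus, bdl]
  | cons L Ls ih =>
    refine ⟨fun h => absurd h (by simp), fun _ => ?_⟩
    rw [torus, bdL_pathPr, h L (by simp)]
    have ih' := ih (fun L hL => h L (List.mem_cons_of_mem _ hL))
    have : pathPr (bdL (torus Ls)) 1 L = 0 := by
      by_cases hn : Ls = []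
      · rw [ih'.1 hn, pathPr_nil]
      · rw [ih'.2 hn, pathPr_zero]
    rw [this]
    simp

/-- sum of a 1-cochain along a path -/
def psum (θ : Γ → Γ → ℤ) : Γ → List Γ → ℤ
  | _, [] => 0
  | g, (s :: L) => θ g (g * s) + psum θ (g * s) L

/-- vertices of a path from `g` with steps `L` -/
def pverts (g : Γ) (L : List Γ) : Set Γ := {a | ∃ k, a = g * (L.take k).prod}

lemma pverts_start (g : Γ) (L : List Γ) : g ∈ pverts g L := ⟨0, by simp⟩

lemma pverts_cons (g s : Γ) (L : List Γ) : pverts (g * s) L ⊆ pverts g (s :: L) := by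
  rintro a ⟨k, rfl⟩
  exact ⟨k + 1, by simp [mul_assoc]⟩

/-- the vertices of the torus -/
def tverts : List (List Γ) → Set Γ
  | [] => {1}
  | (L :: Ls) => {y | ∃ x ∈ tverts Ls, ∃ a ∈ pverts 1 L, y = x * a}

/-- Evaluation of a cup product on a product with a path. -/
lemma cupL_pathPr (θ : Γ → Γ → ℤ) (r : List (Γ → Γ → ℤ)) (E : LC Γ) (g : Γ) (L : List Γ)
    (P : Set Γ) (hE : ∀ σ ∈ E.support, ∀ x ∈ σ, x ∈ P)
    (h1 : ∀ x ∈ P, ∀ a ∈ pverts g L, ∀ b ∈ pverts g L, θ (x * a) (x * b) = θ a b)
    (h2 : ∀ x ∈ P, ∀ y ∈ P, ∀ a ∈ pverts g L, θ (x * a) (y * a) = 0)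
    (h3 : ∀ σ ∈ E.support, ∀ a ∈ pverts g L, cup r (σ.map (fun x => x * a)) = cup r σ) :
    cupL (θ :: r) (pathPr E g L) = psum θ g L * cupL r E := by
  induction L generalizing g with
  | nil => simp [pathPr, psum]
  | cons s L ih =>
    have hs := pverts_cons g s L
    have hs0 : g ∈ pverts g (s :: L) := pverts_start g (s :: L)
    have hs1 : g * s ∈ pverts g (s :: L) := hs (pverts_start (g * s) L)
    rw [pathPr, psum, map_add, ih (g * s) (fun x hx a ha b hb => h1 x hx a (hs ha) b (hs hb))
      (fun x hx y hy a ha => h2 x hx y hy a (hs ha)) (fun σ hσ a ha => h3 σ hσ a (hs ha)),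
      add_mul]
    congr 1
    -- the prism
    have key : ∀ σ ∈ E.support, cupL (θ :: r) (prl (fun x => x * g) (fun x => x * (g * s)) σ) =
        θ g (g * s) * cup r σ := by
      intro σ hσ
      rw [cupL_prl θ r _ _ σ (θ g (g * s)) (fun x hx => h1 x (hE σ hσ x hx) g hs0 _ hs1)
        (fun x hx y hy => h2 x (hE σ hσ x hx) y (hE σ hσ y hy) g hs0), h3 σ hσ _ hs1]
    conv_lhs => rw [prL, Finsupp.linearCombination_apply, Finsupp.sum]
    rw [map_sum]
    conv_rhs => rw [cupL, Finsupp.linearCombination_apply, Finsupp.sum, Finset.mul_sum]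
    refine Finset.sum_congr rfl (fun σ hσ => ?_)
    rw [map_smul, key σ hσ]
    simp only [smul_eq_mul]
    ring

/-- consecutive ratios lie in `T` -/
def Chn (T : Set Γ) (σ : List Γ) : Prop := List.IsChain (fun a b => a⁻¹ * b ∈ T) σ

/-- The simplices of a prism. -/
lemma supp_prl (f f' : Γ → Γ) (T T' : Set Γ) (σ : List Γ) (hσ : Chn T σ)
    (hf : ∀ a ∈ σ, ∀ b ∈ σ, a⁻¹ * b ∈ T → (f a)⁻¹ * f b ∈ T')
    (hf' : ∀ a ∈ σ, ∀ b ∈ σ, a⁻¹ * b ∈ T → (f' a)⁻¹ * f' b ∈ T')
    (hff : ∀ a ∈ σ, (f a)⁻¹ * f' a ∈ T') (ρ : List Γ) (hρ : ρ ∈ (prl f f' σ).support) :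
    ρ.length = σ.length + 1 ∧ (∀ x ∈ ρ, ∃ a ∈ σ, x = f a ∨ x = f' a) ∧ Chn T' ρ ∧
      (∀ a ∈ σ.head?, ρ.head? = Option.some (f a)) := by
  classical
  induction σ generalizing ρ with
  | nil => simp [prl] at hρ
  | cons g τ ih =>
    rw [prl] at hρ
    have hmem := Finsupp.support_sub hρ
    rw [Finset.mem_union] at hmem
    rcases hmem with h | h
    · have e : ρ = f g :: f' g :: τ.map f' := by
        have := Finsupp.support_single_subset h
        simpa using this
      subst e
      refine ⟨by simp, ?_, ?_, by simp⟩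
      · intro x hx
        simp only [List.mem_cons, List.mem_map] at hx
        rcases hx with rfl | rfl | ⟨a, ha, rfl⟩
        · exact ⟨g, by simp, Or.inl rfl⟩
        · exact ⟨g, by simp, Or.inr rfl⟩
        · exact ⟨a, by simp [ha], Or.inr rfl⟩
      · have h1 : Chn T' ((g :: τ).map f') := by
          unfold Chn at hσ ⊢
          rw [List.isChain_map]
          refine List.IsChain.imp_of_mem_imp ?_ hσ
          intro a b ha hb hab
          exact hf' a ha b hb hab
        unfold Chn at h1 ⊢
        rw [List.map_cons] at h1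
        exact List.IsChain.cons_cons (hff g (by simp)) h1
    · have h' : ∃ ρ' ∈ (prl f f' τ).support, ρ = f g :: ρ' := by
        have := Finsupp.mapDomain_support (f := List.cons (f g)) (s := prl f f' τ)
          (by simpa [consL] using h)
        rw [Finset.mem_image] at this
        obtain ⟨ρ', h1, h2⟩ := this
        exact ⟨ρ', h1, h2.symm⟩
      obtain ⟨ρ', hρ', rfl⟩ := h'
      have hτ : Chn T τ := by
        unfold Chn at hσ ⊢
        exact hσ.tail
      obtain ⟨e1, e2, e3, e4⟩ := ih hτ (fun a ha b hb => hf a (by simp [ha]) b (by simp [hb]))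
        (fun a ha b hb => hf' a (by simp [ha]) b (by simp [hb])) (fun a ha => hff a (by simp [ha]))
        ρ' hρ'
      refine ⟨by simp [e1], ?_, ?_, by simp⟩
      · intro x hx
        rcases List.mem_cons.1 hx with rfl | hx
        · exact ⟨g, by simp, Or.inl rfl⟩
        · obtain ⟨a, ha, h⟩ := e2 x hx
          exact ⟨a, by simp [ha], h⟩
      · rcases τ with _ | ⟨g', τ'⟩
        · simp [prl] at hρ'
        · have e4' := e4 g' (by simp)
          rcases ρ' with _ | ⟨y, ρ''⟩
          · simp at e4'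
          · simp only [List.head?_cons, Option.some.injEq] at e4'
            subst e4'
            unfold Chn at e3 hσ ⊢
            refine List.IsChain.cons_cons ?_ e3
            have : g⁻¹ * g' ∈ T := by
              cases hσ with
              | cons_cons h _ => exact h
            exact hf g (by simp) g' (by simp) this

omit [Group Γ] in
lemma supp_prL (f f' : Γ → Γ) (E : LC Γ) (ρ : List Γ) (hρ : ρ ∈ (prL f f' E).support) :
    ∃ σ ∈ E.support, ρ ∈ (prl f f' σ).support := by
  by_contra hcon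
  push Not at hcon
  apply Finsupp.mem_support_iff.1 hρ
  rw [prL, Finsupp.linearCombination_apply, Finsupp.sum, Finsupp.finsetSum_apply]
  refine Finset.sum_eq_zero (fun σ hσ => ?_)
  rw [Finsupp.smul_apply, Finsupp.notMem_support_iff.1 (hcon σ hσ)]
  simp

/-- The simplices of the product with a path. -/
lemma supp_pathPr (E : LC Γ) (g : Γ) (L : List Γ) (T T' : Set Γ) (k : ℕ)
    (hE : ∀ σ ∈ E.support, Chn T σ ∧ σ.length = k)
    (hL : ∀ s ∈ L, s ∈ T')
    (hc : ∀ t ∈ T, ∀ a ∈ pverts g L, a⁻¹ * t * a ∈ T')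
    (ρ : List Γ) (hρ : ρ ∈ (pathPr E g L).support) :
    ρ.length = k + 1 ∧ Chn T' ρ ∧ (∀ x ∈ ρ, ∃ σ ∈ E.support, ∃ y ∈ σ, ∃ a ∈ pverts g L, x = y * a)
      := by
  classical
  induction L generalizing g with
  | nil => simp [pathPr] at hρ
  | cons s L ih =>
    rw [pathPr] at hρ
    have hs := pverts_cons g s L
    have hs0 : g ∈ pverts g (s :: L) := pverts_start g (s :: L)
    have hs1 : g * s ∈ pverts g (s :: L) := hs (pverts_start (g * s) L)
    rcases Finset.mem_union.1 (Finsupp.support_add hρ) with h | h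
    · obtain ⟨σ, hσ, h'⟩ := supp_prL _ _ _ _ h
      have hconj : ∀ c ∈ pverts g (s :: L), ∀ a ∈ σ, ∀ b ∈ σ, a⁻¹ * b ∈ T →
          (a * c)⁻¹ * (b * c) ∈ T' := by
        intro c hcv a ha b hb hab
        have := hc (a⁻¹ * b) hab c hcv
        convert this using 1
        group
      obtain ⟨e1, e2, e3, -⟩ := supp_prl (fun x => x * g) (fun x => x * (g * s)) T T' σ (hE σ hσ).1
        (hconj g hs0) (hconj (g * s) hs1)
        (fun a _ => by
          have : (a * g)⁻¹ * (a * (g * s)) = s := by group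
          rw [this]; exact hL s (by simp)) ρ h'
      refine ⟨by rw [e1, (hE σ hσ).2], e3, fun x hx => ?_⟩
      obtain ⟨a, ha, h | h⟩ := e2 x hx
      · exact ⟨σ, hσ, a, ha, g, hs0, h⟩
      · exact ⟨σ, hσ, a, ha, g * s, hs1, h⟩
    · obtain ⟨e1, e2, e3⟩ := ih (g * s) (fun t ht => hL t (by simp [ht]))
        (fun t ht a ha => hc t ht a (hs ha)) h
      refine ⟨e1, e2, fun x hx => ?_⟩
      obtain ⟨σ, hσ, y, hy, a, ha, h⟩ := e3 x hx
      exact ⟨σ, hσ, y, hy, a, hs ha, h⟩

/-- the letters of a list of paths commute block-wise -/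
def BlockComm : List (List Γ) → Prop
  | [] => True
  | (L :: Ls) => (∀ s ∈ L, ∀ M ∈ Ls, ∀ t ∈ M, s * t = t * s) ∧ BlockComm Ls

lemma comm_prod (t : Γ) (L : List Γ) (h : ∀ s ∈ L, s * t = t * s) : L.prod * t = t * L.prod := by
  induction L with
  | nil => simp
  | cons s L ih =>
    rw [List.prod_cons, mul_assoc, ih (fun s hs => h s (by simp [hs])), ← mul_assoc,
      h s (by simp), mul_assoc]

lemma supp_torus (Ls : List (List Γ)) (hc : BlockComm Ls) (σ : List Γ)
    (hσ : σ ∈ (torus Ls).support) :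
    σ.length = Ls.length + 1 ∧ Chn {t | ∃ M ∈ Ls, t ∈ M} σ ∧ (∀ x ∈ σ, x ∈ tverts Ls) := by
  induction Ls generalizing σ with
  | nil =>
    have e : σ = [1] := by
      have := Finsupp.support_single_subset hσ
      simpa using this
    subst e
    refine ⟨by simp, by simp [Chn], by simp [tverts]⟩
  | cons L Ls ih =>
    rw [torus] at hσ
    obtain ⟨e1, e2, e3⟩ := supp_pathPr (torus Ls) 1 L {t | ∃ M ∈ Ls, t ∈ M}
      {t | ∃ M ∈ L :: Ls, t ∈ M} (Ls.length + 1)
      (fun σ hσ => ⟨(ih hc.2 σ hσ).2.1, (ih hc.2 σ hσ).1⟩)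
      (fun s hs => ⟨L, by simp, hs⟩)
      (by
        rintro t ⟨M, hM, ht⟩ a ⟨k, rfl⟩
        have : (1 * (L.take k).prod) * t = t * (1 * (L.take k).prod) := by
          rw [one_mul]
          exact comm_prod t _ (fun s hs => hc.1 s (List.mem_of_mem_take hs) M hM t ht)
        refine ⟨M, by simp [hM], ?_⟩
        rw [mul_assoc, ← this]
        simpa using ht) σ hσ
    refine ⟨by simp [e1], e2, fun x hx => ?_⟩
    obtain ⟨σ', hσ', y, hy, a, ha, rfl⟩ := e3 x hx
    exact ⟨y, (ih hc.2 σ' hσ').2.2 y hy, a, ha, rfl⟩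

/-- mass of a prism -/
lemma mass_add_le {α : Type} (a b : α →₀ ℤ) : mass (a + b) ≤ mass a + mass b := by
  classical
  unfold mass
  rw [Finsupp.sum_of_support_subset (s := a.support ∪ b.support) _ Finsupp.support_add _
    (by simp), Finsupp.sum_of_support_subset (s := a.support ∪ b.support) a
    Finset.subset_union_left _ (by simp), Finsupp.sum_of_support_subset
    (s := a.support ∪ b.support) b Finset.subset_union_right _ (by simp),
    ← Finset.sum_add_distrib]
  exact Finset.sum_le_sum (fun x _ => Int.natAbs_add_le _ _)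

lemma mass_smul {α : Type} (k : ℤ) (a : α →₀ ℤ) : mass (k • a) = k.natAbs * mass a := by
  classical
  by_cases hk : k = 0
  · subst hk; simp [mass]
  · unfold mass
    rw [Finsupp.sum_smul_index (by simp), Finsupp.sum, Finsupp.sum, Finset.mul_sum]
    exact Finset.sum_congr rfl (fun x _ => Int.natAbs_mul _ _)

lemma mass_neg {α : Type} (a : α →₀ ℤ) : mass (-a) = mass a := by
  have := mass_smul (-1) a
  simpa using this

lemma mass_sub_le {α : Type} (a b : α →₀ ℤ) : mass (a - b) ≤ mass a + mass b := by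
  rw [sub_eq_add_neg]
  exact (mass_add_le _ _).trans (by rw [mass_neg])

@[simp] lemma mass_zero {α : Type} : mass (0 : α →₀ ℤ) = 0 := by simp [mass]

@[simp] lemma mass_single {α : Type} (a : α) (k : ℤ) : mass (single a k) = k.natAbs := by
  simp [mass]

lemma mass_sum_le {α β : Type} (s : Finset β) (f : β → α →₀ ℤ) :
    mass (∑ x ∈ s, f x) ≤ ∑ x ∈ s, mass (f x) := by
  classical
  induction s using Finset.induction_on with
  | empty => simp
  | insert x s hx ih =>
    rw [Finset.sum_insert hx, Finset.sum_insert hx]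
    exact (mass_add_le _ _).trans (Nat.add_le_add_left ih _)

/-- mass of the image of a chain under a linear map given on generators -/
lemma mass_linearCombination_le {α β : Type} (f : α → β →₀ ℤ) (c : α →₀ ℤ) (M : ℕ)
    (h : ∀ a ∈ c.support, mass (f a) ≤ M) :
    mass (Finsupp.linearCombination ℤ f c) ≤ M * mass c := by
  rw [Finsupp.linearCombination_apply, Finsupp.sum]
  refine (mass_sum_le _ _).trans ?_
  rw [mass, Finsupp.sum, Finset.mul_sum]
  refine Finset.sum_le_sum (fun a ha => ?_)
  rw [mass_smul, mul_comm]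
  exact Nat.mul_le_mul_right _ (h a ha)

lemma mass_mapDomain_le {α β : Type} (f : α → β) (c : α →₀ ℤ) :
    mass (c.mapDomain f) ≤ mass c := by
  have h := mass_linearCombination_le (fun a => single (f a) (1 : ℤ)) c 1 (by simp)
  rw [one_mul] at h
  convert h using 2
  rw [Finsupp.linearCombination_apply, Finsupp.mapDomain]
  refine Finsupp.sum_congr (fun a _ => by simp)

omit [Group Γ] in
lemma mass_consL_le (g : Γ) (c : LC Γ) : mass (consL g c) ≤ mass c := mass_mapDomain_le _ _

omit [Group Γ] in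
lemma mass_mapL_le (f : Γ → Γ) (c : LC Γ) : mass (mapL f c) ≤ mass c := mass_mapDomain_le _ _

omit [Group Γ] in
lemma mass_prl_le (f f' : Γ → Γ) (σ : List Γ) : mass (prl f f' σ) ≤ σ.length := by
  induction σ with
  | nil => simp [prl]
  | cons g σ ih =>
    rw [prl, List.length_cons]
    refine (mass_sub_le _ _).trans ?_
    have := mass_consL_le (f g) (prl f f' σ)
    rw [mass_single]
    simp only [Int.natAbs_one]
    omega

lemma mass_pathPr_le (E : LC Γ) (g : Γ) (L : List Γ) (k : ℕ)
    (hE : ∀ σ ∈ E.support, σ.length ≤ k) : mass (pathPr E g L) ≤ L.length * (k * mass E) := by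
  induction L generalizing g with
  | nil => simp [pathPr]
  | cons s L ih =>
    rw [pathPr, List.length_cons, add_mul, one_mul]
    refine (mass_add_le _ _).trans ?_
    rw [add_comm]
    refine Nat.add_le_add (ih _) ?_
    exact mass_linearCombination_le _ E k (fun σ hσ => (mass_prl_le _ _ σ).trans (hE σ hσ))

lemma mass_torus_le (Ls : List (List Γ)) (hc : BlockComm Ls) (N : ℕ)
    (hN : ∀ L ∈ Ls, L.length ≤ N) :
    mass (torus Ls) ≤ (N * (Ls.length + 1)) ^ Ls.length := by
  induction Ls with
  | nil => simp [torus]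
  | cons L Ls ih =>
    rw [torus, List.length_cons, pow_succ, mul_comm]
    have ih' := ih hc.2 (fun M hM => hN M (by simp [hM]))
    refine (mass_pathPr_le (torus Ls) 1 L (Ls.length + 1)
      (fun σ hσ => (supp_torus Ls hc.2 σ hσ).1.le)).trans ?_
    rw [← mul_assoc]
    refine Nat.mul_le_mul (Nat.mul_le_mul (hN L (by simp)) (by omega)) ?_
    exact ih'.trans (Nat.pow_le_pow_left (Nat.mul_le_mul_left _ (by omega)) _)

end Torus

end Pool.Agent.H.MP_e5d137_al
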