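import Mathlib
import Pool.Agent.H.MP_e5d137_al.Torus

/-!
# Comparison of a `GComplex` with the bar complex
-/

namespace Pool.Agent.H.MP_e5d137_al

open Finsupp

section Compare

variable {Γ : Type} [Group Γ]

/-- chains of lists of length `k` -/
def gr (k : ℕ) : Submodule ℤ (LC Γ) := Finsupp.supported ℤ ℤ {σ : List Γ | σ.length = k}

lemma gr_induction {k : ℕ} {p : LC Γ → Prop} (h0 : p 0)
    (hadd : ∀ a b, p a → p b → p (a + b))
    (hs : ∀ (σ : List Γ) (n : ℤ), σ.length = k → p (single σ n)) (c : LC Γ)
    (hc : c ∈ gr (Γ := Γ) k) : p c := by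
  classical
  have h : c = c.sum (fun σ n => single σ n) := (Finsupp.sum_single c).symm
  rw [h, Finsupp.sum]
  have hmem : ∀ s : Finset (List Γ), s ⊆ c.support → p (∑ σ ∈ s, single σ (c σ)) := by
    intro s
    induction s using Finset.induction_on with
    | empty => intro _; simpa using h0
    | insert a s ha ih =>
      intro hsub
      rw [Finset.sum_insert ha]
      refine hadd _ _ (hs a _ ?_) (ih (fun x hx => hsub (Finset.mem_insert_of_mem hx)))
      have := (Finsupp.mem_supported ℤ c).1 hc
      exact this (hsub (Finset.mem_insert_self a s))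
  exact hmem _ (Finset.Subset.refl _)

lemma single_mem_gr {k : ℕ} {σ : List Γ} (h : σ.length = k) (n : ℤ) :
    single σ n ∈ gr (Γ := Γ) k := by
  rw [gr, Finsupp.mem_supported]
  intro x hx
  have := Finsupp.support_single_subset hx
  simp only [Finset.mem_singleton] at this
  subst this
  exact h

lemma consL_mem_gr {k : ℕ} (g : Γ) (c : LC Γ) (hc : c ∈ gr (Γ := Γ) k) :
    consL g c ∈ gr (Γ := Γ) (k + 1) := by
  refine gr_induction (p := fun c => consL g c ∈ gr (Γ := Γ) (k + 1)) ?_ ?_ ?_ c hc
  · rw [map_zero]; exact Submodule.zero_mem _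
  · intro a b ha hb; rw [map_add]; exact Submodule.add_mem _ ha hb
  · intro σ n hσ
    rw [consL_single]
    exact single_mem_gr (by simp [hσ]) n

lemma bdl_mem_gr {k : ℕ} (σ : List Γ) (h : σ.length = k + 1) : bdl σ ∈ gr (Γ := Γ) k := by
  induction σ generalizing k with
  | nil => simp at h
  | cons g σ ih =>
    simp only [List.length_cons, Nat.add_right_cancel_iff] at h
    rw [bdl]
    refine Submodule.sub_mem _ (single_mem_gr h 1) ?_
    rcases k with _ | k
    · have : σ = [] := List.length_eq_zero_iff.1 h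
      subst this
      simp [bdl]
    · exact consL_mem_gr g _ (ih h)

variable (K : GComplex Γ)

lemma exists_gam (i : ℕ) : ∃ γ : K.cell i → Γ, ∀ (g : Γ) (x : K.cell i), γ (g • x) = g * γ x := by
  classical
  have h1 : ∀ x : K.cell i, ∃ g : Γ,
      g • (Quotient.out (⟦x⟧ : MulAction.orbitRel.Quotient Γ (K.cell i))) = x := by
    intro x
    have h := Quotient.mk_out (s := MulAction.orbitRel Γ (K.cell i)) x
    have h2 : (MulAction.orbitRel Γ (K.cell i)).r x
      (Quotient.out (⟦x⟧ : MulAction.orbitRel.Quotient Γ (K.cell i))) :=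
      (MulAction.orbitRel Γ (K.cell i)).symm h
    obtain ⟨g, hg⟩ := h2
    exact ⟨g, hg⟩
  choose γ hγ using h1
  refine ⟨γ, fun g x => ?_⟩
  have hq : (⟦g • x⟧ : MulAction.orbitRel.Quotient Γ (K.cell i)) = ⟦x⟧ :=
    Quotient.sound ⟨g, rfl⟩
  have ha := hγ (g • x)
  rw [hq] at ha
  have hb : (g * γ x) • (Quotient.out (⟦x⟧ : MulAction.orbitRel.Quotient Γ (K.cell i))) = g • x := by
    rw [mul_smul, hγ x]
  have hc : ((g * γ x)⁻¹ * γ (g • x)) •
      (Quotient.out (⟦x⟧ : MulAction.orbitRel.Quotient Γ (K.cell i))) =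
      Quotient.out (⟦x⟧ : MulAction.orbitRel.Quotient Γ (K.cell i)) := by
    rw [mul_smul, ha, ← hb, inv_smul_smul]
  have hd := K.free i _ _ hc
  have : γ (g • x) = (g * γ x) * ((g * γ x)⁻¹ * γ (g • x)) := by group
  rw [this, hd, mul_one]

noncomputable def gam (i : ℕ) : K.cell i → Γ := (exists_gam K i).choose

lemma gam_smul (i : ℕ) (g : Γ) (x : K.cell i) : gam K i (g • x) = g * gam K i x :=
  (exists_gam K i).choose_spec g x

/-- the comparison map to the bar complex -/
noncomputable def psi : ∀ i, (K.cell i →₀ ℤ) →ₗ[ℤ] LC Γ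
  | 0 => Finsupp.linearCombination ℤ (fun x => single [gam K 0 x] 1)
  | (i + 1) => Finsupp.linearCombination ℤ
      (fun x => consL (gam K (i + 1) x) (psi i (K.bd i (single x 1))))

lemma psi_zero_single (x : K.cell 0) (n : ℤ) :
    psi K 0 (single x n) = n • single [gam K 0 x] 1 := by
  rw [psi, Finsupp.linearCombination_single]

lemma psi_succ_single (i : ℕ) (x : K.cell (i + 1)) (n : ℤ) :
    psi K (i + 1) (single x n) = n • consL (gam K (i + 1) x) (psi K i (K.bd i (single x 1))) := by
  rw [psi, Finsupp.linearCombination_single]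

lemma bd_single (i : ℕ) (x : K.cell (i + 1)) (n : ℤ) :
    K.bd i (single x n) = n • K.bd i (single x 1) := by
  rw [← map_zsmul]
  congr 1
  simp

lemma bdL_psi_zero (c : K.cell 0 →₀ ℤ) :
    bdL (psi K 0 c) = (c.sum fun _ k => k) • single ([] : List Γ) 1 := by
  classical
  induction c using Finsupp.induction_linear with
  | zero => simp
  | add a b ha hb =>
    rw [map_add, map_add, ha, hb, Finsupp.sum_add_index (by simp) (by simp), add_smul]
  | single x n =>
    rw [psi_zero_single, map_smul, bdL_single, Finsupp.sum_single_index rfl]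
    simp [bdl]

lemma bd_bd (i : ℕ) (c : K.cell (i + 2) →₀ ℤ) : K.bd i (K.bd (i + 1) c) = 0 :=
  (K.exact_succ i _).2 ⟨c, rfl⟩

lemma sum_bd (c : K.cell 1 →₀ ℤ) : ((K.bd 0 c).sum fun _ k => k) = 0 :=
  (K.exact_zero _).2 ⟨c, rfl⟩

lemma bdL_psi_succ (i : ℕ) (c : K.cell (i + 1) →₀ ℤ) :
    bdL (psi K (i + 1) c) = psi K i (K.bd i c) := by
  induction i with
  | zero =>
    induction c using Finsupp.induction_linear with
    | zero => simp
    | add a b ha hb => simp only [map_add, ha, hb]
    | single x n =>
      rw [psi_succ_single, map_smul, bdL_consL, bdL_psi_zero, sum_bd]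
      rw [bd_single K 0 x n, map_smul]
      simp
  | succ i ih =>
    induction c using Finsupp.induction_linear with
    | zero => simp
    | add a b ha hb => simp only [map_add, ha, hb]
    | single x n =>
      rw [psi_succ_single, map_smul, bdL_consL, ih, bd_bd]
      rw [bd_single K (i + 1) x n, map_smul]
      simp

lemma psi_smul (i : ℕ) (g : Γ) (c : K.cell i →₀ ℤ) :
    psi K i (c.mapDomain (fun x => g • x)) = mapL (fun x => g * x) (psi K i c) := by
  induction i with
  | zero =>
    induction c using Finsupp.induction_linear with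
    | zero => simp
    | add a b ha hb => rw [Finsupp.mapDomain_add]; simp only [map_add, ha, hb]
    | single x n =>
      rw [Finsupp.mapDomain_single, psi_zero_single, psi_zero_single, gam_smul]
      simp
  | succ i ih =>
    induction c using Finsupp.induction_linear with
    | zero => simp
    | add a b ha hb => rw [Finsupp.mapDomain_add]; simp only [map_add, ha, hb]
    | single x n =>
      rw [Finsupp.mapDomain_single, psi_succ_single, psi_succ_single, gam_smul, map_smul,
        mapL_consL, ← ih, ← K.bd_smul, Finsupp.mapDomain_single]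

/-- choice of a filling -/
noncomputable def pick (i : ℕ) (z : K.cell i →₀ ℤ) : K.cell (i + 1) →₀ ℤ := by
  classical
  exact if h : ∃ b, K.bd i b = z then h.choose else 0

lemma bd_pick (i : ℕ) (z : K.cell i →₀ ℤ) (h : ∃ b, K.bd i b = z) : K.bd i (pick K i z) = z := by
  classical
  unfold pick
  rw [dif_pos h]
  exact h.choose_spec

/-- action on chains -/
noncomputable def actK (i : ℕ) (g : Γ) : (K.cell i →₀ ℤ) →ₗ[ℤ] (K.cell i →₀ ℤ) :=
  Finsupp.lmapDomain ℤ ℤ (fun x => g • x)

lemma actK_single (i : ℕ) (g : Γ) (x : K.cell i) (n : ℤ) :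
    actK K i g (single x n) = single (g • x) n := by
  simp [actK]

lemma actK_apply (i : ℕ) (g : Γ) (c : K.cell i →₀ ℤ) :
    actK K i g c = c.mapDomain (fun x => g • x) := rfl

lemma actK_mul (i : ℕ) (g h : Γ) (c : K.cell i →₀ ℤ) :
    actK K i (g * h) c = actK K i g (actK K i h c) := by
  induction c using Finsupp.induction_linear with
  | zero => simp
  | add a b ha hb => simp only [map_add, ha, hb]
  | single x n => simp only [actK_single, mul_smul]

lemma bd_actK (i : ℕ) (g : Γ) (c : K.cell (i + 1) →₀ ℤ) :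
    K.bd i (actK K (i + 1) g c) = actK K i g (K.bd i c) := K.bd_smul i g c

/-- the comparison map from the bar complex, on simplices -/
noncomputable def thl : ∀ i, List Γ → (K.cell i →₀ ℤ)
  | 0, [g] => single (g • K.nonempty.some) 1
  | 0, _ => 0
  | (_ + 1), [] => 0
  | (i + 1), (g :: τ) => actK K (i + 1) g
      (pick K i (Finsupp.linearCombination ℤ (thl i) (bdl (1 :: τ.map (fun x => g⁻¹ * x)))))

noncomputable def theta (i : ℕ) : LC Γ →ₗ[ℤ] (K.cell i →₀ ℤ) :=
  Finsupp.linearCombination ℤ (thl K i)

@[simp] lemma theta_single (i : ℕ) (σ : List Γ) (n : ℤ) :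
    theta K i (single σ n) = n • thl K i σ := by
  simp [theta]

lemma thl_succ_cons (i : ℕ) (g : Γ) (τ : List Γ) :
    thl K (i + 1) (g :: τ) = actK K (i + 1) g
      (pick K i (theta K i (bdl (1 :: τ.map (fun x => g⁻¹ * x))))) := by
  rw [thl]; rfl

lemma thl_smul (i : ℕ) (h : Γ) (σ : List Γ) :
    thl K i (σ.map (fun x => h * x)) = actK K i h (thl K i σ) := by
  rcases i with _ | i
  · rcases σ with _ | ⟨g, _ | ⟨g', τ⟩⟩
    · simp [thl]
    · simp [thl, actK_single, mul_smul]
    · simp [thl]
  · rcases σ with _ | ⟨g, τ⟩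
    · simp [thl]
    · rw [List.map_cons, thl_succ_cons, thl_succ_cons, actK_mul, List.map_map]
      have : ((fun x => (h * g)⁻¹ * x) ∘ fun x => h * x) = (fun x => g⁻¹ * x) := by
        funext x
        simp only [Function.comp_apply]
        group
      rw [this]

lemma theta_mapL (i : ℕ) (h : Γ) (c : LC Γ) :
    theta K i (mapL (fun x => h * x) c) = actK K i h (theta K i c) := by
  induction c using Finsupp.induction_linear with
  | zero => simp
  | add a b ha hb => simp only [map_add, ha, hb]
  | single σ n => rw [mapL_single, theta_single, theta_single, map_smul, thl_smul]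

lemma sum_actK (g : Γ) (c : K.cell 0 →₀ ℤ) :
    ((actK K 0 g c).sum fun _ k => k) = c.sum fun _ k => k := by
  rw [actK_apply, Finsupp.sum_mapDomain_index (by simp) (by simp)]

lemma bd_theta_succ (i : ℕ) (c : LC Γ) (hc : c ∈ gr (Γ := Γ) (i + 2)) :
    K.bd i (theta K (i + 1) c) = theta K i (bdL c) := by
  induction i generalizing c with
  | zero =>
    refine gr_induction (p := fun c => K.bd 0 (theta K 1 c) = theta K 0 (bdL c)) ?_ ?_ ?_ c hc
    · simp
    · intro a b ha hb; simp only [map_add, ha, hb]
    · intro σ n hσ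
      rcases σ with _ | ⟨g, _ | ⟨g', _ | ⟨g'', τ⟩⟩⟩
      · simp at hσ
      · simp at hσ
      · rw [theta_single, map_zsmul, bdL_single, map_smul, thl_succ_cons, bd_actK, bd_pick]
        · rw [← theta_mapL, ← bdl_map]
          simp
        · rw [← K.exact_zero]
          simp only [List.map_cons, List.map_nil, bdl, map_sub, theta_single, one_smul,
            consL_single, map_zero, thl]
          rw [Finsupp.sum_sub_index (by simp)]
          simp
      · simp at hσ
  | succ i ih =>
    refine gr_induction (p := fun c => K.bd (i + 1) (theta K (i + 1 + 1) c) =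
      theta K (i + 1) (bdL c)) ?_ ?_ ?_ c hc
    · simp
    · intro a b ha hb; simp only [map_add, ha, hb]
    · intro σ n hσ
      rcases σ with _ | ⟨g, τ⟩
      · simp at hσ
      · rw [theta_single, map_zsmul, bdL_single, map_smul, thl_succ_cons, bd_actK, bd_pick]
        · rw [← theta_mapL, ← bdl_map]
          simp only [List.map_cons, List.map_map, mul_one]
          congr 4
          conv_rhs => rw [← List.map_id τ]
          apply List.map_congr_left
          intro x _
          simp
        · rw [← K.exact_succ, ih, bdL_bdl]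
          · simp
          · apply bdl_mem_gr
            simp only [List.length_cons, List.length_map] at hσ ⊢
            exact hσ

/-- the composition -/
noncomputable def FF (i : ℕ) : LC Γ →ₗ[ℤ] LC Γ := (psi K i) ∘ₗ (theta K i)

lemma FF_apply (i : ℕ) (c : LC Γ) : FF K i c = psi K i (theta K i c) := rfl

lemma FF_mapL (i : ℕ) (h : Γ) (c : LC Γ) :
    FF K i (mapL (fun x => h * x) c) = mapL (fun x => h * x) (FF K i c) := by
  rw [FF_apply, theta_mapL, actK_apply, psi_smul, FF_apply]

lemma bdL_FF (i : ℕ) (c : LC Γ) (hc : c ∈ gr (Γ := Γ) (i + 2)) :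
    bdL (FF K (i + 1) c) = FF K i (bdL c) := by
  rw [FF_apply, bdL_psi_succ, bd_theta_succ K i c hc, FF_apply]

/-- the homotopy, on simplices -/
noncomputable def hl : ∀ _ : ℕ, List Γ → LC Γ
  | _, [] => 0
  | 0, (g :: τ) => consL g (FF K 0 (single (g :: τ) 1) - single (g :: τ) 1)
  | (i + 1), (g :: τ) => consL g (FF K (i + 1) (single (g :: τ) 1) - single (g :: τ) 1 -
      Finsupp.linearCombination ℤ (hl i) (bdl (g :: τ)))

noncomputable def HH (i : ℕ) : LC Γ →ₗ[ℤ] LC Γ := Finsupp.linearCombination ℤ (hl K i)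

@[simp] lemma HH_single (i : ℕ) (σ : List Γ) (n : ℤ) :
    HH K i (single σ n) = n • hl K i σ := by
  simp [HH]

lemma hl_zero_cons (g : Γ) (τ : List Γ) :
    hl K 0 (g :: τ) = consL g (FF K 0 (single (g :: τ) 1) - single (g :: τ) 1) := by
  rw [hl]

lemma hl_succ_cons (i : ℕ) (g : Γ) (τ : List Γ) :
    hl K (i + 1) (g :: τ) = consL g (FF K (i + 1) (single (g :: τ) 1) - single (g :: τ) 1 -
      HH K i (bdl (g :: τ))) := by
  rw [hl]; rfl

lemma hl_smul (i : ℕ) (h : Γ) (σ : List Γ) :
    hl K i (σ.map (fun x => h * x)) = mapL (fun x => h * x) (hl K i σ) := by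
  induction i generalizing σ with
  | zero =>
    rcases σ with _ | ⟨g, τ⟩
    · simp [hl]
    · rw [List.map_cons, hl_zero_cons, hl_zero_cons, mapL_consL]
      congr 1
      rw [map_sub, ← FF_mapL, mapL_single]
      rfl
  | succ i ih =>
    rcases σ with _ | ⟨g, τ⟩
    · simp [hl]
    · have ih' : ∀ c : LC Γ, HH K i (mapL (fun x => h * x) c) =
          mapL (fun x => h * x) (HH K i c) := by
        intro c
        induction c using Finsupp.induction_linear with
        | zero => simp
        | add a b ha hb => simp only [map_add, ha, hb]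
        | single σ n => rw [mapL_single, HH_single, HH_single, map_smul, ih]
      rw [List.map_cons, hl_succ_cons, hl_succ_cons, mapL_consL]
      congr 1
      rw [map_sub, map_sub, ← FF_mapL, mapL_single, ← ih', ← bdl_map]
      rfl

lemma bdL_FF_zero (g : Γ) : bdL (FF K 0 (single [g] 1)) = single [] 1 := by
  rw [FF_apply, theta_single, one_smul, thl, psi_zero_single, bdL_psi_zero_aux]
where
  bdL_psi_zero_aux : ∀ {x : Γ}, bdL ((1 : ℤ) • single [x] (1 : ℤ)) = single ([] : List Γ) 1 := by
    intro x
    rw [one_smul, bdL_single]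
    simp [bdl]

lemma bdL_HH_zero (c : LC Γ) (hc : c ∈ gr (Γ := Γ) 1) : bdL (HH K 0 c) = FF K 0 c - c := by
  refine gr_induction (p := fun c => bdL (HH K 0 c) = FF K 0 c - c) ?_ ?_ ?_ c hc
  · simp
  · intro a b ha hb; simp only [map_add, ha, hb]; abel
  · intro σ n hσ
    rcases σ with _ | ⟨g, _ | ⟨g', τ⟩⟩
    · simp at hσ
    · have e : (single [g] n : LC Γ) = n • single [g] 1 := by simp
      rw [e]
      simp only [map_smul]
      rw [HH_single, one_smul, hl_zero_cons, bdL_consL, map_sub, bdL_FF_zero, bdL_single, one_smul]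
      simp [bdl, smul_sub]
    · simp at hσ

lemma bdL_HH_succ (i : ℕ) (c : LC Γ) (hc : c ∈ gr (Γ := Γ) (i + 2)) :
    bdL (HH K (i + 1) c) = FF K (i + 1) c - c - HH K i (bdL c) := by
  induction i generalizing c with
  | zero =>
    refine gr_induction (p := fun c => bdL (HH K (0 + 1) c) = FF K (0 + 1) c - c -
      HH K 0 (bdL c)) ?_ ?_ ?_ c hc
    · simp
    · intro a b ha hb; simp only [map_add, ha, hb]; abel
    · intro σ n hσ
      rcases σ with _ | ⟨g, τ⟩
      · simp at hσ
      · have e : (single (g :: τ) n : LC Γ) = n • single (g :: τ) 1 := by simp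
        have hz : bdL (FF K (0 + 1) (single (g :: τ) 1) - single (g :: τ) 1 -
            HH K 0 (bdl (g :: τ))) = 0 := by
          rw [map_sub, map_sub, bdL_FF K 0 _ (single_mem_gr hσ 1), bdL_single, one_smul,
            bdL_HH_zero K _ (bdl_mem_gr _ hσ)]
          simp
        rw [e]
        simp only [map_smul]
        rw [HH_single, one_smul, hl_succ_cons, bdL_consL, hz, bdL_single, one_smul]
        simp [smul_sub]
  | succ i ih =>
    refine gr_induction (p := fun c => bdL (HH K (i + 1 + 1) c) = FF K (i + 1 + 1) c - c -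
      HH K (i + 1) (bdL c)) ?_ ?_ ?_ c hc
    · simp
    · intro a b ha hb; simp only [map_add, ha, hb]; abel
    · intro σ n hσ
      rcases σ with _ | ⟨g, τ⟩
      · simp at hσ
      · have e : (single (g :: τ) n : LC Γ) = n • single (g :: τ) 1 := by simp
        have hz : bdL (FF K (i + 1 + 1) (single (g :: τ) 1) - single (g :: τ) 1 -
            HH K (i + 1) (bdl (g :: τ))) = 0 := by
          rw [map_sub, map_sub, bdL_FF K (i + 1) _ (single_mem_gr hσ 1), bdL_single, one_smul,
            ih _ (bdl_mem_gr _ hσ), bdL_bdl]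
          simp
        rw [e]
        simp only [map_smul]
        rw [HH_single, one_smul, hl_succ_cons, bdL_consL, hz, bdL_single, one_smul]
        simp [smul_sub]

end Compare

end Pool.Agent.H.MP_e5d137_al
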