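import Mathlib
import Pool.Agent.H.MP_e5d137_al.Compare

/-!
# Fillings in a `GComplex` give fillings in the bar complex with simplices of finitely many types
-/

namespace Pool.Agent.H.MP_e5d137_al

open Finsupp

section FillBar

variable {Γ : Type} [Group Γ]

/-- all simplices of `c` are translates of simplices in `𝒯` -/
def OfType (𝒯 : Set (List Γ)) (c : LC Γ) : Prop :=
  ∀ σ ∈ c.support, ∃ g : Γ, ∃ τ ∈ 𝒯, σ = τ.map (fun x => g * x)

lemma OfType.mono {𝒯 𝒯' : Set (List Γ)} (h : 𝒯 ⊆ 𝒯') {c : LC Γ} (hc : OfType 𝒯 c) :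
    OfType 𝒯' c := fun σ hσ => by
  obtain ⟨g, τ, hτ, rfl⟩ := hc σ hσ
  exact ⟨g, τ, h hτ, rfl⟩

lemma OfType.sub {𝒯 : Set (List Γ)} {c d : LC Γ} (hc : OfType 𝒯 c) (hd : OfType 𝒯 d) :
    OfType 𝒯 (c - d) := fun σ hσ => by
  classical
  rcases Finset.mem_union.1 (Finsupp.support_sub hσ) with h | h
  · exact hc σ h
  · exact hd σ h

lemma OfType.mapL {𝒯 : Set (List Γ)} {c : LC Γ} (hc : OfType 𝒯 c) (h : Γ) :
    OfType 𝒯 (mapL (fun x => h * x) c) := fun σ hσ => by
  classical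
  have := Finsupp.mapDomain_support (f := List.map (fun x => h * x)) (s := c)
    (by simpa [Pool.Agent.H.MP_e5d137_al.mapL] using hσ)
  rw [Finset.mem_image] at this
  obtain ⟨ρ, h1, rfl⟩ := this
  obtain ⟨g, τ, hτ, rfl⟩ := hc ρ h1
  refine ⟨h * g, τ, hτ, ?_⟩
  rw [List.map_map]
  apply List.map_congr_left
  intro x _
  simp [mul_assoc]

lemma ofType_support {α : Type} (f : α → LC Γ) (c : α →₀ ℤ) (𝒯 : Set (List Γ))
    (h : ∀ a ∈ c.support, OfType 𝒯 (f a)) : OfType 𝒯 (Finsupp.linearCombination ℤ f c) := by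
  intro σ hσ
  by_contra hcon
  apply Finsupp.mem_support_iff.1 hσ
  rw [Finsupp.linearCombination_apply, Finsupp.sum, Finsupp.finsetSum_apply]
  refine Finset.sum_eq_zero (fun a ha => ?_)
  rw [Finsupp.smul_apply]
  by_cases h' : σ ∈ (f a).support
  · exact absurd (h a ha σ h') hcon
  · rw [Finsupp.notMem_support_iff.1 h']
    simp

lemma ofType_self (c : LC Γ) : OfType {σ | σ ∈ c.support} c := fun σ hσ =>
  ⟨1, σ, hσ, by simp⟩

/-- an equivariant map sends chains of finite type to chains of finite type -/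
lemma ofType_lc (f : List Γ → LC Γ)
    (hf : ∀ (g : Γ) (τ : List Γ), f (τ.map (fun x => g * x)) = mapL (fun x => g * x) (f τ))
    (𝒯 : Set (List Γ)) (hfin : 𝒯.Finite) :
    ∃ 𝒯' : Set (List Γ), 𝒯'.Finite ∧ ∃ M : ℕ, ∀ c, OfType 𝒯 c →
      OfType 𝒯' (Finsupp.linearCombination ℤ f c) ∧
        mass (Finsupp.linearCombination ℤ f c) ≤ M * mass c := by
  classical
  refine ⟨⋃ τ ∈ 𝒯, {σ | σ ∈ (f τ).support}, ?_, ∑ τ ∈ hfin.toFinset, mass (f τ), ?_⟩
  · exact hfin.biUnion (fun τ _ => (f τ).support.finite_toSet)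
  · intro c hc
    constructor
    · apply ofType_support
      intro σ hσ
      obtain ⟨g, τ, hτ, rfl⟩ := hc σ hσ
      rw [hf]
      exact ((ofType_self (f τ)).mono (Set.subset_biUnion_of_mem (u := fun τ =>
        {σ | σ ∈ (f τ).support}) hτ)).mapL g
    · apply mass_linearCombination_le
      intro σ hσ
      obtain ⟨g, τ, hτ, rfl⟩ := hc σ hσ
      rw [hf]
      refine (mass_mapL_le _ _).trans ?_
      exact Finset.single_le_sum (f := fun τ => mass (f τ)) (fun _ _ => Nat.zero_le _)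
        (hfin.mem_toFinset.2 hτ)

variable (K : GComplex Γ)

lemma theta_mass (i : ℕ) (𝒯 : Set (List Γ)) (hfin : 𝒯.Finite) :
    ∃ M : ℕ, ∀ c, OfType 𝒯 c → mass (theta K i c) ≤ M * mass c := by
  classical
  refine ⟨∑ τ ∈ hfin.toFinset, mass (thl K i τ), fun c hc => ?_⟩
  apply mass_linearCombination_le
  intro σ hσ
  obtain ⟨g, τ, hτ, rfl⟩ := hc σ hσ
  rw [thl_smul, actK_apply]
  refine (mass_mapDomain_le _ _).trans ?_
  exact Finset.single_le_sum (f := fun τ => mass (thl K i τ)) (fun _ _ => Nat.zero_le _)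
        (hfin.mem_toFinset.2 hτ)

lemma psi_type (i : ℕ) (s : Finset (K.cell i))
    (hs : ∀ x : K.cell i, ∃ g : Γ, ∃ y ∈ s, g • y = x) :
    ∃ 𝒯' : Set (List Γ), 𝒯'.Finite ∧ ∃ M : ℕ, ∀ c, OfType 𝒯' (psi K i c) ∧
      mass (psi K i c) ≤ M * mass c := by
  classical
  have hlin : ∀ c, psi K i c = Finsupp.linearCombination ℤ (fun x => psi K i (single x 1)) c := by
    intro c
    induction c using Finsupp.induction_linear with
    | zero => simp
    | add a b ha hb => simp only [map_add, ha, hb]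
    | single x n =>
      rw [Finsupp.linearCombination_single, ← map_smul]
      simp
  have hsm : ∀ (g : Γ) (y : K.cell i), psi K i (single (g • y) 1) =
      mapL (fun x => g * x) (psi K i (single y 1)) := by
    intro g y
    rw [← psi_smul, Finsupp.mapDomain_single]
  refine ⟨⋃ y ∈ s, {σ | σ ∈ (psi K i (single y 1)).support}, ?_,
    ∑ y ∈ s, mass (psi K i (single y 1)), fun c => ⟨?_, ?_⟩⟩
  · exact s.finite_toSet.biUnion (fun y _ => (psi K i (single y 1)).support.finite_toSet)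
  · rw [hlin]
    apply ofType_support
    intro x _
    obtain ⟨g, y, hy, rfl⟩ := hs x
    rw [hsm]
    exact ((ofType_self (psi K i (single y 1))).mono (Set.subset_biUnion_of_mem (u := fun y =>
        {σ | σ ∈ (psi K i (single y 1)).support}) hy)).mapL g
  · rw [hlin c]
    apply mass_linearCombination_le
    intro x _
    obtain ⟨g, y, hy, rfl⟩ := hs x
    rw [hsm]
    refine (mass_mapL_le _ _).trans ?_
    exact Finset.single_le_sum (f := fun y => mass (psi K i (single y 1)))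
      (fun _ _ => Nat.zero_le _) hy

/-- Main statement of the file. -/
theorem fill_bar (m : ℕ) (hm : 1 ≤ m) (s : Finset (K.cell (m + 1)))
    (hs : ∀ x : K.cell (m + 1), ∃ g : Γ, ∃ y ∈ s, g • y = x)
    (𝒯 : Set (List Γ)) (hfin : 𝒯.Finite) :
    ∃ 𝒯' : Set (List Γ), 𝒯'.Finite ∧ ∃ M : ℕ, ∀ E : LC Γ, E ∈ gr (Γ := Γ) (m + 1) → bdL E = 0 →
      OfType 𝒯 E → ∃ z : K.cell m →₀ ℤ, (∃ b, K.bd m b = z) ∧ mass z ≤ M * mass E ∧
        ∀ c, K.bd m c = z → ∃ c' : LC Γ, bdL c' = E ∧ OfType 𝒯' c' ∧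
          mass c' ≤ M * (mass c + mass E) := by
  obtain ⟨M1, hM1⟩ := theta_mass K m 𝒯 hfin
  obtain ⟨𝒯2, hfin2, M2, hM2⟩ := psi_type K (m + 1) s hs
  obtain ⟨𝒯3, hfin3, M3, hM3⟩ := ofType_lc (hl K m) (fun g τ => hl_smul K m g τ) 𝒯 hfin
  refine ⟨𝒯2 ∪ 𝒯3, hfin2.union hfin3, M1 + M2 + M3, fun E hE hbd hT => ?_⟩
  obtain ⟨k, rfl⟩ : ∃ k, m = k + 1 := ⟨m - 1, by omega⟩
  refine ⟨theta K (k + 1) E, ?_, ?_, ?_⟩
  · rw [← K.exact_succ, bd_theta_succ K k E hE, hbd, map_zero]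
  · refine (hM1 E hT).trans (Nat.mul_le_mul_right _ (by omega))
  · intro c hc
    refine ⟨psi K (k + 1 + 1) c - HH K (k + 1) E, ?_, ?_, ?_⟩
    · rw [map_sub, bdL_psi_succ, hc, bdL_HH_succ K k E hE, hbd, map_zero, FF_apply]
      abel
    · exact ((hM2 c).1.mono Set.subset_union_left).sub ((hM3 E hT).1.mono Set.subset_union_right)
    · refine (mass_sub_le _ _).trans ?_
      have h1 := (hM2 c).2
      have h2 := (hM3 E hT).2
      have h2' : mass (HH K (k + 1) E) ≤ M3 * mass E := h2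
      have a1 := Nat.zero_le (M1 * mass c)
      have a2 := Nat.zero_le (M1 * mass E)
      have a3 := Nat.zero_le (M2 * mass E)
      have a4 := Nat.zero_le (M3 * mass c)
      nlinarith

end FillBar

end Pool.Agent.H.MP_e5d137_al
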