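import Mathlib

/-!
# Winding cochains in the plane and areas of triangles
-/

namespace Pool.Agent.H.MP_e5d137_al

open MeasureTheory

/-- the segment from `u` to `v` crosses the upward ray from `p` from left to right -/
noncomputable def tp (p u v : ℝ × ℝ) : ℤ :=
  open Classical in
  if u.1 ≤ p.1 ∧ p.1 < v.1 ∧ (p.2 - u.2) * (v.1 - u.1) < (p.1 - u.1) * (v.2 - u.2) then 1 else 0

/-- signed crossing number of the segment from `u` to `v` with the upward ray from `p` -/
noncomputable def th (p u v : ℝ × ℝ) : ℤ := tp p u v - tp p v u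

@[simp] lemma th_self (p u : ℝ × ℝ) : th p u u = 0 := by simp [th]

/-- the closed triangle -/
def tri (u v w : ℝ × ℝ) : Set (ℝ × ℝ) :=
  {p | ∃ a b c : ℝ, 0 ≤ a ∧ 0 ≤ b ∧ 0 ≤ c ∧ a + b + c = 1 ∧
    p.1 = a * u.1 + b * v.1 + c * w.1 ∧ p.2 = a * u.2 + b * v.2 + c * w.2}

lemma tri_comm12 {u v w p : ℝ × ℝ} (h : p ∈ tri u v w) : p ∈ tri v u w := by
  obtain ⟨a, b, c, h1, h2, h3, h4, h5, h6⟩ := h
  exact ⟨b, a, c, h2, h1, h3, by linarith, by linarith, by linarith⟩

lemma tri_comm23 {u v w p : ℝ × ℝ} (h : p ∈ tri u v w) : p ∈ tri u w v := by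
  obtain ⟨a, b, c, h1, h2, h3, h4, h5, h6⟩ := h
  exact ⟨a, c, b, h1, h3, h2, by linarith, by linarith, by linarith⟩

/-- a segment meets the vertical line through `p` -/
lemma seg_height (p l r : ℝ × ℝ) (h1 : l.1 ≤ p.1) (h2 : p.1 < r.1) :
    ∃ t : ℝ, 0 ≤ t ∧ t ≤ 1 ∧ p.1 = (1 - t) * l.1 + t * r.1 ∧
      ((p.2 - l.2) * (r.1 - l.1) < (p.1 - l.1) * (r.2 - l.2) ↔
        p.2 < (1 - t) * l.2 + t * r.2) := by
  have hd : 0 < r.1 - l.1 := by linarith
  refine ⟨(p.1 - l.1) / (r.1 - l.1), by apply div_nonneg <;> linarith,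
    by rw [div_le_one hd]; linarith, ?_, ?_⟩
  · field_simp
    ring
  · rw [← sub_pos, ← sub_pos (b := p.2)]
    have e : (1 - (p.1 - l.1) / (r.1 - l.1)) * l.2 + (p.1 - l.1) / (r.1 - l.1) * r.2 - p.2 =
        ((p.1 - l.1) * (r.2 - l.2) - (p.2 - l.2) * (r.1 - l.1)) / (r.1 - l.1) := by
      field_simp
      ring
    rw [e]
    constructor
    · intro h; exact div_pos h hd
    · intro h
      by_contra hcon
      push Not at hcon
      exact absurd h (not_lt.2 (div_nonpos_of_nonpos_of_nonneg hcon hd.le))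

/-- core lemma -/
lemma tri_core (p q r r' : ℝ × ℝ) (t t' : ℝ) (ht0 : 0 ≤ t) (ht1 : t ≤ 1) (ht0' : 0 ≤ t')
    (ht1' : t' ≤ 1) (hx : p.1 = (1 - t) * q.1 + t * r.1) (hx' : p.1 = (1 - t') * q.1 + t' * r'.1)
    (hy : p.2 < (1 - t) * q.2 + t * r.2) (hy' : (1 - t') * q.2 + t' * r'.2 ≤ p.2) :
    p ∈ tri q r r' := by
  set y := (1 - t) * q.2 + t * r.2 with hyd
  set y' := (1 - t') * q.2 + t' * r'.2 with hyd'
  have hpos : 0 < y - y' := by linarith
  set s := (y - p.2) / (y - y') with hs
  have hs0 : 0 ≤ s := div_nonneg (by linarith) hpos.le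
  have hs1 : s ≤ 1 := by rw [hs, div_le_one hpos]; linarith
  have hsy : s * (y - y') = y - p.2 := by rw [hs]; field_simp
  refine ⟨(1 - s) * (1 - t) + s * (1 - t'), (1 - s) * t, s * t', ?_, ?_, ?_, ?_, ?_, ?_⟩
  · exact add_nonneg (mul_nonneg (by linarith) (by linarith)) (mul_nonneg hs0 (by linarith))
  · exact mul_nonneg (by linarith) ht0
  · exact mul_nonneg hs0 ht0'
  · ring
  · have : p.1 = (1 - s) * p.1 + s * p.1 := by ring
    rw [this]
    nth_rewrite 1 [hx]
    rw [hx']
    ring
  · have : p.2 = (1 - s) * y + s * y' := by linarith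
    rw [this, hyd, hyd']
    ring

/-- The coboundary of the winding cochain is supported on the triangle. -/
lemma mem_tri_of_th (p u v w : ℝ × ℝ) (h : th p u v + th p v w - th p u w ≠ 0) :
    p ∈ tri u v w := by
  classical
  unfold th tp at h
  by_cases hu : u.1 ≤ p.1 <;> by_cases hv : v.1 ≤ p.1 <;> by_cases hw : w.1 ≤ p.1
  · simp [hu, hv, hw, not_lt.2 hu, not_lt.2 hv, not_lt.2 hw] at h
  · -- u, v left, w right
    push Not at hw
    simp only [hu, hv, hw, not_lt.2 hu, not_lt.2 hv, not_le.2 hw, true_and, false_and, and_false,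
      if_false, sub_zero] at h
    obtain ⟨t, t0, t1, tx, ty⟩ := seg_height p u w hu hw
    obtain ⟨s, s0, s1, sx, sy⟩ := seg_height p v w hv hw
    simp only [ty, sy] at h
    by_cases h1 : p.2 < (1 - t) * u.2 + t * w.2 <;> by_cases h2 : p.2 < (1 - s) * v.2 + s * w.2
    · simp [h1, h2] at h
    · have := tri_core p w u v (1 - t) (1 - s) (by linarith) (by linarith) (by linarith)
        (by linarith) (by linarith) (by linarith) (by linarith) (by linarith)
      exact tri_comm23 (tri_comm12 this)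
    · have := tri_core p w v u (1 - s) (1 - t) (by linarith) (by linarith) (by linarith)
        (by linarith) (by linarith) (by linarith) (by linarith) (by linarith)
      exact tri_comm12 (tri_comm23 (tri_comm12 this))
    · simp [h1, h2] at h
  · -- u, w left, v right
    push Not at hv
    simp only [hu, hv, hw, not_lt.2 hu, not_lt.2 hw, not_le.2 hv, true_and, false_and, and_false,
      if_false, sub_zero, zero_sub] at h
    obtain ⟨t, t0, t1, tx, ty⟩ := seg_height p u v hu hv
    obtain ⟨s, s0, s1, sx, sy⟩ := seg_height p w v hw hv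
    simp only [ty, sy] at h
    by_cases h1 : p.2 < (1 - t) * u.2 + t * v.2 <;> by_cases h2 : p.2 < (1 - s) * w.2 + s * v.2
    · simp [h1, h2] at h
    · have := tri_core p v u w (1 - t) (1 - s) (by linarith) (by linarith) (by linarith)
        (by linarith) (by linarith) (by linarith) (by linarith) (by linarith)
      exact tri_comm12 this
    · have := tri_core p v w u (1 - s) (1 - t) (by linarith) (by linarith) (by linarith)
        (by linarith) (by linarith) (by linarith) (by linarith) (by linarith)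
      exact tri_comm12 (tri_comm23 this)
    · simp [h1, h2] at h
  · -- u left, v, w right
    push Not at hv hw
    simp only [hu, hv, hw, not_lt.2 hu, not_le.2 hv, not_le.2 hw, true_and, false_and, and_false,
      if_false, sub_zero, add_zero] at h
    obtain ⟨t, t0, t1, tx, ty⟩ := seg_height p u v hu hv
    obtain ⟨s, s0, s1, sx, sy⟩ := seg_height p u w hu hw
    simp only [ty, sy] at h
    by_cases h1 : p.2 < (1 - t) * u.2 + t * v.2 <;> by_cases h2 : p.2 < (1 - s) * u.2 + s * w.2
    · simp [h1, h2] at h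
    · exact tri_core p u v w t s t0 t1 s0 s1 tx sx h1 (by linarith)
    · exact tri_comm23 (tri_core p u w v s t s0 s1 t0 t1 sx tx h2 (by linarith))
    · simp [h1, h2] at h
  · -- v, w left, u right
    push Not at hu
    simp only [hu, hv, hw, not_le.2 hu, not_lt.2 hv, not_lt.2 hw, true_and, false_and, and_false,
      if_false, sub_zero, zero_sub, add_zero] at h
    obtain ⟨t, t0, t1, tx, ty⟩ := seg_height p v u hv hu
    obtain ⟨s, s0, s1, sx, sy⟩ := seg_height p w u hw hu
    simp only [ty, sy] at h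
    by_cases h1 : p.2 < (1 - t) * v.2 + t * u.2 <;> by_cases h2 : p.2 < (1 - s) * w.2 + s * u.2
    · simp [h1, h2] at h
    · exact tri_core p u v w (1 - t) (1 - s) (by linarith) (by linarith) (by linarith)
        (by linarith) (by linarith) (by linarith) (by linarith) (by linarith)
    · exact tri_comm23 (tri_core p u w v (1 - s) (1 - t) (by linarith) (by linarith) (by linarith)
        (by linarith) (by linarith) (by linarith) (by linarith) (by linarith))
    · simp [h1, h2] at h
  · -- v left, u, w right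
    push Not at hu hw
    simp only [hu, hv, hw, not_le.2 hu, not_lt.2 hv, not_le.2 hw, true_and, false_and, and_false,
      if_false, sub_zero, zero_sub, sub_self] at h
    obtain ⟨t, t0, t1, tx, ty⟩ := seg_height p v u hv hu
    obtain ⟨s, s0, s1, sx, sy⟩ := seg_height p v w hv hw
    simp only [ty, sy] at h
    by_cases h1 : p.2 < (1 - t) * v.2 + t * u.2 <;> by_cases h2 : p.2 < (1 - s) * v.2 + s * w.2
    · simp [h1, h2] at h
    · exact tri_comm12 (tri_core p v u w t s t0 t1 s0 s1 tx sx h1 (by linarith))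
    · exact tri_comm12 (tri_comm23 (tri_core p v w u s t s0 s1 t0 t1 sx tx h2 (by linarith)))
    · simp [h1, h2] at h
  · -- w left, u, v right
    push Not at hu hv
    simp only [hu, hv, hw, not_le.2 hu, not_le.2 hv, not_lt.2 hw, true_and, false_and, and_false,
      if_false, sub_zero, zero_sub, sub_self, zero_add] at h
    obtain ⟨t, t0, t1, tx, ty⟩ := seg_height p w u hw hu
    obtain ⟨s, s0, s1, sx, sy⟩ := seg_height p w v hw hv
    simp only [ty, sy] at h
    by_cases h1 : p.2 < (1 - t) * w.2 + t * u.2 <;> by_cases h2 : p.2 < (1 - s) * w.2 + s * v.2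
    · simp [h1, h2] at h
    · exact tri_comm23 (tri_comm12 (tri_comm23 (tri_comm23
        (tri_core p w u v t s t0 t1 s0 s1 tx sx h1 (by linarith)))))
    · exact tri_comm12 (tri_comm23 (tri_comm12
        (tri_core p w v u s t s0 s1 t0 t1 sx tx h2 (by linarith))))
    · simp [h1, h2] at h
  · push Not at hu hv hw
    simp [not_le.2 hu, not_le.2 hv, not_le.2 hw] at h

/-- The area of a triangle is at most the area of the parallelogram. -/
lemma volume_tri_le (u v w : ℝ × ℝ) :
    volume (tri u v w) ≤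
      ENNReal.ofReal |(v.1 - u.1) * (w.2 - u.2) - (w.1 - u.1) * (v.2 - u.2)| := by
  set M : Matrix (Fin 2) (Fin 2) ℝ := !![v.1 - u.1, w.1 - u.1; v.2 - u.2, w.2 - u.2] with hM
  set f : ℝ × ℝ →ₗ[ℝ] ℝ × ℝ :=
    Matrix.toLin (Module.Basis.finTwoProd ℝ) (Module.Basis.finTwoProd ℝ) M with hf
  have hdet : LinearMap.det f = (v.1 - u.1) * (w.2 - u.2) - (w.1 - u.1) * (v.2 - u.2) := by
    rw [hf, LinearMap.det_toLin, hM, Matrix.det_fin_two_of]
  have hfa : ∀ x : ℝ × ℝ, f x = ((v.1 - u.1) * x.1 + (w.1 - u.1) * x.2,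
      (v.2 - u.2) * x.1 + (w.2 - u.2) * x.2) := by
    intro x
    rw [hf, hM, Matrix.toLin_finTwoProd_apply]
  have hsub : tri u v w ⊆ (fun x => u + x) '' (f '' (Set.Icc 0 1 ×ˢ Set.Icc 0 1)) := by
    rintro p ⟨a, b, c, ha, hb, hc, habc, h1, h2⟩
    refine ⟨f (b, c), ⟨(b, c), ⟨⟨hb, by linarith⟩, ⟨hc, by linarith⟩⟩, rfl⟩, ?_⟩
    rw [hfa]
    ext
    · simp only [Prod.fst_add]
      rw [h1]
      have : a = 1 - b - c := by linarith
      rw [this]; ring
    · simp only [Prod.snd_add]
      rw [h2]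
      have : a = 1 - b - c := by linarith
      rw [this]; ring
  refine (measure_mono hsub).trans ?_
  have e1 : volume ((fun x => u + x) '' (f '' (Set.Icc (0:ℝ) 1 ×ˢ Set.Icc (0:ℝ) 1))) =
      volume (f '' (Set.Icc (0:ℝ) 1 ×ˢ Set.Icc (0:ℝ) 1)) := by
    rw [Set.image_add_left, measure_preimage_add]
  rw [e1, MeasureTheory.Measure.addHaar_image_linearMap, hdet]
  have e2 : volume (Set.Icc (0:ℝ) 1 ×ˢ Set.Icc (0:ℝ) 1) = 1 := by
    rw [Measure.volume_eq_prod, Measure.prod_prod]
    simp
  rw [e2, mul_one]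

end Pool.Agent.H.MP_e5d137_al
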