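import Mathlib
import Pool.Agent.H.MP_e5d137_al.Torus

/-!
# Evaluation of cup products on torus cycles
-/

namespace Pool.Agent.H.MP_e5d137_al

open Finsupp

section TorusEval

variable {Γ : Type} [Group Γ]

lemma cup_map (f : Γ → Γ) (r : List (Γ → Γ → ℤ)) (σ : List Γ)
    (h : ∀ θ ∈ r, ∀ x ∈ σ, ∀ y ∈ σ, θ (f x) (f y) = θ x y) : cup r (σ.map f) = cup r σ := by
  induction r generalizing σ with
  | nil => rcases σ with _ | ⟨g, _ | ⟨g', σ⟩⟩ <;> simp [cup]
  | cons θ r ih =>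
    rcases σ with _ | ⟨g, _ | ⟨g', σ⟩⟩
    · simp [cup]
    · simp [cup]
    · simp only [List.map_cons, cup]
      rw [h θ (by simp) g (by simp) g' (by simp)]
      congr 1
      have := ih (g' :: σ) (fun θ' hθ' x hx y hy => h θ' (by simp [hθ']) x (by simp [hx]) y
        (by simp [hy]))
      simpa using this

/-- compatibility of a list of 1-cochains and paths -/
def Compat : List ((Γ → Γ → ℤ) × List Γ) → Prop
  | [] => True
  | (p :: D) =>
      (∀ x ∈ tverts (D.map Prod.snd), ∀ a ∈ pverts 1 p.2, ∀ b ∈ pverts 1 p.2,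
        p.1 (x * a) (x * b) = p.1 a b) ∧
      (∀ x ∈ tverts (D.map Prod.snd), ∀ y ∈ tverts (D.map Prod.snd), ∀ a ∈ pverts 1 p.2,
        p.1 (x * a) (y * a) = 0) ∧
      (∀ q ∈ D, ∀ x ∈ tverts (D.map Prod.snd), ∀ y ∈ tverts (D.map Prod.snd),
        ∀ a ∈ pverts 1 p.2, q.1 (x * a) (y * a) = q.1 x y) ∧ Compat D

lemma cupL_torus (D : List ((Γ → Γ → ℤ) × List Γ)) (hD : Compat D)
    (hc : BlockComm (D.map Prod.snd)) :
    cupL (D.map Prod.fst) (torus (D.map Prod.snd)) = (D.map (fun p => psum p.1 1 p.2)).prod := by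
  induction D with
  | nil => simp [torus, cup]
  | cons p D ih =>
    obtain ⟨h1, h2, h3, h4⟩ := hD
    simp only [List.map_cons, List.prod_cons, torus]
    rw [← ih h4 hc.2]
    refine cupL_pathPr p.1 (D.map Prod.fst) (torus (D.map Prod.snd)) 1 p.2
      (tverts (D.map Prod.snd)) (fun σ hσ => (supp_torus _ hc.2 σ hσ).2.2) h1
      (fun x hx y hy a ha => h2 x hx y hy a ha) ?_
    intro σ hσ a ha
    apply cup_map
    intro θ hθ x hx y hy
    obtain ⟨q, hq, rfl⟩ := List.mem_map.1 hθ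
    have hv := (supp_torus _ hc.2 σ hσ).2.2
    exact h3 q hq x (hv x hx) y (hv y hy) a ha

end TorusEval

end Pool.Agent.H.MP_e5d137_al
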