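import Mathlib
import Pool.Agent.H.MP_e5d137_al.FillBar
import Pool.Agent.H.MP_e5d137_al.TorusEval
import Pool.Agent.H.MP_e5d137_al.Plane

/-!
# The abstract lower bound
-/

namespace Pool.Agent.H.MP_e5d137_al

open Finsupp MeasureTheory

section Types

variable {Γ : Type} [Group Γ]

/-- reduced types: lists of length `k+1` starting with `1` and with consecutive ratios in `S` -/
def typ (S : Set Γ) (k : ℕ) : Set (List Γ) :=
  {σ | σ.length = k + 1 ∧ σ.head? = Option.some 1 ∧ Chn S σ}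

lemma chn_map (S : Set Γ) (h : Γ) (σ : List Γ) (hσ : Chn S σ) :
    Chn S (σ.map (fun x => h * x)) := by
  unfold Chn at hσ ⊢
  rw [List.isChain_map]
  refine List.IsChain.imp_of_mem_imp ?_ hσ
  intro a b _ _ hab
  have : (h * a)⁻¹ * (h * b) = a⁻¹ * b := by group
  rw [this]; exact hab

lemma typ_finite (S : Set Γ) (hS : S.Finite) (k : ℕ) : (typ S k).Finite := by
  induction k with
  | zero =>
    refine (Set.finite_singleton [(1 : Γ)]).subset ?_
    rintro σ ⟨h1, h2, -⟩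
    rcases σ with _ | ⟨g, _ | ⟨g', τ⟩⟩
    · simp at h1
    · simp only [List.head?_cons, Option.some.injEq] at h2
      simp [h2]
    · simp at h1
  | succ k ih =>
    refine (hS.biUnion (fun s _ => ih.image (fun ρ => 1 :: ρ.map (fun x => s * x)))).subset ?_
    rintro σ ⟨h1, h2, h3⟩
    rcases σ with _ | ⟨g, _ | ⟨g', τ⟩⟩
    · simp at h1
    · simp at h1
    · simp only [List.head?_cons, Option.some.injEq] at h2
      subst h2
      have hg' : g' ∈ S := by
        unfold Chn at h3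
        cases h3 with
        | cons_cons h _ => simpa using h
      rw [Set.mem_iUnion₂]
      refine ⟨g', hg', (g' :: τ).map (fun x => g'⁻¹ * x), ⟨?_, ?_, ?_⟩, ?_⟩
      · simp only [List.length_cons, List.length_map] at h1 ⊢; omega
      · simp
      · apply chn_map
        unfold Chn at h3 ⊢
        exact h3.tail
      · simp only [List.map_cons, List.map_map, inv_mul_cancel, mul_one]
        congr 2
        conv_rhs => rw [← List.map_id τ]
        apply List.map_congr_left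
        intro x _
        simp

lemma exists_typ (S : Set Γ) (k : ℕ) (σ : List Γ) (h1 : σ.length = k + 1) (h2 : Chn S σ) :
    ∃ g : Γ, ∃ τ ∈ typ S k, σ = τ.map (fun x => g * x) := by
  rcases σ with _ | ⟨g, τ⟩
  · simp at h1
  · refine ⟨g, (g :: τ).map (fun x => g⁻¹ * x), ⟨by simpa using h1, by simp, chn_map _ _ _ h2⟩, ?_⟩
    rw [List.map_map]
    conv_lhs => rw [← List.map_id (g :: τ)]
    apply List.map_congr_left
    intro x _
    simp

end Types

/-- twice the signed area of a triangle -/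
def area2 (u v w : ℝ × ℝ) : ℝ := (v.1 - u.1) * (w.2 - u.2) - (w.1 - u.1) * (v.2 - u.2)

section Abstract

variable {Γ : Type} [Group Γ]

/-- The data for the lower bound. -/
structure LBData (Γ : Type) [Group Γ] (m : ℕ) where
  /-- maps to the plane -/
  Psi : Fin m → Γ → ℝ × ℝ
  /-- they do not increase areas too much -/
  harea : ∀ T : Set Γ, T.Finite → ∃ C : ℝ, ∀ j g, ∀ s ∈ T, ∀ t ∈ T,
    |area2 (Psi j g) (Psi j (g * s)) (Psi j (g * t))| ≤ C
  /-- commuting subgroups -/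
  K : Fin m → Subgroup Γ
  hcomm : ∀ i j, i ≠ j → ∀ a ∈ K i, ∀ b ∈ K j, a * b = b * a
  hinv : ∀ j, ∀ g ∈ (⨆ i, K i), ∀ i, i ≠ j → ∀ a ∈ K i, Psi j (g * a) = Psi j g
  /-- closed paths -/
  path : ℕ → Fin m → List Γ
  S : Set Γ
  hS : S.Finite
  path_S : ∀ n j, ∀ s ∈ path n j, s ∈ S
  path_K : ∀ n j, ∀ s ∈ path n j, s ∈ K j
  path_closed : ∀ n j, (path n j).prod = 1
  A : ℕ
  path_len : ∀ n j, (path n j).length ≤ A * (n + 1)
  /-- the region enclosed by the image of the paths -/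
  R : ℕ → Set (ℝ × ℝ)
  c0 : ℝ
  hc0 : 0 < c0
  hR : ∀ n, ENNReal.ofReal (c0 * 4 ^ n) ≤ volume (R n)
  hwind : ∀ n, ∀ p ∈ R n, ∀ j, psum (fun x y => th p (Psi j x) (Psi j y)) 1 (path n j) = 1

namespace LBData

variable {m : ℕ} (D : LBData Γ m)

lemma pverts_mem (n : ℕ) (j : Fin m) (a : Γ) (ha : a ∈ pverts 1 (D.path n j)) : a ∈ D.K j := by
  obtain ⟨k, rfl⟩ := ha
  rw [one_mul]
  exact Subgroup.list_prod_mem _ (fun s hs => D.path_K n j s (List.mem_of_mem_take hs))

lemma tverts_prop (n : ℕ) (js : List (Fin m)) (x : Γ) (hx : x ∈ tverts (js.map (D.path n))) :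
    x ∈ (⨆ i, D.K i) ∧ (∀ j, j ∉ js → (∀ a ∈ D.K j, x * a = a * x) ∧
      ∀ g ∈ (⨆ i, D.K i), D.Psi j (g * x) = D.Psi j g) := by
  induction js generalizing x with
  | nil =>
    simp only [List.map_nil, tverts, Set.mem_singleton_iff] at hx
    subst hx
    refine ⟨Subgroup.one_mem _, fun j _ => ⟨by simp, by simp⟩⟩
  | cons i js ih =>
    obtain ⟨y, hy, a, ha, rfl⟩ := hx
    have ha' := D.pverts_mem n i a ha
    obtain ⟨h1, h2⟩ := ih y hy
    have ha'' : a ∈ (⨆ i, D.K i) := (le_iSup D.K i) ha'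
    refine ⟨Subgroup.mul_mem _ h1 ha'', fun j hj => ?_⟩
    simp only [List.mem_cons, not_or] at hj
    obtain ⟨h3, h4⟩ := h2 j hj.2
    refine ⟨fun b hb => ?_, fun g hg => ?_⟩
    · rw [mul_assoc, D.hcomm i j (fun h => hj.1 h.symm) a ha' b hb, ← mul_assoc, h3 b hb, mul_assoc]
    · rw [← mul_assoc, D.hinv j _ (Subgroup.mul_mem _ hg h1) i (fun h => hj.1 h.symm) a ha', h4 g hg]

/-- the winding cochains -/
noncomputable def tht (p : Fin m → ℝ × ℝ) (j : Fin m) : Γ → Γ → ℤ :=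
  fun x y => th (p j) (D.Psi j x) (D.Psi j y)

lemma compat (n : ℕ) (p : Fin m → ℝ × ℝ) (js : List (Fin m)) (hjs : js.Nodup) :
    Compat (js.map (fun j => (D.tht p j, D.path n j))) := by
  induction js with
  | nil => simp [Compat]
  | cons j js ih =>
    rw [List.nodup_cons] at hjs
    rw [List.map_cons, Compat]
    have e : (js.map (fun j => (D.tht p j, D.path n j))).map Prod.snd = js.map (D.path n) := by
      rw [List.map_map]; rfl
    rw [e]
    have key : ∀ x ∈ tverts (js.map (D.path n)), ∀ a ∈ pverts 1 (D.path n j),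
        D.Psi j (x * a) = D.Psi j a := by
      intro x hx a ha
      obtain ⟨-, h2⟩ := D.tverts_prop n js x hx
      obtain ⟨h3, h4⟩ := h2 j hjs.1
      have ha' := D.pverts_mem n j a ha
      rw [h3 a ha', h4 a ((le_iSup D.K j) ha')]
    refine ⟨?_, ?_, ?_, ih hjs.2⟩
    · intro x hx a ha b hb
      simp only [tht]
      rw [key x hx a ha, key x hx b hb]
    · intro x hx y hy a ha
      simp only [tht]
      rw [key x hx a ha, key y hy a ha, th_self]
    · intro q hq x hx y hy a ha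
      obtain ⟨i, hi, rfl⟩ := List.mem_map.1 hq
      have hij : j ≠ i := fun h => hjs.1 (h ▸ hi)
      have ha' := D.pverts_mem n j a ha
      simp only [tht]
      rw [D.hinv i x (D.tverts_prop n js x hx).1 j hij a ha',
        D.hinv i y (D.tverts_prop n js y hy).1 j hij a ha']

lemma blockComm (n : ℕ) (js : List (Fin m)) (hjs : js.Nodup) :
    BlockComm (js.map (D.path n)) := by
  induction js with
  | nil => simp [BlockComm]
  | cons j js ih =>
    rw [List.nodup_cons] at hjs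
    rw [List.map_cons, BlockComm]
    refine ⟨?_, ih hjs.2⟩
    intro s hs M hM t ht
    obtain ⟨i, hi, rfl⟩ := List.mem_map.1 hM
    exact D.hcomm j i (fun h => hjs.1 (h ▸ hi)) s (D.path_K n j s hs) t (D.path_K n i t ht)

/-- the torus cycle -/
noncomputable def E (n : ℕ) : LC Γ := torus ((List.finRange m).map (D.path n))

lemma E_supp (n : ℕ) (σ : List Γ) (hσ : σ ∈ (D.E n).support) :
    σ.length = m + 1 ∧ Chn D.S σ := by
  obtain ⟨h1, h2, -⟩ := supp_torus _ (D.blockComm n _ (List.nodup_finRange m)) σ hσ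
  refine ⟨by simpa using h1, ?_⟩
  unfold Chn at h2 ⊢
  refine List.IsChain.imp ?_ h2
  rintro a b ⟨M, hM, ht⟩
  obtain ⟨i, -, rfl⟩ := List.mem_map.1 hM
  exact D.path_S n i _ ht

lemma E_gr (n : ℕ) : D.E n ∈ gr (Γ := Γ) (m + 1) := by
  rw [gr, Finsupp.mem_supported]
  intro σ hσ
  exact (D.E_supp n σ hσ).1

lemma E_type (n : ℕ) : OfType (typ D.S m) (D.E n) := by
  intro σ hσ
  obtain ⟨h1, h2⟩ := D.E_supp n σ hσ
  exact exists_typ D.S m σ h1 h2

lemma E_bd (n : ℕ) (hm : 1 ≤ m) : bdL (D.E n) = 0 := by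
  refine (bdL_torus _ ?_).2 ?_
  · intro L hL
    obtain ⟨i, -, rfl⟩ := List.mem_map.1 hL
    exact D.path_closed n i
  · intro h
    have := congrArg List.length h
    simp at this
    omega

lemma E_mass (n : ℕ) : mass (D.E n) ≤ (D.A * (m + 1)) ^ m * (n + 1) ^ m := by
  have h := mass_torus_le _ (D.blockComm n _ (List.nodup_finRange m)) (D.A * (n + 1)) (by
    intro L hL
    obtain ⟨i, -, rfl⟩ := List.mem_map.1 hL
    exact D.path_len n i)
  simp only [List.length_map, List.length_finRange] at h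
  refine h.trans (le_of_eq ?_)
  rw [← mul_pow]
  congr 1
  ring

lemma E_eval (n : ℕ) (p : Fin m → ℝ × ℝ) (hp : ∀ j, p j ∈ D.R n) :
    cupL ((List.finRange m).map (D.tht p)) (D.E n) = 1 := by
  have h := cupL_torus ((List.finRange m).map (fun j => (D.tht p j, D.path n j)))
    (D.compat n p _ (List.nodup_finRange m)) (by
      rw [List.map_map]
      exact D.blockComm n _ (List.nodup_finRange m))
  rw [List.map_map, List.map_map, List.map_map] at h
  have e1 : (Prod.fst ∘ fun j => (D.tht p j, D.path n j)) = D.tht p := rfl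
  have e2 : (Prod.snd ∘ fun j => (D.tht p j, D.path n j)) = D.path n := rfl
  rw [e1, e2] at h
  rw [E, h]
  apply List.prod_eq_one
  intro x hx
  obtain ⟨j, -, rfl⟩ := List.mem_map.1 hx
  exact D.hwind n (p j) (hp j) j

/-- A chain in the bar complex with boundary the torus cycle has large support. -/
lemma cover (n : ℕ) (c : LC Γ) (hc : bdL c = D.E n) :
    ∃ j, D.R n ⊆ ⋃ σ ∈ c.support, ⋃ x ∈ {q : Γ × Γ × Γ | q.1 ∈ σ ∧ q.2.1 ∈ σ ∧ q.2.2 ∈ σ},
      tri (D.Psi j x.1) (D.Psi j x.2.1) (D.Psi j x.2.2) := by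
  by_contra hcon
  push Not at hcon
  have h1 : ∀ j, ∃ p ∈ D.R n, p ∉ ⋃ σ ∈ c.support,
      ⋃ x ∈ {q : Γ × Γ × Γ | q.1 ∈ σ ∧ q.2.1 ∈ σ ∧ q.2.2 ∈ σ},
      tri (D.Psi j x.1) (D.Psi j x.2.1) (D.Psi j x.2.2) := fun j => Set.not_subset.1 (hcon j)
  choose p hp hp' using h1
  have h2 := D.E_eval n p hp
  rw [← hc] at h2
  have h3 : cupL ((List.finRange m).map (D.tht p)) (bdL c) = 0 := by
    rw [bdL, Finsupp.linearCombination_apply, Finsupp.sum, map_sum]
    refine Finset.sum_eq_zero (fun σ hσ => ?_)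
    rw [map_smul]
    have : cupL ((List.finRange m).map (D.tht p)) (bdl σ) = 0 := by
      by_contra hne
      obtain ⟨θ, hθ, g, hg, g', hg', g'', hg'', h⟩ := (bad_of_cup_ne _ _ hne).exists
      obtain ⟨j, -, rfl⟩ := List.mem_map.1 hθ
      have hmem := mem_tri_of_th (p j) (D.Psi j g) (D.Psi j g') (D.Psi j g'') h
      apply hp' j
      simp only [Set.mem_iUnion]
      exact ⟨σ, hσ, (g, g', g''), ⟨hg, hg', hg''⟩, hmem⟩
    rw [this, smul_zero]
  rw [h3] at h2
  exact absurd h2 (by norm_num)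

/-- lower bound for the mass of a filling of the torus cycle in the bar complex -/
lemma fill_mass (𝒯 : Set (List Γ)) (hfin : 𝒯.Finite) :
    ∃ C : ℕ, ∀ n, ∀ c : LC Γ, bdL c = D.E n → OfType 𝒯 c → 4 ^ n ≤ C * mass c := by
  classical
  -- the finite set of ratios
  set T : Set Γ := ⋃ τ ∈ 𝒯, {t | ∃ x ∈ τ, ∃ y ∈ τ, t = x⁻¹ * y} with hT
  have hTfin : T.Finite := by
    refine hfin.biUnion (fun τ _ => ?_)
    refine ((τ.toFinset.finite_toSet.prod τ.toFinset.finite_toSet).image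
      (fun q : Γ × Γ => q.1⁻¹ * q.2)).subset ?_
    rintro t ⟨x, hx, y, hy, rfl⟩
    exact ⟨(x, y), ⟨by simpa using hx, by simpa using hy⟩, rfl⟩
  obtain ⟨C1, hC1⟩ := D.harea T hTfin
  -- bound of the lengths
  set N : ℕ := ∑ τ ∈ hfin.toFinset, τ.length with hN
  have hlen : ∀ σ : List Γ, (∃ g : Γ, ∃ τ ∈ 𝒯, σ = τ.map (fun x => g * x)) → σ.length ≤ N := by
    rintro σ ⟨g, τ, hτ, rfl⟩
    rw [List.length_map]
    exact Finset.single_le_sum (f := fun τ : List Γ => τ.length) (fun _ _ => Nat.zero_le _)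
      (hfin.mem_toFinset.2 hτ)
  set C2 : ℝ := max C1 0 with hC2
  have hC20 : 0 ≤ C2 := le_max_right _ _
  obtain ⟨C, hC⟩ := exists_nat_ge ((N : ℝ) ^ 3 * C2 / D.c0)
  refine ⟨C, fun n c hc hct => ?_⟩
  obtain ⟨j, hj⟩ := D.cover n c hc
  have hvol : volume (D.R n) ≤ ENNReal.ofReal (mass c * (N ^ 3 * C2)) := by
    -- finite union
    have hsub : D.R n ⊆ ⋃ σ ∈ c.support, ⋃ x ∈ (σ.toFinset ×ˢ (σ.toFinset ×ˢ σ.toFinset)),
        tri (D.Psi j x.1) (D.Psi j x.2.1) (D.Psi j x.2.2) := by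
      refine hj.trans ?_
      intro q hq
      simp only [Set.mem_iUnion] at hq ⊢
      obtain ⟨σ, hσ, x, ⟨h1, h2, h3⟩, hx⟩ := hq
      exact ⟨σ, hσ, x, by simp [h1, h2, h3], hx⟩
    refine (measure_mono hsub).trans ?_
    refine (measure_biUnion_finset_le _ _).trans ?_
    have hσb : ∀ σ ∈ c.support, volume (⋃ x ∈ (σ.toFinset ×ˢ (σ.toFinset ×ˢ σ.toFinset)),
        tri (D.Psi j x.1) (D.Psi j x.2.1) (D.Psi j x.2.2)) ≤ ENNReal.ofReal (N ^ 3 * C2) := by
      intro σ hσ
      refine (measure_biUnion_finset_le _ _).trans ?_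
      have hx : ∀ x ∈ (σ.toFinset ×ˢ (σ.toFinset ×ˢ σ.toFinset)),
          volume (tri (D.Psi j x.1) (D.Psi j x.2.1) (D.Psi j x.2.2)) ≤ ENNReal.ofReal C2 := by
        rintro ⟨x, y, w⟩ hxyw
        simp only [Finset.mem_product, List.mem_toFinset] at hxyw
        obtain ⟨hx, hy, hw⟩ := hxyw
        refine (volume_tri_le _ _ _).trans (ENNReal.ofReal_le_ofReal ?_)
        obtain ⟨g, τ, hτ, rfl⟩ := hct σ hσ
        rw [List.mem_map] at hx hy hw
        obtain ⟨x', hx', rfl⟩ := hx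
        obtain ⟨y', hy', rfl⟩ := hy
        obtain ⟨w', hw', rfl⟩ := hw
        have h := hC1 j (g * x') (x'⁻¹ * y')
          (Set.mem_biUnion hτ ⟨x', hx', y', hy', rfl⟩) (x'⁻¹ * w')
          (Set.mem_biUnion hτ ⟨x', hx', w', hw', rfl⟩)
        have e1 : g * x' * (x'⁻¹ * y') = g * y' := by group
        have e2 : g * x' * (x'⁻¹ * w') = g * w' := by group
        rw [e1, e2] at h
        exact h.trans (le_max_left _ _)
      refine (Finset.sum_le_sum hx).trans ?_
      rw [Finset.sum_const, nsmul_eq_mul]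
      have hcard : (σ.toFinset ×ˢ (σ.toFinset ×ˢ σ.toFinset)).card ≤ N ^ 3 := by
        rw [Finset.card_product, Finset.card_product]
        have h1 : σ.toFinset.card ≤ N := (List.toFinset_card_le σ).trans (hlen σ (hct σ hσ))
        calc σ.toFinset.card * (σ.toFinset.card * σ.toFinset.card) ≤ N * (N * N) :=
              Nat.mul_le_mul h1 (Nat.mul_le_mul h1 h1)
          _ = N ^ 3 := by ring
      rw [ENNReal.ofReal_mul (by positivity)]
      refine mul_le_mul_left ?_ _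
      rw [← Nat.cast_pow, ENNReal.ofReal_natCast]
      exact_mod_cast hcard
    refine (Finset.sum_le_sum hσb).trans ?_
    rw [Finset.sum_const, nsmul_eq_mul]
    have hsc : c.support.card ≤ mass c := by
      unfold mass Finsupp.sum
      rw [Finset.card_eq_sum_ones]
      refine Finset.sum_le_sum (fun σ hσ => ?_)
      exact Int.natAbs_pos.2 (Finsupp.mem_support_iff.1 hσ)
    rw [ENNReal.ofReal_mul (p := (mass c : ℝ)) (by positivity)]
    refine mul_le_mul_left ?_ _
    rw [ENNReal.ofReal_natCast]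
    exact_mod_cast hsc
  have h1 := (D.hR n).trans hvol
  rw [ENNReal.ofReal_le_ofReal_iff (by positivity)] at h1
  have h2 : (4 : ℝ) ^ n ≤ mass c * ((N : ℝ) ^ 3 * C2 / D.c0) := by
    rw [mul_div_assoc', le_div_iff₀ D.hc0]
    linarith
  have h3 : (4 : ℝ) ^ n ≤ C * mass c := by
    refine h2.trans ?_
    rw [mul_comm]
    exact mul_le_mul_of_nonneg_right hC (by positivity)
  exact_mod_cast h3

end LBData

/-- The abstract lower bound. -/
theorem abstract_bound (m : ℕ) (hm : 1 ≤ m) (D : LBData Γ m) (K : GComplex Γ)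
    (s : Finset (K.cell (m + 1))) (hs : ∀ x : K.cell (m + 1), ∃ g : Γ, ∃ y ∈ s, g • y = x) :
    ∃ C : ℕ, ∀ n : ℕ, ∃ z : K.cell m →₀ ℤ, (∃ b, K.bd m b = z) ∧ mass z ≤ C * (n + 1) ^ m ∧
      ∀ c, K.bd m c = z → 4 ^ n ≤ C * (mass c + (n + 1) ^ m) := by
  obtain ⟨𝒯', hfin', M, hM⟩ := fill_bar K m hm s hs (typ D.S m) (typ_finite D.S D.hS m)
  obtain ⟨C1, hC1⟩ := D.fill_mass 𝒯' hfin'
  set B := (D.A * (m + 1)) ^ m with hB
  refine ⟨M * B + C1 * M * (B + 1), fun n => ?_⟩
  obtain ⟨z, hz1, hz2, hz3⟩ := hM (D.E n) (D.E_gr n) (D.E_bd n hm) (D.E_type n)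
  have hmass := D.E_mass n
  rw [← hB] at hmass
  refine ⟨z, hz1, ?_, ?_⟩
  · calc mass z ≤ M * mass (D.E n) := hz2
      _ ≤ M * (B * (n + 1) ^ m) := Nat.mul_le_mul_left _ hmass
      _ = M * B * (n + 1) ^ m := by ring
      _ ≤ (M * B + C1 * M * (B + 1)) * (n + 1) ^ m := Nat.mul_le_mul_right _ (by omega)
  · intro c hc
    obtain ⟨c', h1, h2, h3⟩ := hz3 c hc
    calc 4 ^ n ≤ C1 * mass c' := hC1 n c' h1 h2
      _ ≤ C1 * (M * (mass c + mass (D.E n))) := Nat.mul_le_mul_left _ h3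
      _ ≤ C1 * (M * (mass c + B * (n + 1) ^ m)) := by gcongr
      _ ≤ C1 * (M * ((B + 1) * (mass c + (n + 1) ^ m))) := by
          gcongr
          have e : (B + 1) * (mass c + (n + 1) ^ m) =
              mass c + B * (n + 1) ^ m + (B * mass c + (n + 1) ^ m) := by ring
          rw [e]
          exact Nat.le_add_right _ _
      _ = C1 * M * (B + 1) * (mass c + (n + 1) ^ m) := by ring
      _ ≤ (M * B + C1 * M * (B + 1)) * (mass c + (n + 1) ^ m) :=
          Nat.mul_le_mul_right _ (by omega)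

end Abstract

end Pool.Agent.H.MP_e5d137_al
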