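import Mathlib

/-!
# Path integrals in the Cayley tree of a free group
-/

namespace Pool.Agent.H.MP_e5d137_al

section FreePath

variable {X : Type}

/-- one step of the path integral -/
def stepPerm (φ : FreeGroup X → X → ℤ) (x : X) : Equiv.Perm (FreeGroup X × ℤ) where
  toFun p := (p.1 * FreeGroup.of x, p.2 + φ p.1 x)
  invFun p := (p.1 * (FreeGroup.of x)⁻¹, p.2 - φ (p.1 * (FreeGroup.of x)⁻¹) x)
  left_inv p := by ext <;> simp
  right_inv p := by ext <;> simp

def pathHom (φ : FreeGroup X → X → ℤ) : FreeGroup X →* (Equiv.Perm (FreeGroup X × ℤ))ᵐᵒᵖ :=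
  FreeGroup.lift (fun x => MulOpposite.op (stepPerm φ x))

/-- `J φ u w`: the integral of the edge function `φ` along the path from `u` to `u * w`;
the edge `(v, x)` goes from `v` to `v * x`. -/
def J (φ : FreeGroup X → X → ℤ) (u w : FreeGroup X) : ℤ := ((pathHom φ w).unop (u, 0)).2

lemma pathHom_mul (φ : FreeGroup X → X → ℤ) (v w : FreeGroup X) (p : FreeGroup X × ℤ) :
    (pathHom φ (v * w)).unop p = (pathHom φ w).unop ((pathHom φ v).unop p) := by
  rw [map_mul]
  rfl

lemma pathHom_of (φ : FreeGroup X → X → ℤ) (x : X) (p : FreeGroup X × ℤ) :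
    (pathHom φ (FreeGroup.of x)).unop p = (p.1 * FreeGroup.of x, p.2 + φ p.1 x) := by
  rw [pathHom, FreeGroup.lift_apply_of]
  rfl

lemma pathHom_inv_of (φ : FreeGroup X → X → ℤ) (x : X) (p : FreeGroup X × ℤ) :
    (pathHom φ (FreeGroup.of x)⁻¹).unop p =
      (p.1 * (FreeGroup.of x)⁻¹, p.2 - φ (p.1 * (FreeGroup.of x)⁻¹) x) := by
  rw [map_inv, pathHom, FreeGroup.lift_apply_of]
  rfl

lemma pathHom_apply (φ : FreeGroup X → X → ℤ) (w : FreeGroup X) :
    ∀ (u : FreeGroup X) (c : ℤ), (pathHom φ w).unop (u, c) = (u * w, c + J φ u w) := by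
  induction w using FreeGroup.induction_on with
  | C1 => intro u c; simp [J]
  | of x =>
    intro u c
    simp only [J, pathHom_of, zero_add]
  | inv_of x _ =>
    intro u c
    simp only [J, pathHom_inv_of, zero_sub]
    rw [sub_eq_add_neg]
  | mul v w hv hw =>
    intro u c
    have e : J φ u (v * w) = J φ u v + J φ (u * v) w := by
      have h2 : J φ u (v * w) = ((pathHom φ (v * w)).unop (u, 0)).2 := rfl
      rw [h2, pathHom_mul, hv, hw, zero_add]
    rw [pathHom_mul, hv, hw, e, mul_assoc, add_assoc]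

lemma J_mul (φ : FreeGroup X → X → ℤ) (u v w : FreeGroup X) :
    J φ u (v * w) = J φ u v + J φ (u * v) w := by
  have h2 : J φ u (v * w) = ((pathHom φ (v * w)).unop (u, 0)).2 := rfl
  rw [h2, pathHom_mul, pathHom_apply, pathHom_apply]
  simp

@[simp] lemma J_one (φ : FreeGroup X → X → ℤ) (u : FreeGroup X) : J φ u 1 = 0 := by
  simp [J]

@[simp] lemma J_of (φ : FreeGroup X → X → ℤ) (u : FreeGroup X) (x : X) :
    J φ u (FreeGroup.of x) = φ u x := by
  simp only [J, pathHom_of, zero_add]

lemma J_inv (φ : FreeGroup X → X → ℤ) (u w : FreeGroup X) :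
    J φ u w⁻¹ = - J φ (u * w⁻¹) w := by
  have h := J_mul φ u w⁻¹ w
  rw [inv_mul_cancel, J_one] at h
  linarith

/-- the free derivative of `w` as a list -/
lemma exists_fox (w : FreeGroup X) :
    ∃ l : List (ℤ × FreeGroup X × X), (∀ t ∈ l, |t.1| ≤ 1) ∧
      ∀ (φ : FreeGroup X → X → ℤ) (u : FreeGroup X),
        J φ u w = (l.map (fun t => t.1 * φ (u * t.2.1) t.2.2)).sum := by
  induction w using FreeGroup.induction_on with
  | C1 => exact ⟨[], by simp, by simp⟩
  | of x => exact ⟨[(1, 1, x)], by simp, by simp⟩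
  | inv_of x _ => exact ⟨[(-1, (FreeGroup.of x)⁻¹, x)], by simp, by simp [J_inv]⟩
  | mul v w hv hw =>
    obtain ⟨l1, h1, h1'⟩ := hv
    obtain ⟨l2, h2, h2'⟩ := hw
    refine ⟨l1 ++ l2.map (fun t => (t.1, v * t.2.1, t.2.2)), ?_, ?_⟩
    · intro t ht
      rcases List.mem_append.1 ht with ht | ht
      · exact h1 t ht
      · obtain ⟨t', ht', rfl⟩ := List.mem_map.1 ht
        exact h2 t' ht'
    · intro φ u
      rw [J_mul, h1', h2', List.map_append, List.sum_append, List.map_map]
      congr 2
      apply List.map_congr_left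
      intro t _
      simp [mul_assoc]

/-- invariance under a subgroup -/
lemma J_smul (φ : FreeGroup X → X → ℤ) (h : FreeGroup X) (hφ : ∀ u x, φ (h * u) x = φ u x)
    (u w : FreeGroup X) : J φ (h * u) w = J φ u w := by
  obtain ⟨l, -, hl⟩ := exists_fox w
  rw [hl, hl]
  congr 1
  apply List.map_congr_left
  intro t _
  rw [mul_assoc, hφ]

/-- the integral of a coboundary -/
lemma J_cobd (χ : FreeGroup X → ℤ) (u w : FreeGroup X) :
    J (fun v x => χ (v * FreeGroup.of x) - χ v) u w = χ (u * w) - χ u := by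
  induction w using FreeGroup.induction_on generalizing u with
  | C1 => simp
  | of x => simp
  | inv_of x _ => rw [J_inv, J_of]; simp
  | mul v w hv hw => rw [J_mul, hv, hw, mul_assoc]; ring

lemma J_zero (u w : FreeGroup X) : J (fun _ _ => 0) u w = 0 := by
  obtain ⟨l, -, hl⟩ := exists_fox w
  rw [hl]
  simp

lemma J_add (φ ψ : FreeGroup X → X → ℤ) (u w : FreeGroup X) :
    J (fun v x => φ v x + ψ v x) u w = J φ u w + J ψ u w := by
  induction w using FreeGroup.induction_on generalizing u with
  | C1 => simp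
  | of x => simp
  | inv_of x _ => rw [J_inv, J_of, J_inv, J_of, J_inv, J_of]; ring
  | mul v w hv hw => rw [J_mul, hv, hw, J_mul, J_mul]; ring

lemma J_const_mul (k : ℤ) (φ : FreeGroup X → X → ℤ) (u w : FreeGroup X) :
    J (fun v x => k * φ v x) u w = k * J φ u w := by
  induction w using FreeGroup.induction_on generalizing u with
  | C1 => simp
  | of x => simp
  | inv_of x _ => rw [J_inv, J_of, J_inv, J_of]; ring
  | mul v w hv hw => rw [J_mul, hv, hw, J_mul]; ring

/-- linearity -/
lemma J_sum {ι : Type} (s : List ι) (c : ι → ℤ) (φ : ι → FreeGroup X → X → ℤ)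
    (u w : FreeGroup X) :
    J (fun v x => (s.map (fun i => c i * φ i v x)).sum) u w =
      (s.map (fun i => c i * J (φ i) u w)).sum := by
  induction s with
  | nil => simp [J_zero]
  | cons a s ih =>
    simp only [List.map_cons, List.sum_cons]
    rw [J_add, ih, J_const_mul]

/-- change of the marking: path integrals of the image path -/
lemma J_aut (φ : FreeGroup X → X → ℤ) (f : FreeGroup X →* FreeGroup X) (u w : FreeGroup X) :
    J φ (f u) (f w) = J (fun v x => J φ (f v) (f (FreeGroup.of x))) u w := by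
  induction w using FreeGroup.induction_on generalizing u with
  | C1 => simp
  | of x => simp
  | inv_of x _ => rw [map_inv, J_inv, J_inv, J_of, map_mul, map_inv]
  | mul v w hv hw => rw [map_mul, J_mul, hv, ← map_mul, hw, J_mul]

end FreePath

end Pool.Agent.H.MP_e5d137_al
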