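import Mathlib
import Pool.Agent.H.MP_e5d137_al.FreePath

/-!
# Edge functionals of the core graph of a free factor of rank three
-/

namespace Pool.Agent.H.MP_e5d137_al

section Det3

/-- dot product -/
def dot (r w : Fin 3 → ℤ) : ℤ := r 0 * w 0 + r 1 * w 1 + r 2 * w 2

/-- determinant of three vectors -/
def det3 (x y z : Fin 3 → ℤ) : ℤ :=
  x 0 * (y 1 * z 2 - y 2 * z 1) - x 1 * (y 0 * z 2 - y 2 * z 0) + x 2 * (y 0 * z 1 - y 1 * z 0)

def cross (y z : Fin 3 → ℤ) : Fin 3 → ℤ :=
  ![y 1 * z 2 - y 2 * z 1, y 2 * z 0 - y 0 * z 2, y 0 * z 1 - y 1 * z 0]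

lemma dot_cross (x y z : Fin 3 → ℤ) : dot x (cross y z) = det3 x y z := by
  simp [dot, cross, det3]; ring

lemma det3_mul (a b c x y z : Fin 3 → ℤ) :
    det3 a b c * det3 x y z = dot a x * (dot b y * dot c z - dot b z * dot c y)
      - dot a y * (dot b x * dot c z - dot b z * dot c x)
      + dot a z * (dot b x * dot c y - dot b y * dot c x) := by
  unfold det3 dot
  ring

lemma det3_rot (x y z : Fin 3 → ℤ) : det3 x y z = det3 y z x := by unfold det3; ring

lemma det3_self (x z : Fin 3 → ℤ) : det3 x x z = 0 := by unfold det3; ring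

end Det3

section Factor

variable {X : Type}

/-- the standard free factor -/
def fac (Y : Fin 3 → X) : Subgroup (FreeGroup X) :=
  Subgroup.closure (Set.range (fun k => FreeGroup.of (Y k)))

lemma of_mem_fac (Y : Fin 3 → X) (k : Fin 3) : FreeGroup.of (Y k) ∈ fac Y :=
  Subgroup.subset_closure ⟨k, rfl⟩

/-- indicator function of the orbit of the edge `e` under `g⁻¹(A)` -/
noncomputable def bas (Y : Fin 3 → X) (g : MulAut (FreeGroup X)) (e : FreeGroup X × X) :
    FreeGroup X → X → ℤ :=
  open Classical in fun v x => if x = e.2 ∧ g (v * e.1⁻¹) ∈ fac Y then 1 else 0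

lemma bas_inv (Y : Fin 3 → X) (g : MulAut (FreeGroup X)) (e : FreeGroup X × X)
    (h : FreeGroup X) (hh : g h ∈ fac Y) (v : FreeGroup X) (x : X) :
    bas Y g e (h * v) x = bas Y g e v x := by
  have : g (h * v * e.1⁻¹) ∈ fac Y ↔ g (v * e.1⁻¹) ∈ fac Y := by
    rw [mul_assoc, map_mul]
    exact Subgroup.mul_mem_cancel_left _ hh
  have h2 : (x = e.2 ∧ g (h * v * e.1⁻¹) ∈ fac Y) ↔ (x = e.2 ∧ g (v * e.1⁻¹) ∈ fac Y) :=
    and_congr_right' this
  unfold bas
  by_cases hx : x = e.2 ∧ g (v * e.1⁻¹) ∈ fac Y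
  · rw [if_pos hx, if_pos (h2.2 hx)]
  · rw [if_neg hx, if_neg (fun h => hx (h2.1 h))]

/-- exponent sum -/
noncomputable def ex (x : X) (w : FreeGroup X) : ℤ :=
  open Classical in J (fun _ y => if y = x then 1 else 0) 1 w

lemma ex_mul (x : X) (v w : FreeGroup X) : ex x (v * w) = ex x v + ex x w := by
  classical
  unfold ex
  rw [J_mul, one_mul]
  congr 1
  have := J_smul (fun _ y => if y = x then (1:ℤ) else 0) v (fun _ _ => rfl) 1 w
  rw [mul_one] at this
  exact this

@[simp] lemma ex_one (x : X) : ex x (1 : FreeGroup X) = 0 := by simp [ex]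

lemma ex_inv (x : X) (w : FreeGroup X) : ex x w⁻¹ = - ex x w := by
  have := ex_mul x w⁻¹ w
  rw [inv_mul_cancel, ex_one] at this
  linarith

lemma ex_of (x y : X) [Decidable (y = x)] :
    ex x (FreeGroup.of y) = if y = x then 1 else 0 := by
  simp only [ex, J_of]
  split_ifs <;> rfl

/-- edge functionals in coordinates -/
noncomputable def cvec (Y : Fin 3 → X) (g : MulAut (FreeGroup X)) (e : FreeGroup X × X) :
    Fin 3 → ℤ := fun k => J (bas Y g e) 1 (g.symm (FreeGroup.of (Y k)))

/-- an invariant path integral on the factor is determined by its values on the basis -/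
lemma J_fac (Y : Fin 3 → X) (hY : Function.Injective Y) (g : MulAut (FreeGroup X))
    (φ : FreeGroup X → X → ℤ) (hφ : ∀ h, g h ∈ fac Y → ∀ v x, φ (h * v) x = φ v x)
    (a : FreeGroup X) (ha : a ∈ fac Y) :
    J φ 1 (g.symm a) = ∑ k, ex (Y k) a * J φ 1 (g.symm (FreeGroup.of (Y k))) := by
  classical
  have key : ∀ h w, g h ∈ fac Y → J φ h w = J φ 1 w := by
    intro h w hh
    have := J_smul φ h (hφ h hh) 1 w
    rwa [mul_one] at this
  unfold fac at ha
  induction ha using Subgroup.closure_induction with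
  | mem x hx =>
    obtain ⟨k, rfl⟩ := hx
    simp only [ex_of]
    rw [Finset.sum_eq_single k]
    · simp
    · intro j _ hj
      rw [if_neg (fun h => hj (hY h).symm)]
      simp
    · simp
  | one => simp
  | mul x y hx hy ihx ihy =>
    have hx' : g (g.symm x) ∈ fac Y := by rw [MulEquiv.apply_symm_apply]; exact hx
    rw [map_mul, J_mul, one_mul, key (g.symm x) (g.symm y) hx', ihx, ihy,
      ← Finset.sum_add_distrib]
    refine Finset.sum_congr rfl (fun k _ => ?_)
    rw [ex_mul]; ring
  | inv x hx ih =>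
    have hx' : g (g.symm x)⁻¹ ∈ fac Y := by
      rw [map_inv, MulEquiv.apply_symm_apply]; exact Subgroup.inv_mem _ hx
    rw [map_inv, J_inv, one_mul, key (g.symm x)⁻¹ (g.symm x) hx', ih, ← Finset.sum_neg_distrib]
    refine Finset.sum_congr rfl (fun k _ => ?_)
    rw [ex_inv]; ring

lemma J_bas_fac (Y : Fin 3 → X) (hY : Function.Injective Y) (g : MulAut (FreeGroup X))
    (e : FreeGroup X × X) (a : FreeGroup X) (ha : a ∈ fac Y) :
    J (bas Y g e) 1 (g.symm a) = dot (cvec Y g e) (fun k => ex (Y k) a) := by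
  rw [J_fac Y hY g (bas Y g e) (fun h hh v x => bas_inv Y g e h hh v x) a ha]
  simp only [Fin.sum_univ_three, dot, cvec]
  ring

/-- Unimodularity: the determinant of three edge functionals is `0` or `±1`. -/
lemma cvec_unimodular (Y : Fin 3 → X) (hY : Function.Injective Y) (g : MulAut (FreeGroup X))
    (e : Fin 3 → FreeGroup X × X)
    (hne : det3 (cvec Y g (e 0)) (cvec Y g (e 1)) (cvec Y g (e 2)) ≠ 0) :
    |det3 (cvec Y g (e 0)) (cvec Y g (e 1)) (cvec Y g (e 2))| = 1 := by
  classical
  -- distinct orbits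
  have hdist : ∀ j k, j ≠ k → ¬ ((e j).2 = (e k).2 ∧ g ((e j).1 * (e k).1⁻¹) ∈ fac Y) := by
    intro j k hjk ⟨h1, h2⟩
    have hb : bas Y g (e j) = bas Y g (e k) := by
      funext v x
      unfold bas
      have : g (v * (e j).1⁻¹) ∈ fac Y ↔ g (v * (e k).1⁻¹) ∈ fac Y := by
        have e1 : v * (e k).1⁻¹ = (v * (e j).1⁻¹) * ((e j).1 * (e k).1⁻¹) := by group
        rw [e1, map_mul g (v * (e j).1⁻¹)]
        exact (Subgroup.mul_mem_cancel_right _ h2).symm
      rw [h1]
      simp only [this]
    have hc : cvec Y g (e j) = cvec Y g (e k) := by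
      funext i; simp only [cvec, hb]
    apply hne
    fin_cases j <;> fin_cases k <;> simp only [Fin.zero_eta, Fin.mk_one, Fin.reduceFinMk] at hc hjk ⊢ <;>
      first
      | exact absurd rfl hjk
      | (rw [hc]; unfold det3; ring)
  -- invariance
  have key : ∀ k h w, g h ∈ fac Y → J (bas Y g (e k)) h w = J (bas Y g (e k)) 1 w := by
    intro k h w hh
    have := J_smul (bas Y g (e k)) h (fun v x => bas_inv Y g (e k) h hh v x) 1 w
    rwa [mul_one] at this
  -- dual elements
  have hdual : ∀ i, ∃ h, g h ∈ fac Y ∧ ∀ k, J (bas Y g (e k)) 1 h = if k = i then 1 else 0 := by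
    intro i
    set v0 := (e i).1 * FreeGroup.of (e i).2 with hv0
    set U : Set (FreeGroup X) := {v | ∃ h, g h ∈ fac Y ∧
      ∀ k, J (bas Y g (e k)) 1 (h * v) = J (bas Y g (e k)) 1 v0} with hU
    set χ : FreeGroup X → ℤ := fun v => if v ∈ U then 1 else 0 with hχ
    have hUinv : ∀ h, g h ∈ fac Y → ∀ v, (h * v ∈ U ↔ v ∈ U) := by
      intro h hh v
      constructor
      · rintro ⟨h', hh', hk⟩
        exact ⟨h' * h, by rw [map_mul]; exact Subgroup.mul_mem _ hh' hh, fun k => by
          rw [mul_assoc]; exact hk k⟩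
      · rintro ⟨h', hh', hk⟩
        refine ⟨h' * h⁻¹, ?_, fun k => ?_⟩
        · rw [map_mul, map_inv]
          exact Subgroup.mul_mem _ hh' (Subgroup.inv_mem _ hh)
        · rw [mul_assoc, inv_mul_cancel_left]; exact hk k
    have hχinv : ∀ h, g h ∈ fac Y → ∀ v, χ (h * v) = χ v := by
      intro h hh v
      simp only [hχ, hUinv h hh v]
    set d : Fin 3 → ℤ := fun k => χ ((e k).1 * FreeGroup.of (e k).2) - χ (e k).1 with hd
    -- the coboundary of χ
    have hcob : (fun v x => χ (v * FreeGroup.of x) - χ v) =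
        fun v x => ((List.finRange 3).map (fun k => d k * bas Y g (e k) v x)).sum := by
      funext v x
      by_cases hex : ∃ k, x = (e k).2 ∧ g (v * (e k).1⁻¹) ∈ fac Y
      · obtain ⟨k, hk1, hk2⟩ := hex
        have hother : ∀ j, j ≠ k → bas Y g (e j) v x = 0 := by
          intro j hj
          unfold bas
          rw [if_neg]
          rintro ⟨h1, h2⟩
          refine hdist j k hj ⟨h1 ▸ hk1, ?_⟩
          have e1 : (e j).1 * (e k).1⁻¹ = (v * (e j).1⁻¹)⁻¹ * (v * (e k).1⁻¹) := by group
          rw [e1, map_mul, map_inv]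
          exact Subgroup.mul_mem _ (Subgroup.inv_mem _ h2) hk2
        have hself : bas Y g (e k) v x = 1 := by
          unfold bas
          rw [if_pos ⟨hk1, hk2⟩]
        have hsum : ((List.finRange 3).map (fun k => d k * bas Y g (e k) v x)).sum =
            ∑ j, d j * bas Y g (e j) v x := by
          rw [Fin.sum_univ_def]
        rw [hsum, Finset.sum_eq_single k (fun j _ hj => by rw [hother j hj, mul_zero]) (by simp),
          hself, mul_one]
        simp only [hd]
        have e1 : v = (v * (e k).1⁻¹) * (e k).1 := by group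
        have e2 : v * FreeGroup.of x = (v * (e k).1⁻¹) * ((e k).1 * FreeGroup.of (e k).2) := by
          rw [hk1]; group
        rw [e2, hχinv _ hk2]
        conv_lhs => rw [e1, hχinv _ hk2]
      · push Not at hex
        have hz : ∀ k, bas Y g (e k) v x = 0 := by
          intro k
          unfold bas
          rw [if_neg]
          rintro ⟨h1, h2⟩
          exact hex k h1 h2
        have h1 : (v * FreeGroup.of x ∈ U) ↔ (v ∈ U) := by
          have hstep : ∀ h, g h ∈ fac Y → ∀ k, J (bas Y g (e k)) 1 (h * (v * FreeGroup.of x)) =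
              J (bas Y g (e k)) 1 (h * v) := by
            intro h hh k
            rw [← mul_assoc, J_mul, one_mul, J_of, bas_inv Y g (e k) h hh, hz k, add_zero]
          constructor
          · rintro ⟨h, hh, hk⟩
            exact ⟨h, hh, fun k => by rw [← hstep h hh k]; exact hk k⟩
          · rintro ⟨h, hh, hk⟩
            exact ⟨h, hh, fun k => by rw [hstep h hh k]; exact hk k⟩
        simp [hz, hχ, h1]
    -- the relation
    have hrel : ∀ k', ∑ k, d k * cvec Y g (e k) k' = 0 := by
      intro k'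
      have h1 := J_cobd χ 1 (g.symm (FreeGroup.of (Y k')))
      rw [hcob, J_sum] at h1
      have h2 : χ (1 * g.symm (FreeGroup.of (Y k'))) = χ 1 := by
        rw [one_mul]
        have := hχinv (g.symm (FreeGroup.of (Y k'))) (by simpa using of_mem_fac Y k') 1
        rwa [mul_one] at this
      rw [h2, sub_self] at h1
      rw [Fin.sum_univ_def]
      exact h1
    have hdi : d i = 0 := by
      have h0 := hrel 0
      have h1 := hrel 1
      have h2 := hrel 2
      simp only [Fin.sum_univ_three] at h0 h1 h2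
      set a := cvec Y g (e 0)
      set b := cvec Y g (e 1)
      set c := cvec Y g (e 2)
      have hd0 : d 0 * det3 a b c = 0 := by
        have : d 0 * det3 a b c = (d 0 * a 0 + d 1 * b 0 + d 2 * c 0) * (b 1 * c 2 - b 2 * c 1)
          - (d 0 * a 1 + d 1 * b 1 + d 2 * c 1) * (b 0 * c 2 - b 2 * c 0)
          + (d 0 * a 2 + d 1 * b 2 + d 2 * c 2) * (b 0 * c 1 - b 1 * c 0) := by
          unfold det3; ring
        rw [this, h0, h1, h2]; ring
      have hd1 : d 1 * det3 a b c = 0 := by
        have : d 1 * det3 a b c = (d 0 * a 0 + d 1 * b 0 + d 2 * c 0) * (c 1 * a 2 - c 2 * a 1)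
          - (d 0 * a 1 + d 1 * b 1 + d 2 * c 1) * (c 0 * a 2 - c 2 * a 0)
          + (d 0 * a 2 + d 1 * b 2 + d 2 * c 2) * (c 0 * a 1 - c 1 * a 0) := by
          unfold det3; ring
        rw [this, h0, h1, h2]; ring
      have hd2 : d 2 * det3 a b c = 0 := by
        have : d 2 * det3 a b c = (d 0 * a 0 + d 1 * b 0 + d 2 * c 0) * (a 1 * b 2 - a 2 * b 1)
          - (d 0 * a 1 + d 1 * b 1 + d 2 * c 1) * (a 0 * b 2 - a 2 * b 0)
          + (d 0 * a 2 + d 1 * b 2 + d 2 * c 2) * (a 0 * b 1 - a 1 * b 0) := by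
          unfold det3; ring
        rw [this, h0, h1, h2]; ring
      have hall : ∀ k, d k * det3 a b c = 0 := by
        intro k
        fin_cases k
        · exact hd0
        · exact hd1
        · exact hd2
      exact (mul_eq_zero.1 (hall i)).resolve_right hne
    have hv0U : v0 ∈ U := ⟨1, by rw [map_one]; exact Subgroup.one_mem _,
      fun k => by rw [one_mul]⟩
    have hui : (e i).1 ∈ U := by
      by_contra hcon
      have h1 : χ ((e i).1 * FreeGroup.of (e i).2) = 1 := by
        simp only [hχ]; rw [if_pos hv0U]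
      have h2 : χ (e i).1 = 0 := by simp only [hχ]; rw [if_neg hcon]
      have h3 : d i = 1 := by simp only [hd]; rw [h1, h2]; norm_num
      rw [hdi] at h3
      exact absurd h3 (by norm_num)
    obtain ⟨h, hh, hk⟩ := hui
    refine ⟨h, hh, fun k => ?_⟩
    have h1 := hk k
    rw [J_mul, one_mul, key k h _ hh, hv0, J_mul, one_mul, J_of] at h1
    have h2 : J (bas Y g (e k)) 1 h = bas Y g (e k) (e i).1 (e i).2 := by linarith
    rw [h2]
    by_cases hki : k = i
    · subst hki
      unfold bas
      rw [if_pos rfl, if_pos]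
      refine ⟨rfl, ?_⟩
      rw [mul_inv_cancel, map_one]
      exact Subgroup.one_mem _
    · unfold bas
      rw [if_neg hki, if_neg]
      intro hcon
      exact hdist i k (fun h => hki h.symm) hcon
  choose h hh hk using hdual
  have hW : ∀ k i, dot (cvec Y g (e k)) (fun j => ex (Y j) (g (h i))) = if k = i then 1 else 0 := by
    intro k i
    rw [← J_bas_fac Y hY g (e k) (g (h i)) (hh i)]
    have : g.symm (g (h i)) = h i := by simp
    rw [this]
    exact hk i k
  have hdet := det3_mul (cvec Y g (e 0)) (cvec Y g (e 1)) (cvec Y g (e 2))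
    (fun j => ex (Y j) (g (h 0))) (fun j => ex (Y j) (g (h 1))) (fun j => ex (Y j) (g (h 2)))
  simp only [hW] at hdet
  simp only [reduceIte, show ((0 : Fin 3) = 1) = False by simp, show ((0 : Fin 3) = 2) = False by simp,
    show ((1 : Fin 3) = 0) = False by simp, show ((1 : Fin 3) = 2) = False by simp,
    show ((2 : Fin 3) = 0) = False by simp, show ((2 : Fin 3) = 1) = False by simp] at hdet
  norm_num at hdet
  rcases Int.mul_eq_one_iff_eq_one_or_neg_one.1 hdet with ⟨h1, -⟩ | ⟨h1, -⟩
  · rw [h1]; rfl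
  · rw [h1]; rfl

end Factor

end Pool.Agent.H.MP_e5d137_al
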