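import Mathlib
import Pool.Agent.H.MP_e5d137_al.Factor

/-!
# Short cycles of the core graph, and their behaviour under a change of the marking
-/

namespace Pool.Agent.H.MP_e5d137_al

section Good

variable {X : Type}

lemma J_finset_sum {ι : Type} (s : Finset ι) (φ : ι → FreeGroup X → X → ℤ)
    (u w : FreeGroup X) :
    J (fun v x => ∑ i ∈ s, φ i v x) u w = ∑ i ∈ s, J (φ i) u w := by
  classical
  induction s using Finset.induction_on with
  | empty => simp [J_zero]
  | insert a s ha ih =>
    rw [Finset.sum_insert ha, ← ih, ← J_add]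
    congr 1
    funext v x
    rw [Finset.sum_insert ha]

/-- Change of the marking: the edge functionals of `g * s` are combinations with bounded
coefficients of the edge functionals of `g`. -/
lemma exists_comb [Fintype X] (Y : Fin 3 → X) (s : MulAut (FreeGroup X)) :
    ∃ l : X → List (ℤ × FreeGroup X × X), (∀ x, ∀ t ∈ l x, |t.1| ≤ 1) ∧
      ∀ (g : MulAut (FreeGroup X)) (e : FreeGroup X × X), ∃ f : X → (ℤ × FreeGroup X × X) → ℤ,
        ∃ e' : X → (ℤ × FreeGroup X × X) → FreeGroup X × X,
        (∀ x, ∀ t ∈ l x, |f x t| ≤ 1) ∧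
        cvec Y (g * s) e = fun k => ∑ x, ((l x).map (fun t => f x t * cvec Y g (e' x t) k)).sum := by
  classical
  choose l hl1 hl2 using (fun x : X => exists_fox (s.symm (FreeGroup.of x)))
  refine ⟨l, hl1, fun g e => ?_⟩
  refine ⟨fun x t => t.1 * (if t.2.2 = e.2 then 1 else 0),
    fun x t => ((s (t.2.1 * e.1⁻¹))⁻¹, x), ?_, ?_⟩
  · intro x t ht
    have := hl1 x t ht
    dsimp only
    split_ifs
    · simpa using this
    · simp
  · funext k
    have h1 : (g * s).symm (FreeGroup.of (Y k)) = s.symm (g.symm (FreeGroup.of (Y k))) := rfl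
    have h2 : cvec Y (g * s) e k =
        J (bas Y (g * s) e) (s.symm 1) (s.symm (g.symm (FreeGroup.of (Y k)))) := by
      rw [map_one]; rfl
    have h3 := J_aut (bas Y (g * s) e) (s.symm : FreeGroup X ≃* FreeGroup X).toMonoidHom 1
      (g.symm (FreeGroup.of (Y k)))
    have h4 : (fun (v : FreeGroup X) (x : X) =>
        J (bas Y (g * s) e) ((s.symm : FreeGroup X ≃* FreeGroup X).toMonoidHom v)
          ((s.symm : FreeGroup X ≃* FreeGroup X).toMonoidHom (FreeGroup.of x))) =
        fun v x => ∑ y, ((l y).map (fun t => (t.1 * (if t.2.2 = e.2 then 1 else 0)) *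
          bas Y g ((s (t.2.1 * e.1⁻¹))⁻¹, y) v x)).sum := by
      funext v x
      rw [Finset.sum_eq_single x]
      · have h5 : J (bas Y (g * s) e) ((s.symm : FreeGroup X ≃* FreeGroup X).toMonoidHom v)
          ((s.symm : FreeGroup X ≃* FreeGroup X).toMonoidHom (FreeGroup.of x)) =
            J (bas Y (g * s) e) (s.symm v) (s.symm (FreeGroup.of x)) := rfl
        rw [h5, hl2]
        congr 1
        apply List.map_congr_left
        intro t _
        have h6 : (g * s) (s.symm v * t.2.1 * e.1⁻¹) = g (v * (s (t.2.1 * e.1⁻¹))) := by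
          have : (g * s) (s.symm v * t.2.1 * e.1⁻¹) = g (s (s.symm v * (t.2.1 * e.1⁻¹))) := by
            rw [mul_assoc]; rfl
          rw [this, map_mul s, MulEquiv.apply_symm_apply]
        have h7 : bas Y (g * s) e (s.symm v * t.2.1) t.2.2 =
            (if t.2.2 = e.2 then 1 else 0) * bas Y g ((s (t.2.1 * e.1⁻¹))⁻¹, x) v x := by
          unfold bas
          rw [h6]
          simp only [inv_inv, true_and]
          by_cases ha : t.2.2 = e.2 <;> by_cases hb : g (v * s (t.2.1 * e.1⁻¹)) ∈ fac Y <;>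
            simp [ha, hb]
        rw [h7]
        ring
      · intro y _ hyx
        apply List.sum_eq_zero
        intro z hz
        obtain ⟨t, _, rfl⟩ := List.mem_map.1 hz
        have : bas Y g ((s (t.2.1 * e.1⁻¹))⁻¹, y) v x = 0 := by
          unfold bas
          rw [if_neg]
          rintro ⟨h, -⟩
          exact hyx h.symm
        rw [this, mul_zero]
      · simp
    rw [h2]
    have h8 : J (bas Y (g * s) e) (s.symm 1) (s.symm (g.symm (FreeGroup.of (Y k)))) =
      J (bas Y (g * s) e) ((s.symm : FreeGroup X ≃* FreeGroup X).toMonoidHom 1)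
        ((s.symm : FreeGroup X ≃* FreeGroup X).toMonoidHom (g.symm (FreeGroup.of (Y k)))) := rfl
    rw [h8, h3, h4, J_finset_sum]
    refine Finset.sum_congr rfl (fun y _ => ?_)
    rw [J_sum]
    rfl

/-- a short cycle with nonzero last coordinate -/
def GoodV (Y : Fin 3 → X) (g : MulAut (FreeGroup X)) (w : Fin 3 → ℤ) : Prop :=
  (∀ e, |dot (cvec Y g e) w| ≤ 1) ∧ w 2 ≠ 0

lemma list_sum_abs_le {α : Type} (l : List α) (f : α → ℤ) (b : ℤ) (h : ∀ t ∈ l, |f t| ≤ b) :
    |(l.map f).sum| ≤ l.length * b := by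
  induction l with
  | nil => simp
  | cons a l ih =>
    rw [List.map_cons, List.sum_cons, List.length_cons]
    have h1 := abs_add_le (f a) (l.map f).sum
    have h2 := h a (by simp)
    have h3 := ih (fun t ht => h t (by simp [ht]))
    push_cast
    linarith

/-- the bounding constant -/
lemma exists_bound [Fintype X] (Y : Fin 3 → X) (s : MulAut (FreeGroup X)) :
    ∃ B : ℤ, 0 ≤ B ∧ ∀ (g : MulAut (FreeGroup X)) (w : Fin 3 → ℤ),
      (∀ e, |dot (cvec Y g e) w| ≤ 1) → ∀ e, |dot (cvec Y (g * s) e) w| ≤ B := by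
  classical
  obtain ⟨l, hl1, hl2⟩ := exists_comb Y s
  refine ⟨∑ x, ((l x).length : ℤ), Finset.sum_nonneg (fun _ _ => by positivity), ?_⟩
  intro g w hw e
  obtain ⟨f, e', hf, he'⟩ := hl2 g e
  have h1 : dot (cvec Y (g * s) e) w =
      ∑ x, ((l x).map (fun t => f x t * dot (cvec Y g (e' x t)) w)).sum := by
    rw [he']
    unfold dot
    rw [Finset.sum_mul, Finset.sum_mul, Finset.sum_mul, ← Finset.sum_add_distrib,
      ← Finset.sum_add_distrib]
    refine Finset.sum_congr rfl (fun x _ => ?_)
    induction l x with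
    | nil => simp
    | cons a l ih =>
      simp only [List.map_cons, List.sum_cons]
      rw [← ih]
      ring
  rw [h1]
  refine (Finset.abs_sum_le_sum_abs _ _).trans (Finset.sum_le_sum (fun x _ => ?_))
  have h2 := list_sum_abs_le (l x) (fun t => f x t * dot (cvec Y g (e' x t)) w) 1 (by
    intro t ht
    rw [abs_mul]
    have h3 := hf x t ht
    have h4 := hw (e' x t)
    calc |f x t| * |dot (cvec Y g (e' x t)) w| ≤ 1 * 1 :=
        mul_le_mul h3 h4 (abs_nonneg _) (by norm_num)
      _ = 1 := by norm_num)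
  simpa using h2

/-- The edge functionals span. -/
lemma exists_det_ne [Fintype X] (Y : Fin 3 → X) (hY : Function.Injective Y)
    (g : MulAut (FreeGroup X)) :
    ∃ e : Fin 3 → FreeGroup X × X,
      det3 (cvec Y g (e 0)) (cvec Y g (e 1)) (cvec Y g (e 2)) ≠ 0 := by
  classical
  by_contra hcon
  push Not at hcon
  have hz : ∀ a b c, det3 (cvec Y g a) (cvec Y g b) (cvec Y g c) = 0 := by
    intro a b c
    simpa using hcon ![a, b, c]
  obtain ⟨l, hl1, hl2⟩ := exists_comb Y g⁻¹
  -- functionals for the trivial marking are combinations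
  have hlin : ∀ (F : (Fin 3 → ℤ) → ℤ), (∀ x y, F (x + y) = F x + F y) →
      (∀ (k : ℤ) x, F (k • x) = k * F x) → (∀ e, F (cvec Y g e) = 0) →
      ∀ e, F (cvec Y 1 e) = 0 := by
    intro F hadd hsmul hF e
    obtain ⟨f, e', hf, he'⟩ := hl2 g e
    rw [mul_inv_cancel] at he'
    have hF0 : F 0 = 0 := by
      have := hsmul 0 0
      simpa using this
    have hlist : ∀ (x : X) (L : List (ℤ × FreeGroup X × X)),
        F (fun k => (L.map (fun t => f x t * cvec Y g (e' x t) k)).sum) = 0 := by
      intro x L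
      induction L with
      | nil =>
        simp only [List.map_nil, List.sum_nil]
        exact hF0
      | cons a L ih =>
        have : (fun k => ((a :: L).map (fun t => f x t * cvec Y g (e' x t) k)).sum) =
            (f x a) • (cvec Y g (e' x a)) +
              (fun k => (L.map (fun t => f x t * cvec Y g (e' x t) k)).sum) := by
          funext k
          simp
        rw [this, hadd, hsmul, hF, ih]
        simp
    have hsum : ∀ s : Finset X,
        F (fun k => ∑ x ∈ s, ((l x).map (fun t => f x t * cvec Y g (e' x t) k)).sum) = 0 := by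
      intro s
      induction s using Finset.induction_on with
      | empty =>
        simp only [Finset.sum_empty]
        exact hF0
      | insert a s ha ih =>
        have : (fun k => ∑ x ∈ insert a s,
            ((l x).map (fun t => f x t * cvec Y g (e' x t) k)).sum) =
            (fun k => ((l a).map (fun t => f a t * cvec Y g (e' a t) k)).sum) +
            (fun k => ∑ x ∈ s, ((l x).map (fun t => f x t * cvec Y g (e' x t) k)).sum) := by
          funext k
          rw [Finset.sum_insert ha]
          rfl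
        rw [this, hadd, hlist, ih, add_zero]
    rw [he']
    exact hsum Finset.univ
  have h1 : ∀ a b c, det3 (cvec Y 1 a) (cvec Y g b) (cvec Y g c) = 0 := by
    intro a b c
    exact hlin (fun v => det3 v (cvec Y g b) (cvec Y g c))
      (fun x y => by unfold det3; simp only [Pi.add_apply]; ring)
      (fun k x => by unfold det3; simp only [Pi.smul_apply, smul_eq_mul]; ring)
      (fun e => hz e b c) a
  have h2 : ∀ a b c, det3 (cvec Y 1 a) (cvec Y 1 b) (cvec Y g c) = 0 := by
    intro a b c
    exact hlin (fun v => det3 (cvec Y 1 a) v (cvec Y g c))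
      (fun x y => by unfold det3; simp only [Pi.add_apply]; ring)
      (fun k x => by unfold det3; simp only [Pi.smul_apply, smul_eq_mul]; ring)
      (fun e => h1 a e c) b
  have h3 : ∀ a b c, det3 (cvec Y 1 a) (cvec Y 1 b) (cvec Y 1 c) = 0 := by
    intro a b c
    exact hlin (fun v => det3 (cvec Y 1 a) (cvec Y 1 b) v)
      (fun x y => by unfold det3; simp only [Pi.add_apply]; ring)
      (fun k x => by unfold det3; simp only [Pi.smul_apply, smul_eq_mul]; ring)
      (fun e => h2 a b e) c
  have hstd : ∀ i k, cvec Y 1 (1, Y i) k = if k = i then 1 else 0 := by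
    intro i k
    have : (1 : MulAut (FreeGroup X)).symm (FreeGroup.of (Y k)) = FreeGroup.of (Y k) := rfl
    simp only [cvec]
    rw [this, J_of]
    unfold bas
    by_cases hki : k = i
    · subst hki
      rw [if_pos rfl, if_pos]
      refine ⟨rfl, ?_⟩
      simp only [inv_one, mul_one, map_one]
      exact Subgroup.one_mem _
    · rw [if_neg hki, if_neg]
      rintro ⟨h, -⟩
      exact hki (hY h)
  have h4 := h3 (1, Y 0) (1, Y 1) (1, Y 2)
  unfold det3 at h4
  simp only [hstd] at h4
  simp at h4

/-- Existence of short cycles with nonzero last coordinate. -/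
lemma exists_good [Fintype X] (Y : Fin 3 → X) (hY : Function.Injective Y)
    (g : MulAut (FreeGroup X)) : ∃ w, GoodV Y g w := by
  obtain ⟨e, he⟩ := exists_det_ne Y hY g
  set a := cvec Y g (e 0)
  set b := cvec Y g (e 1)
  set c := cvec Y g (e 2)
  have hbound : ∀ f0 f1 f2 : FreeGroup X × X,
      |det3 (cvec Y g f0) (cvec Y g f1) (cvec Y g f2)| ≤ 1 := by
    intro f0 f1 f2
    by_cases h : det3 (cvec Y g f0) (cvec Y g f1) (cvec Y g f2) = 0
    · rw [h]; norm_num
    · have := cvec_unimodular Y hY g ![f0, f1, f2] (by simpa using h)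
      simpa using this.le
  have hg1 : ∀ r, |dot (cvec Y g r) (cross b c)| ≤ 1 := fun r => by
    rw [dot_cross]; exact hbound r (e 1) (e 2)
  have hg2 : ∀ r, |dot (cvec Y g r) (cross c a)| ≤ 1 := fun r => by
    rw [dot_cross]; exact hbound r (e 2) (e 0)
  have hg3 : ∀ r, |dot (cvec Y g r) (cross a b)| ≤ 1 := fun r => by
    rw [dot_cross]; exact hbound r (e 0) (e 1)
  by_cases h1 : cross b c 2 = 0
  · by_cases h2 : cross c a 2 = 0
    · by_cases h3 : cross a b 2 = 0
      · exfalso
        apply he
        simp only [cross, Matrix.cons_val] at h1 h2 h3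
        have : det3 a b c = a 2 * (b 0 * c 1 - b 1 * c 0) + b 2 * (c 0 * a 1 - c 1 * a 0) +
          c 2 * (a 0 * b 1 - a 1 * b 0) := by unfold det3; ring
        rw [this, h1, h2, h3]; ring
      · exact ⟨cross a b, hg3, h3⟩
    · exact ⟨cross c a, hg2, h2⟩
  · exact ⟨cross b c, hg1, h1⟩

/-- Short cycles of three nearby markings have bounded determinant. -/
lemma det3_good_le [Fintype X] (Y : Fin 3 → X) (hY : Function.Injective Y)
    (s t : MulAut (FreeGroup X)) :
    ∃ B : ℤ, ∀ (g : MulAut (FreeGroup X)) (w0 w1 w2 : Fin 3 → ℤ), GoodV Y g w0 →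
      GoodV Y (g * s) w1 → GoodV Y (g * t) w2 → |det3 w0 w1 w2| ≤ B := by
  obtain ⟨B1, hB1, h1⟩ := exists_bound Y s⁻¹
  obtain ⟨B2, hB2, h2⟩ := exists_bound Y t⁻¹
  refine ⟨6 * (B1 * B2), fun g w0 w1 w2 hw0 hw1 hw2 => ?_⟩
  have hw1' : ∀ e, |dot (cvec Y g e) w1| ≤ B1 := by
    intro e
    have := h1 (g * s) w1 hw1.1 e
    rwa [mul_inv_cancel_right] at this
  have hw2' : ∀ e, |dot (cvec Y g e) w2| ≤ B2 := by
    intro e
    have := h2 (g * t) w2 hw2.1 e
    rwa [mul_inv_cancel_right] at this
  obtain ⟨e, he⟩ := exists_det_ne Y hY g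
  have hdet := det3_mul (cvec Y g (e 0)) (cvec Y g (e 1)) (cvec Y g (e 2)) w0 w1 w2
  have hterm : ∀ a b c, |dot (cvec Y g a) w0 * (dot (cvec Y g b) w1 * dot (cvec Y g c) w2)| ≤
      B1 * B2 := by
    intro a b c
    rw [abs_mul, abs_mul]
    have ha := hw0.1 a
    have hb := hw1' b
    have hc := hw2' c
    calc |dot (cvec Y g a) w0| * (|dot (cvec Y g b) w1| * |dot (cvec Y g c) w2|)
        ≤ 1 * (B1 * B2) := mul_le_mul ha (mul_le_mul hb hc (abs_nonneg _) hB1)
          (mul_nonneg (abs_nonneg _) (abs_nonneg _)) (by norm_num)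
      _ = B1 * B2 := one_mul _
  have h6 : |det3 (cvec Y g (e 0)) (cvec Y g (e 1)) (cvec Y g (e 2)) * det3 w0 w1 w2| ≤
      6 * (B1 * B2) := by
    rw [hdet]
    have t1 := abs_le.1 (hterm (e 0) (e 1) (e 2))
    have t2 := abs_le.1 (hterm (e 0) (e 2) (e 1))
    have t3 := abs_le.1 (hterm (e 1) (e 0) (e 2))
    have t4 := abs_le.1 (hterm (e 2) (e 0) (e 1))
    have t5 := abs_le.1 (hterm (e 1) (e 2) (e 0))
    have t6 := abs_le.1 (hterm (e 2) (e 1) (e 0))
    rw [abs_le]
    constructor <;> nlinarith
  rw [abs_mul] at h6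
  have h7 : 1 ≤ |det3 (cvec Y g (e 0)) (cvec Y g (e 1)) (cvec Y g (e 2))| :=
    Int.one_le_abs he
  have h8 := abs_nonneg (det3 w0 w1 w2)
  nlinarith

end Good

end Pool.Agent.H.MP_e5d137_al
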