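import Mathlib
import Pool.Agent.H.MP_e5d137_al.Good
import Pool.Agent.H.MP_e5d137_al.Abstract

/-!
# The map of the automorphism group to the plane
-/

namespace Pool.Agent.H.MP_e5d137_al

section PsiMap

variable {X : Type}

lemma J_translate (φ : FreeGroup X → X → ℤ) (a u w : FreeGroup X) :
    J φ (a * u) w = J (fun v x => φ (a * v) x) u w := by
  obtain ⟨l, -, hl⟩ := exists_fox w
  rw [hl, hl]
  congr 1
  apply List.map_congr_left
  intro t _
  rw [mul_assoc]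

lemma cvec_conj (Y : Fin 3 → X) (g : MulAut (FreeGroup X)) (u : FreeGroup X)
    (e : FreeGroup X × X) : cvec Y (g * MulAut.conj u) e = cvec Y g (u * e.1, e.2) := by
  funext k
  set h := g.symm (FreeGroup.of (Y k)) with hh
  set φ := bas Y (g * MulAut.conj u) e with hφ
  have h1 : (g * MulAut.conj u).symm (FreeGroup.of (Y k)) = u⁻¹ * h * u := by
    have : (g * MulAut.conj u).symm (FreeGroup.of (Y k)) =
      (MulAut.conj u).symm (g.symm (FreeGroup.of (Y k))) := rfl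
    rw [this, MulAut.conj_symm_apply]
  have h2 : (g * MulAut.conj u) (u⁻¹ * h * u) = FreeGroup.of (Y k) := by
    rw [← h1]
    exact MulEquiv.apply_symm_apply _ _
  have h3 : J φ 1 (u⁻¹ * h * u) = J φ u⁻¹ h := by
    have a1 : J φ 1 (u⁻¹ * h * u) = J φ 1 u⁻¹ + J φ u⁻¹ h + J φ (u⁻¹ * h) u := by
      rw [J_mul, J_mul, one_mul, one_mul]
    have a2 : J φ (u⁻¹ * h) u = J φ u⁻¹ u := by
      have := J_smul φ (u⁻¹ * h * u) (fun v x => bas_inv Y (g * MulAut.conj u) e (u⁻¹ * h * u)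
        (by rw [h2]; exact of_mem_fac Y k) v x) u⁻¹ u
      rw [mul_inv_cancel_right] at this
      exact this
    have a3 : J φ 1 u⁻¹ = - J φ u⁻¹ u := by rw [J_inv, one_mul]
    rw [a1, a2, a3]; ring
  have h4 : cvec Y (g * MulAut.conj u) e k = J φ 1 (u⁻¹ * h * u) := by
    simp only [cvec]
    rw [h1]
  rw [h4, h3]
  have h5 := J_translate φ u⁻¹ 1 h
  rw [mul_one] at h5
  rw [h5]
  simp only [cvec]
  congr 1
  funext v x
  have h6 : (g * MulAut.conj u) (u⁻¹ * v * e.1⁻¹) = g (v * (u * e.1)⁻¹) := by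
    have : (g * MulAut.conj u) (u⁻¹ * v * e.1⁻¹) = g (u * (u⁻¹ * v * e.1⁻¹) * u⁻¹) := rfl
    rw [this]
    congr 1
    group
  rw [hφ]
  unfold bas
  rw [h6]

/-- selection of a vector -/
noncomputable def wsel (P : (Fin 3 → ℤ) → Prop) (w0 : Fin 3 → ℤ) : Fin 3 → ℤ :=
  open Classical in if P w0 then w0 else if h : ∃ w, P w then h.choose else 0

lemma wsel_spec (P : (Fin 3 → ℤ) → Prop) (w0 : Fin 3 → ℤ) (h : ∃ w, P w) : P (wsel P w0) := by
  classical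
  unfold wsel
  by_cases h0 : P w0
  · rw [if_pos h0]; exact h0
  · rw [if_neg h0, dif_pos h]
    exact h.choose_spec

lemma wsel_can (P : (Fin 3 → ℤ) → Prop) (w0 : Fin 3 → ℤ) (h : P w0) : wsel P w0 = w0 := by
  classical
  unfold wsel
  rw [if_pos h]

/-- the canonical candidate -/
noncomputable def can (Y : Fin 3 → X) (g : MulAut (FreeGroup X)) : Fin 3 → ℤ :=
  fun k => ex (Y k) (g (FreeGroup.of (Y 2)))

/-- the chosen short cycle -/
noncomputable def wv (Y : Fin 3 → X) (g : MulAut (FreeGroup X)) : Fin 3 → ℤ :=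
  wsel (GoodV Y g) (can Y g)

lemma can_conj (Y : Fin 3 → X) (g : MulAut (FreeGroup X)) (u : FreeGroup X) :
    can Y (g * MulAut.conj u) = can Y g := by
  funext k
  have : (g * MulAut.conj u) (FreeGroup.of (Y 2)) = g u * g (FreeGroup.of (Y 2)) * (g u)⁻¹ := by
    have : (g * MulAut.conj u) (FreeGroup.of (Y 2)) = g (u * FreeGroup.of (Y 2) * u⁻¹) := rfl
    rw [this, map_mul, map_mul, map_inv]
  simp only [can]
  rw [this, ex_mul, ex_mul, ex_inv]
  ring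

lemma good_conj (Y : Fin 3 → X) (g : MulAut (FreeGroup X)) (u : FreeGroup X) :
    GoodV Y (g * MulAut.conj u) = GoodV Y g := by
  funext w
  apply propext
  unfold GoodV
  constructor
  · rintro ⟨h1, h2⟩
    refine ⟨fun e => ?_, h2⟩
    have := h1 (u⁻¹ * e.1, e.2)
    rw [cvec_conj] at this
    simpa using this
  · rintro ⟨h1, h2⟩
    refine ⟨fun e => ?_, h2⟩
    rw [cvec_conj]
    exact h1 _

lemma wv_conj (Y : Fin 3 → X) (g : MulAut (FreeGroup X)) (u : FreeGroup X) :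
    wv Y (g * MulAut.conj u) = wv Y g := by
  unfold wv
  rw [good_conj, can_conj]

/-- the map to the plane -/
noncomputable def PsiA (Y : Fin 3 → X) (g : MulAut (FreeGroup X)) : ℝ × ℝ :=
  ((wv Y g 0 : ℝ) / wv Y g 2, (wv Y g 1 : ℝ) / wv Y g 2)

lemma PsiA_conj (Y : Fin 3 → X) (g : MulAut (FreeGroup X)) (u : FreeGroup X) :
    PsiA Y (g * MulAut.conj u) = PsiA Y g := by
  unfold PsiA
  rw [wv_conj]

lemma wv_good [Fintype X] (Y : Fin 3 → X) (hY : Function.Injective Y)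
    (g : MulAut (FreeGroup X)) : GoodV Y g (wv Y g) :=
  wsel_spec _ _ (exists_good Y hY g)

lemma area2_proj (w0 w1 w2 : Fin 3 → ℤ) (h0 : w0 2 ≠ 0) (h1 : w1 2 ≠ 0) (h2 : w2 2 ≠ 0) :
    |area2 ((w0 0 : ℝ) / w0 2, (w0 1 : ℝ) / w0 2) ((w1 0 : ℝ) / w1 2, (w1 1 : ℝ) / w1 2)
      ((w2 0 : ℝ) / w2 2, (w2 1 : ℝ) / w2 2)| ≤ |(det3 w0 w1 w2 : ℝ)| := by
  have h0' : (w0 2 : ℝ) ≠ 0 := by exact_mod_cast h0
  have h1' : (w1 2 : ℝ) ≠ 0 := by exact_mod_cast h1
  have h2' : (w2 2 : ℝ) ≠ 0 := by exact_mod_cast h2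
  have e : area2 ((w0 0 : ℝ) / w0 2, (w0 1 : ℝ) / w0 2) ((w1 0 : ℝ) / w1 2, (w1 1 : ℝ) / w1 2)
      ((w2 0 : ℝ) / w2 2, (w2 1 : ℝ) / w2 2) =
      (det3 w0 w1 w2 : ℝ) / ((w0 2 : ℝ) * w1 2 * w2 2) := by
    unfold area2 det3
    push_cast
    field_simp
    ring
  rw [e, abs_div]
  apply div_le_self (abs_nonneg _)
  rw [abs_mul, abs_mul]
  have a0 : (1 : ℝ) ≤ |(w0 2 : ℝ)| := by exact_mod_cast Int.one_le_abs h0
  have a1 : (1 : ℝ) ≤ |(w1 2 : ℝ)| := by exact_mod_cast Int.one_le_abs h1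
  have a2 : (1 : ℝ) ≤ |(w2 2 : ℝ)| := by exact_mod_cast Int.one_le_abs h2
  calc (1 : ℝ) = 1 * 1 * 1 := by norm_num
    _ ≤ |(w0 2 : ℝ)| * |(w1 2 : ℝ)| * |(w2 2 : ℝ)| := by gcongr

/-- The map to the plane does not increase areas too much. -/
lemma PsiA_area [Fintype X] (Y : Fin 3 → X) (hY : Function.Injective Y)
    (T : Set (MulAut (FreeGroup X))) (hT : T.Finite) :
    ∃ C : ℝ, ∀ g, ∀ s ∈ T, ∀ t ∈ T, |area2 (PsiA Y g) (PsiA Y (g * s)) (PsiA Y (g * t))| ≤ C := by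
  classical
  choose B hB using (fun p : MulAut (FreeGroup X) × MulAut (FreeGroup X) =>
    det3_good_le Y hY p.1 p.2)
  refine ⟨∑ p ∈ hT.toFinset ×ˢ hT.toFinset, |(B p : ℝ)|, fun g s hs t ht => ?_⟩
  have h0 := wv_good Y hY g
  have h1 := wv_good Y hY (g * s)
  have h2 := wv_good Y hY (g * t)
  have h3 := hB (s, t) g _ _ _ h0 h1 h2
  have h4 := area2_proj (wv Y g) (wv Y (g * s)) (wv Y (g * t)) h0.2 h1.2 h2.2
  have h5 : |(det3 (wv Y g) (wv Y (g * s)) (wv Y (g * t)) : ℝ)| ≤ |(B (s, t) : ℝ)| := by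
    have : |(det3 (wv Y g) (wv Y (g * s)) (wv Y (g * t)) : ℝ)| ≤ (B (s, t) : ℝ) := by
      exact_mod_cast h3
    exact this.trans (le_abs_self _)
  refine (h4.trans h5).trans ?_
  exact Finset.single_le_sum (f := fun p => |(B p : ℝ)|) (fun _ _ => abs_nonneg _)
    (by simp [hs, ht])

end PsiMap

end Pool.Agent.H.MP_e5d137_al
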