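import Mathlib
import Pool.Agent.H.MP_e5d137_al.PsiMap

/-!
# Transvections and the hyperbolic automorphism of a block
-/

namespace Pool.Agent.H.MP_e5d137_al

section Letters

variable {X : Type}

lemma inv_eq_of (g : MulAut (FreeGroup X)) (a b : FreeGroup X) (h : g a = b) : g⁻¹ b = a := by
  rw [← h]; exact MulAut.inv_apply_self _ _ _

lemma mulAut_ext (g h : MulAut (FreeGroup X)) (H : ∀ x, g (FreeGroup.of x) = h (FreeGroup.of x)) :
    g = h := by
  have : g.toMonoidHom = h.toMonoidHom := by
    ext x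
    exact H x
  ext a
  exact DFunLike.congr_fun this a

lemma fin3_cases {P : Fin 3 → Prop} (h0 : P 0) (h1 : P 1) (h2 : P 2) : ∀ k, P k := by
  intro k
  fin_cases k
  · exact h0
  · exact h1
  · exact h2

variable [DecidableEq X]

lemma ex_letter (x y : X) (h : y ≠ x) : ex x (FreeGroup.of y) = 0 := by
  rw [ex_of, if_neg h]

lemma ex_letter_self (x : X) : ex x (FreeGroup.of x) = 1 := by
  rw [ex_of, if_pos rfl]

/-- replace the letter `x` by `r` -/
def subst (x : X) (r : FreeGroup X) : FreeGroup X →* FreeGroup X :=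
  FreeGroup.lift (fun y => if y = x then r else FreeGroup.of y)

lemma subst_self (x : X) (r : FreeGroup X) : subst x r (FreeGroup.of x) = r := by
  simp [subst]

lemma subst_other (x y : X) (r : FreeGroup X) (h : y ≠ x) :
    subst x r (FreeGroup.of y) = FreeGroup.of y := by
  simp [subst, h]

/-- right transvection `x ↦ x y` -/
def tR (x y : X) (h : y ≠ x) : MulAut (FreeGroup X) :=
  MonoidHom.toMulEquiv (subst x (FreeGroup.of x * FreeGroup.of y))
    (subst x (FreeGroup.of x * (FreeGroup.of y)⁻¹))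
    (by
      ext z
      by_cases hz : z = x
      · subst hz
        simp only [MonoidHom.comp_apply, subst_self, map_mul, subst_other _ _ _ h,
          MonoidHom.id_apply, inv_mul_cancel_right]
      · simp only [MonoidHom.comp_apply, subst_other _ _ _ hz, MonoidHom.id_apply])
    (by
      ext z
      by_cases hz : z = x
      · subst hz
        simp only [MonoidHom.comp_apply, subst_self, map_mul, map_inv, subst_other _ _ _ h,
          MonoidHom.id_apply, mul_inv_cancel_right]
      · simp only [MonoidHom.comp_apply, subst_other _ _ _ hz, MonoidHom.id_apply])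

lemma tR_self (x y : X) (h : y ≠ x) :
    tR x y h (FreeGroup.of x) = FreeGroup.of x * FreeGroup.of y := subst_self _ _

lemma tR_other (x y z : X) (h : y ≠ x) (hz : z ≠ x) :
    tR x y h (FreeGroup.of z) = FreeGroup.of z := subst_other _ _ _ hz

variable (Y : Fin 3 → X) (hY : Function.Injective Y)

omit [DecidableEq X] in
lemma Y_ne {i j : Fin 3} (hY : Function.Injective Y) (h : i ≠ j) : Y i ≠ Y j := fun e => h (hY e)

/-- the hyperbolic automorphism: `x ↦ xy`, `y ↦ yxy` -/
def phi : MulAut (FreeGroup X) :=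
  tR (Y 0) (Y 1) (Y_ne Y hY (by decide)) * tR (Y 1) (Y 0) (Y_ne Y hY (by decide))

lemma phi_0 : phi Y hY (FreeGroup.of (Y 0)) = FreeGroup.of (Y 0) * FreeGroup.of (Y 1) := by
  rw [phi, MulAut.mul_apply, tR_other _ _ _ _ (Y_ne Y hY (by decide)), tR_self]

lemma phi_1 : phi Y hY (FreeGroup.of (Y 1)) =
    FreeGroup.of (Y 1) * (FreeGroup.of (Y 0) * FreeGroup.of (Y 1)) := by
  rw [phi, MulAut.mul_apply, tR_self, map_mul, tR_other _ _ _ _ (Y_ne Y hY (by decide)), tR_self]

lemma phi_other (z : X) (h0 : z ≠ Y 0) (h1 : z ≠ Y 1) :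
    phi Y hY (FreeGroup.of z) = FreeGroup.of z := by
  rw [phi, MulAut.mul_apply, tR_other _ _ _ _ h1, tR_other _ _ _ _ h0]

lemma phi_2 : phi Y hY (FreeGroup.of (Y 2)) = FreeGroup.of (Y 2) :=
  phi_other Y hY _ (Y_ne Y hY (by decide)) (Y_ne Y hY (by decide))

end Letters

end Pool.Agent.H.MP_e5d137_al
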