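import Mathlib
import Pool.Agent.H.MP_e5d137_al.Blocks

/-!
# Automorphisms of a graph of loops around a circle
-/

namespace Pool.Agent.H.MP_e5d137_al

open FreeGroup (of)

section Fs

variable {X : Type}

/-- the standard free factor spanned by the letters of `S` -/
def Fs (S : Set X) : Subgroup (FreeGroup X) := Subgroup.closure (FreeGroup.of '' S)

lemma of_mem_Fs {S : Set X} {x : X} (h : x ∈ S) : (of x : FreeGroup X) ∈ Fs S :=
  Subgroup.subset_closure ⟨x, h, rfl⟩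

lemma Fs_mono {S T : Set X} (h : S ⊆ T) : Fs S ≤ Fs T :=
  Subgroup.closure_mono (Set.image_mono h)

lemma Fs_map (g : MulAut (FreeGroup X)) (S : Set X) (H : Subgroup (FreeGroup X))
    (h : ∀ x ∈ S, g (of x) ∈ H) (a : FreeGroup X) (ha : a ∈ Fs S) : g a ∈ H := by
  unfold Fs at ha
  induction ha using Subgroup.closure_induction with
  | mem x hx => obtain ⟨z, hz, rfl⟩ := hx; exact h z hz
  | one => rw [map_one]; exact Subgroup.one_mem _
  | mul a b _ _ ha hb => rw [map_mul]; exact Subgroup.mul_mem _ ha hb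
  | inv a _ ha => rw [map_inv]; exact Subgroup.inv_mem _ ha

/-- an automorphism which conjugates the letters of `S` by `c` conjugates `Fs S` by `c` -/
lemma Fs_conj (g : MulAut (FreeGroup X)) (S : Set X) (c : FreeGroup X)
    (h : ∀ x ∈ S, g (of x) = c * of x * c⁻¹) (a : FreeGroup X) (ha : a ∈ Fs S) :
    g a = c * a * c⁻¹ := by
  unfold Fs at ha
  induction ha using Subgroup.closure_induction with
  | mem x hx => obtain ⟨z, hz, rfl⟩ := hx; exact h z hz
  | one => rw [map_one]; group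
  | mul a b _ _ ha hb => rw [map_mul, ha, hb]; group
  | inv a _ ha => rw [map_inv, ha]; group

lemma Fs_fix (g : MulAut (FreeGroup X)) (S : Set X)
    (h : ∀ x ∈ S, g (of x) = of x) (a : FreeGroup X) (ha : a ∈ Fs S) : g a = a := by
  have := Fs_conj g S 1 (fun x hx => by rw [h x hx]; group) a ha
  rw [this]; group

lemma ex_Fs [DecidableEq X] (S : Set X) (x : X) (hx : x ∉ S) (a : FreeGroup X) (ha : a ∈ Fs S) :
    ex x a = 0 := by
  unfold Fs at ha
  induction ha using Subgroup.closure_induction with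
  | mem z hz =>
    obtain ⟨z, hz, rfl⟩ := hz
    exact ex_letter x z (fun h => hx (h ▸ hz))
  | one => exact ex_one x
  | mul a b _ _ ha hb => rw [ex_mul, ha, hb, add_zero]
  | inv a _ ha => rw [ex_inv, ha, neg_zero]

lemma J_Fs_zero (φ : FreeGroup X → X → ℤ) (S : Set X) (h : ∀ v, ∀ z ∈ S, φ v z = 0)
    (a : FreeGroup X) (ha : a ∈ Fs S) : ∀ u, J φ u a = 0 := by
  unfold Fs at ha
  induction ha using Subgroup.closure_induction with
  | mem z hz =>
    obtain ⟨z, hz, rfl⟩ := hz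
    intro u
    rw [J_of]; exact h _ _ hz
  | one => intro u; exact J_one φ u
  | mul a b _ _ ha hb => intro u; rw [J_mul, ha, hb, add_zero]
  | inv a _ ha => intro u; rw [J_inv, ha, neg_zero]

end Fs

section Twist

variable {X : Type}

/-- conjugates the letters of `S` by `ε` and multiplies `t` by `ε` -/
noncomputable def twHom (t : X) (S : Set X) (ε : FreeGroup X) : FreeGroup X →* FreeGroup X :=
  open Classical in
  FreeGroup.lift (fun z => if z = t then ε * of z else if z ∈ S then ε * of z * ε⁻¹ else of z)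

lemma twHom_t (t : X) (S : Set X) (ε : FreeGroup X) : twHom t S ε (of t) = ε * of t := by
  simp [twHom]

lemma twHom_S (t : X) (S : Set X) (ε : FreeGroup X) (z : X) (h : z ≠ t) (hz : z ∈ S) :
    twHom t S ε (of z) = ε * of z * ε⁻¹ := by
  simp [twHom, h, hz]

lemma twHom_other (t : X) (S : Set X) (ε : FreeGroup X) (z : X) (h : z ≠ t) (hz : z ∉ S) :
    twHom t S ε (of z) = of z := by
  simp [twHom, h, hz]

lemma twHom_x (x t : X) (hxt : x ≠ t) (S : Set X) : twHom t S (of x) (of x) = of x := by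
  by_cases h : x ∈ S
  · rw [twHom_S t S _ x hxt h]; group
  · exact twHom_other t S _ x hxt h

lemma twHom_x' (x t : X) (hxt : x ≠ t) (S : Set X) : twHom t S (of x)⁻¹ (of x) = of x := by
  by_cases h : x ∈ S
  · rw [twHom_S t S _ x hxt h]; group
  · exact twHom_other t S _ x hxt h

/-- the twist -/
noncomputable def tw (x t : X) (hxt : x ≠ t) (S : Set X) : MulAut (FreeGroup X) :=
  MonoidHom.toMulEquiv (twHom t S (of x)) (twHom t S (of x)⁻¹)
    (by
      ext z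
      rw [MonoidHom.comp_apply, MonoidHom.id_apply]
      by_cases hz : z = t
      · subst hz
        rw [twHom_t, map_mul, twHom_t, twHom_x' x z hxt]; group
      · by_cases hS : z ∈ S
        · rw [twHom_S t S _ z hz hS, map_mul, map_mul, map_inv, twHom_S t S _ z hz hS,
            twHom_x' x t hxt]; group
        · rw [twHom_other t S _ z hz hS, twHom_other t S _ z hz hS])
    (by
      ext z
      rw [MonoidHom.comp_apply, MonoidHom.id_apply]
      by_cases hz : z = t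
      · subst hz
        rw [twHom_t, map_mul, map_inv, twHom_t, twHom_x x z hxt]; group
      · by_cases hS : z ∈ S
        · rw [twHom_S t S _ z hz hS, map_mul, map_mul, map_inv, map_inv, twHom_S t S _ z hz hS,
            twHom_x x t hxt, map_inv, twHom_x x t hxt]; group
        · rw [twHom_other t S _ z hz hS, twHom_other t S _ z hz hS])

lemma tw_t (x t : X) (hxt : x ≠ t) (S : Set X) : tw x t hxt S (of t) = of x * of t :=
  twHom_t t S _

lemma tw_S (x t : X) (hxt : x ≠ t) (S : Set X) (z : X) (h : z ≠ t) (hz : z ∈ S) :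
    tw x t hxt S (of z) = of x * of z * (of x)⁻¹ := twHom_S t S _ z h hz

lemma tw_other (x t : X) (hxt : x ≠ t) (S : Set X) (z : X) (h : z ≠ t) (hz : z ∉ S) :
    tw x t hxt S (of z) = of z := twHom_other t S _ z h hz

lemma tw_x (x t : X) (hxt : x ≠ t) (S : Set X) : tw x t hxt S (of x) = of x :=
  twHom_x x t hxt S

end Twist

section USub

variable {X : Type} [DecidableEq X]

/-- the automorphisms which act on `Fs M`, fix the letters outside of `M`, `H`, `t`, conjugate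
`H` by an element `c` of `Fs M` and map `t` to `c t` -/
def Usub (M H : Set X) (t : X) : Subgroup (MulAut (FreeGroup X)) where
  carrier := {g | ∃ c ∈ Fs M, (∀ z, z ∉ M → z ∉ H → z ≠ t → g (of z) = of z) ∧
    (∀ b ∈ Fs M, g b ∈ Fs M) ∧ (∀ b ∈ Fs M, ∃ b' ∈ Fs M, g b' = b) ∧
    (∀ z ∈ H, g (of z) = c * of z * c⁻¹) ∧ g (of t) = c * of t}
  one_mem' := ⟨1, Subgroup.one_mem _, fun _ _ _ _ => rfl, fun b hb => hb,
    fun b hb => ⟨b, hb, rfl⟩, fun z _ => by simp, by simp⟩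
  mul_mem' := by
    rintro g1 g2 ⟨c1, hc1, a1, b1, s1, h1, t1⟩ ⟨c2, hc2, a2, b2, s2, h2, t2⟩
    refine ⟨g1 c2 * c1, Subgroup.mul_mem _ (b1 _ hc2) hc1, ?_, ?_, ?_, ?_, ?_⟩
    · intro z z1 z2 z3
      rw [MulAut.mul_apply, a2 z z1 z2 z3, a1 z z1 z2 z3]
    · intro b hb
      rw [MulAut.mul_apply]; exact b1 _ (b2 _ hb)
    · intro b hb
      obtain ⟨b', hb', e1⟩ := s1 b hb
      obtain ⟨b'', hb'', e2⟩ := s2 b' hb'
      exact ⟨b'', hb'', by rw [MulAut.mul_apply, e2, e1]⟩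
    · intro z hz
      rw [MulAut.mul_apply, h2 z hz, map_mul, map_mul, map_inv, h1 z hz]; group
    · rw [MulAut.mul_apply, t2, map_mul, t1]; group
  inv_mem' := by
    rintro g ⟨c, hc, a1, b1, s1, h1, t1⟩
    have hinv : ∀ b ∈ Fs M, g⁻¹ b ∈ Fs M := by
      intro b hb
      obtain ⟨b', hb', e1⟩ := s1 b hb
      rw [inv_eq_of g b' b e1]; exact hb'
    refine ⟨(g⁻¹ c)⁻¹, Subgroup.inv_mem _ (hinv c hc), ?_, hinv, ?_, ?_, ?_⟩
    · intro z z1 z2 z3
      exact inv_eq_of g _ _ (a1 z z1 z2 z3)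
    · intro b hb
      exact ⟨g b, b1 b hb, MulAut.inv_apply_self _ _ _⟩
    · intro z hz
      apply inv_eq_of
      rw [map_mul, map_mul, map_inv, map_inv, map_inv, MulAut.apply_inv_self, h1 z hz]; group
    · apply inv_eq_of
      rw [map_mul, map_inv, MulAut.apply_inv_self, t1]; group

/-- two such subgroups commute if the second one lives in `H` -/
lemma Usub_comm (M H M' H' : Set X) (t : X) (hM : M' ⊆ H) (hH : H' ⊆ H)
    (hMM' : ∀ z ∈ M, z ∉ M') (hMH' : ∀ z ∈ M, z ∉ H') (hMt : t ∉ M)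
    (g : MulAut (FreeGroup X)) (hg : g ∈ Usub M H t)
    (g' : MulAut (FreeGroup X)) (hg' : g' ∈ Usub M' H' t) (ht : t ∉ H) : g * g' = g' * g := by
  obtain ⟨c, hc, a1, b1, s1, h1, t1⟩ := hg
  obtain ⟨c', hc', a2, b2, s2, h2, t2⟩ := hg'
  have hfixM : ∀ b ∈ Fs M, g' b = b := Fs_fix g' M (fun z hz => a2 z (hMM' z hz) (hMH' z hz)
    (fun h => hMt (h ▸ hz)))
  have hconjH : ∀ b ∈ Fs H, g b = c * b * c⁻¹ := Fs_conj g H c h1
  have hcH : c' ∈ Fs H := Fs_mono hM hc'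
  have hletH : ∀ z ∈ H, g' (of z) ∈ Fs H := by
    intro z hz
    by_cases z1 : z ∈ M'
    · exact Fs_mono hM (b2 _ (of_mem_Fs z1))
    · by_cases z2 : z ∈ H'
      · rw [h2 z z2]
        exact Subgroup.mul_mem _ (Subgroup.mul_mem _ hcH (of_mem_Fs hz)) (Subgroup.inv_mem _ hcH)
      · rw [a2 z z1 z2 (fun h => ht (h ▸ hz))]
        exact of_mem_Fs hz
  apply mulAut_ext
  intro z
  rw [MulAut.mul_apply, MulAut.mul_apply]
  by_cases z1 : z ∈ M
  · rw [hfixM _ (of_mem_Fs z1), hfixM _ (b1 _ (of_mem_Fs z1))]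
  · by_cases z2 : z ∈ H
    · rw [h1 z z2, map_mul, map_mul, map_inv, hfixM c hc, hconjH _ (hletH z z2)]
    · by_cases z3 : z = t
      · subst z3
        rw [t2, t1, map_mul, map_mul, hfixM c hc, t2, t1, hconjH _ hcH]; group
      · rw [a1 z z1 z2 z3, a2 z (fun h => z2 (hM h)) (fun h => z2 (hH h)) z3, a1 z z1 z2 z3]

end USub

section PSub

variable {X : Type} [DecidableEq X]

/-- automorphisms of the circle of groups -/
def PP (L M H : Set X) (t : X) (g : MulAut (FreeGroup X)) : Prop :=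
  ∃ d ∈ Fs L, ∃ c ∈ Fs M, ∃ f ∈ Fs H, (∀ a ∈ Fs L, g a ∈ Fs L) ∧
    (∀ b ∈ Fs M, ∃ b' ∈ Fs M, g b = d * b' * d⁻¹) ∧
    (∀ b' ∈ Fs M, ∃ b ∈ Fs M, g b = d * b' * d⁻¹) ∧
    (∀ h ∈ Fs H, ∃ h' ∈ Fs H, g h = (d * c) * h' * (d * c)⁻¹) ∧
    g (of t) = d * c * f * of t

omit [DecidableEq X] in
lemma PP_one (L M H : Set X) (t : X) : PP L M H t 1 :=
  ⟨1, Subgroup.one_mem _, 1, Subgroup.one_mem _, 1, Subgroup.one_mem _, fun a ha => ha,
    fun b hb => ⟨b, hb, by simp⟩, fun b hb => ⟨b, hb, by simp⟩, fun b hb => ⟨b, hb, by simp⟩,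
    by simp⟩

omit [DecidableEq X] in
lemma PP_mul (L M H : Set X) (t : X) (g1 g2 : MulAut (FreeGroup X)) (h1 : PP L M H t g1)
    (h2 : PP L M H t g2) : PP L M H t (g1 * g2) := by
  obtain ⟨d1, hd1, c1, hc1, f1, hf1, L1, M1, S1, H1, T1⟩ := h1
  obtain ⟨d2, hd2, c2, hc2, f2, hf2, L2, M2, S2, H2, T2⟩ := h2
  obtain ⟨c2', hc2', ec⟩ := M1 c2 hc2
  obtain ⟨f2', hf2', ef⟩ := H1 f2 hf2
  refine ⟨g1 d2 * d1, Subgroup.mul_mem _ (L1 _ hd2) hd1, c2' * c1, Subgroup.mul_mem _ hc2' hc1,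
    f2' * f1, Subgroup.mul_mem _ hf2' hf1, ?_, ?_, ?_, ?_, ?_⟩
  · intro a ha
    rw [MulAut.mul_apply]; exact L1 _ (L2 _ ha)
  · intro b hb
    obtain ⟨b', hb', e1⟩ := M2 b hb
    obtain ⟨b'', hb'', e2⟩ := M1 b' hb'
    refine ⟨b'', hb'', ?_⟩
    rw [MulAut.mul_apply, e1, map_mul, map_mul, map_inv, e2]; group
  · intro b hb
    obtain ⟨b', hb', e1⟩ := S1 b hb
    obtain ⟨b'', hb'', e2⟩ := S2 b' hb'
    refine ⟨b'', hb'', ?_⟩
    rw [MulAut.mul_apply, e2, map_mul, map_mul, map_inv, e1]; group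
  · intro b hb
    obtain ⟨b', hb', e1⟩ := H2 b hb
    obtain ⟨b'', hb'', e2⟩ := H1 b' hb'
    refine ⟨b'', hb'', ?_⟩
    rw [MulAut.mul_apply, e1, map_mul, map_mul, map_inv, map_mul, e2, ec]; group
  · rw [MulAut.mul_apply, T2, map_mul, map_mul, map_mul, T1, ec, ef]; group

def Psub (L M H : Set X) (t : X) : Subgroup (MulAut (FreeGroup X)) where
  carrier := {g | PP L M H t g ∧ PP L M H t g⁻¹}
  one_mem' := ⟨PP_one L M H t, by rw [inv_one]; exact PP_one L M H t⟩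
  mul_mem' := by
    rintro g1 g2 ⟨a1, b1⟩ ⟨a2, b2⟩
    refine ⟨PP_mul L M H t _ _ a1 a2, ?_⟩
    rw [mul_inv_rev]
    exact PP_mul L M H t _ _ b2 b1
  inv_mem' := by
    rintro g ⟨a, b⟩
    exact ⟨b, by rw [inv_inv]; exact a⟩

lemma Usub_le_Psub_low (L M H M' H' : Set X) (t : X) (hM' : M' ⊆ L) (hM : M ⊆ H') (hH : H ⊆ H')
    (ht : t ∉ L) : Usub M' H' t ≤ Psub L M H t := by
  have key : ∀ g ∈ Usub M' H' t, PP L M H t g := by
    rintro g ⟨c, hc, a1, b1, s1, h1, t1⟩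
    have hconj : ∀ b ∈ Fs H', g b = c * b * c⁻¹ := Fs_conj g H' c h1
    have hcL : c ∈ Fs L := Fs_mono hM' hc
    refine ⟨c, hcL, 1, Subgroup.one_mem _, 1, Subgroup.one_mem _, ?_, ?_, ?_, ?_, ?_⟩
    · apply Fs_map
      intro z hz
      by_cases z1 : z ∈ M'
      · exact Fs_mono hM' (b1 _ (of_mem_Fs z1))
      · by_cases z2 : z ∈ H'
        · rw [h1 z z2]
          exact Subgroup.mul_mem _ (Subgroup.mul_mem _ hcL (of_mem_Fs hz))
            (Subgroup.inv_mem _ hcL)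
        · rw [a1 z z1 z2 (fun h => ht (h ▸ hz))]
          exact of_mem_Fs hz
    · intro b hb
      exact ⟨b, hb, hconj b (Fs_mono hM hb)⟩
    · intro b hb
      exact ⟨b, hb, hconj b (Fs_mono hM hb)⟩
    · intro b hb
      exact ⟨b, hb, by rw [hconj b (Fs_mono hH hb)]; group⟩
    · rw [t1]; group
  intro g hg
  exact ⟨key g hg, key g⁻¹ (Subgroup.inv_mem _ hg)⟩

lemma Usub_le_Psub_mid (L M H : Set X) (t : X) (hLM : ∀ z ∈ L, z ∉ M) (hLH : ∀ z ∈ L, z ∉ H)
    (ht : t ∉ L) : Usub M H t ≤ Psub L M H t := by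
  have key : ∀ g ∈ Usub M H t, PP L M H t g := by
    rintro g ⟨c, hc, a1, b1, s1, h1, t1⟩
    have hconj : ∀ b ∈ Fs H, g b = c * b * c⁻¹ := Fs_conj g H c h1
    refine ⟨1, Subgroup.one_mem _, c, hc, 1, Subgroup.one_mem _, ?_, ?_, ?_, ?_, ?_⟩
    · apply Fs_map
      intro z hz
      rw [a1 z (hLM z hz) (hLH z hz) (fun h => ht (h ▸ hz))]
      exact of_mem_Fs hz
    · intro b hb
      exact ⟨g b, b1 b hb, by group⟩
    · intro b hb
      obtain ⟨b', hb', e⟩ := s1 b hb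
      exact ⟨b', hb', by rw [e]; group⟩
    · intro b hb
      exact ⟨b, hb, by rw [hconj b hb]; group⟩
    · rw [t1]; group
  intro g hg
  exact ⟨key g hg, key g⁻¹ (Subgroup.inv_mem _ hg)⟩

lemma Usub_le_Psub_high (L M H M' H' : Set X) (t : X) (hM' : M' ⊆ H)
    (hL1 : ∀ z ∈ L, z ∉ M') (hL2 : ∀ z ∈ L, z ∉ H') (hM1 : ∀ z ∈ M, z ∉ M')
    (hM2 : ∀ z ∈ M, z ∉ H') (hLt : t ∉ L) (hMt : t ∉ M) (hHt : t ∉ H) :
    Usub M' H' t ≤ Psub L M H t := by
  have key : ∀ g ∈ Usub M' H' t, PP L M H t g := by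
    rintro g ⟨c, hc, a1, b1, s1, h1, t1⟩
    have hfixL : ∀ b ∈ Fs L, g b = b := Fs_fix g L (fun z hz => a1 z (hL1 z hz) (hL2 z hz)
      (fun h => hLt (h ▸ hz)))
    have hfixM : ∀ b ∈ Fs M, g b = b := Fs_fix g M (fun z hz => a1 z (hM1 z hz) (hM2 z hz)
      (fun h => hMt (h ▸ hz)))
    have hcH : c ∈ Fs H := Fs_mono hM' hc
    have hH : ∀ b ∈ Fs H, g b ∈ Fs H := by
      apply Fs_map
      intro z hz
      by_cases z1 : z ∈ M'
      · exact Fs_mono hM' (b1 _ (of_mem_Fs z1))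
      · by_cases z2 : z ∈ H'
        · rw [h1 z z2]
          exact Subgroup.mul_mem _ (Subgroup.mul_mem _ hcH (of_mem_Fs hz))
            (Subgroup.inv_mem _ hcH)
        · rw [a1 z z1 z2 (fun h => hHt (h ▸ hz))]
          exact of_mem_Fs hz
    refine ⟨1, Subgroup.one_mem _, 1, Subgroup.one_mem _, c, hcH, ?_, ?_, ?_, ?_, ?_⟩
    · intro a ha
      rw [hfixL a ha]; exact ha
    · intro b hb
      exact ⟨b, hb, by rw [hfixM b hb]; group⟩
    · intro b hb
      exact ⟨b, hb, by rw [hfixM b hb]; group⟩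
    · intro b hb
      exact ⟨g b, hH b hb, by group⟩
    · rw [t1]; group
  intro g hg
  exact ⟨key g hg, key g⁻¹ (Subgroup.inv_mem _ hg)⟩

end PSub

end Pool.Agent.H.MP_e5d137_al
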