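import Mathlib
import Pool.Agent.H.MP_e5d137_al.Circle

/-!
# The map to the plane on the automorphisms of the circle of groups
-/

namespace Pool.Agent.H.MP_e5d137_al

open FreeGroup (of)

section Good2

variable {X : Type} [DecidableEq X] (Y : Fin 3 → X)

/-- the two letters of the block -/
def MY : Set X := {Y 0, Y 1}

omit [DecidableEq X] in
lemma mem_MY0 : Y 0 ∈ MY Y := by simp [MY]
omit [DecidableEq X] in
lemma mem_MY1 : Y 1 ∈ MY Y := by simp [MY]

omit [DecidableEq X] in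
lemma MY_le_fac : Fs (MY Y) ≤ fac Y := by
  unfold Fs fac
  rw [Subgroup.closure_le]
  rintro _ ⟨z, hz, rfl⟩
  simp only [MY, Set.mem_insert_iff, Set.mem_singleton_iff] at hz
  rcases hz with rfl | rfl
  · exact of_mem_fac Y 0
  · exact of_mem_fac Y 1

/-- exponent sums of the image of an element of the block -/
lemma ex_image (hY : Function.Injective Y) (γ : MulAut (FreeGroup X)) (z : X) (b : FreeGroup X)
    (hb : b ∈ Fs (MY Y)) :
    ex z (γ b) = ex (Y 0) b * ex z (γ (of (Y 0))) + ex (Y 1) b * ex z (γ (of (Y 1))) := by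
  unfold Fs at hb
  induction hb using Subgroup.closure_induction with
  | mem x hx =>
    obtain ⟨w, hw, rfl⟩ := hx
    simp only [MY, Set.mem_insert_iff, Set.mem_singleton_iff] at hw
    rcases hw with rfl | rfl
    · rw [ex_letter_self, ex_letter _ _ (Y_ne Y hY (by decide))]; ring
    · rw [ex_letter_self, ex_letter _ _ (Y_ne Y hY (by decide))]; ring
  | one => simp
  | mul a b _ _ ha hb => rw [map_mul, ex_mul, ex_mul, ex_mul, ha, hb]; ring
  | inv a _ ha => rw [map_inv, ex_inv, ex_inv, ex_inv, ha]; ring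

omit [DecidableEq X] in
lemma ex_conj (z : X) (u w : FreeGroup X) : ex z (u * w * u⁻¹) = ex z w := by
  rw [ex_mul, ex_mul, ex_inv]; ring

lemma J_block (φ : FreeGroup X → X → ℤ) (d : FreeGroup X) (i : Fin 3)
    (h1 : ∀ v z, z ≠ Y i → φ v z = 0) (h2 : ∀ b ∈ Fs (MY Y), φ (d * b) (Y i) = 1)
    (b : FreeGroup X) (hb : b ∈ Fs (MY Y)) :
    ∀ b0 ∈ Fs (MY Y), J φ (d * b0) b = ex (Y i) b := by
  have hb' := hb
  unfold Fs at hb
  induction hb using Subgroup.closure_induction with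
  | mem x hx =>
    obtain ⟨w, hw, rfl⟩ := hx
    intro b0 hb0
    rw [J_of]
    by_cases hwi : w = Y i
    · subst hwi
      rw [h2 b0 hb0, ex_letter_self]
    · rw [h1 _ _ hwi, ex_letter _ _ hwi]
  | one => intro b0 _; rw [J_one, ex_one]
  | mul a b ha' hb'' ha hb =>
    intro b0 hb0
    rw [J_mul, ha ha' b0 hb0, mul_assoc, hb hb'' (b0 * a) (Subgroup.mul_mem _ hb0 ha'), ex_mul]
  | inv a ha' ha =>
    intro b0 hb0
    rw [J_inv, mul_assoc, ha ha' (b0 * a⁻¹) (Subgroup.mul_mem _ hb0 (Subgroup.inv_mem _ ha')),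
      ex_inv]

lemma dot_cross_mul (e a b v : Fin 3 → ℤ) (ha : dot a v = 0) (hb : dot b v = 0) :
    dot e (cross a b) * v 2 = dot e v * (cross a b 2) := by
  simp only [dot] at ha hb
  simp only [dot, cross, Matrix.cons_val]
  linear_combination (e 1 * b 0 - e 0 * b 1) * ha - (e 1 * a 0 - e 0 * a 1) * hb

variable (L H : Set X) (hL : ∀ k, Y k ∉ L) (hH : ∀ k, Y k ∉ H)

include hL hH in
/-- the canonical vector is good -/
lemma can_good2 (hY : Function.Injective Y) (g : MulAut (FreeGroup X))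
    (hg : g ∈ Psub L (MY Y) H (Y 2)) : GoodV Y g (can Y g) ∧ can Y g 2 = 1 := by
  obtain ⟨⟨d', hd', c', hc', f', hf', -, -, -, -, T'⟩, ⟨d, hd, c, hc, f, hf, PL, PM, PS, PH, PT⟩⟩ :=
    hg
  have y2M : Y 2 ∉ MY Y := by
    simp only [MY, Set.mem_insert_iff, Set.mem_singleton_iff, not_or]
    exact ⟨Y_ne Y hY (by decide), Y_ne Y hY (by decide)⟩
  -- the vector
  have hcan : ∀ i : Fin 3, i ≠ 2 → ex (Y i) (g (of (Y 2))) = ex (Y i) c' := by
    intro i hi
    rw [T', ex_mul, ex_mul, ex_mul, ex_Fs L _ (hL i) d' hd', ex_Fs H _ (hH i) f' hf',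
      ex_letter _ _ (Y_ne Y hY hi.symm)]
    ring
  have hcan2 : can Y g 2 = 1 := by
    change ex (Y 2) (g (of (Y 2))) = 1
    rw [T', ex_mul, ex_mul, ex_mul, ex_Fs L _ (hL 2) d' hd', ex_Fs H _ (hH 2) f' hf',
      ex_Fs (MY Y) _ y2M c' hc', ex_letter_self]
    ring
  -- the functionals
  have hfun : ∀ i : Fin 3, i ≠ 2 → ∀ k, cvec Y g (d, Y i) k = ex (Y i) (g⁻¹ (of (Y k))) := by
    intro i hi
    set φ := bas Y g (d, Y i) with hφ
    have h1 : ∀ v z, z ≠ Y i → φ v z = 0 := by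
      intro v z hz
      rw [hφ]
      unfold bas
      rw [if_neg]
      rintro ⟨h, -⟩
      exact hz h
    have h2 : ∀ b ∈ Fs (MY Y), φ (d * b) (Y i) = 1 := by
      intro b hb
      obtain ⟨b', hb', e⟩ := PS b hb
      rw [hφ]
      unfold bas
      rw [if_pos]
      refine ⟨rfl, ?_⟩
      simp only
      rw [← e, MulAut.apply_inv_self]
      exact MY_le_fac Y hb'
    have hL0 : ∀ a ∈ Fs L, ∀ u, J φ u a = 0 := fun a ha =>
      J_Fs_zero φ L (fun v z hz => h1 v z (fun h => hL i (h ▸ hz))) a ha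
    have hH0 : ∀ a ∈ Fs H, ∀ u, J φ u a = 0 := fun a ha =>
      J_Fs_zero φ H (fun v z hz => h1 v z (fun h => hH i (h ▸ hz))) a ha
    have hB : ∀ b ∈ Fs (MY Y), J φ d b = ex (Y i) b := by
      intro b hb
      have := J_block Y φ d i h1 h2 b hb 1 (Subgroup.one_mem _)
      rwa [mul_one] at this
    have hk : ∀ k, of (Y k) ∈ Fs (MY Y) → cvec Y g (d, Y i) k = ex (Y i) (g⁻¹ (of (Y k))) := by
      intro k hk
      obtain ⟨b', hb', e⟩ := PM _ hk
      have e0 : cvec Y g (d, Y i) k = J φ 1 (g⁻¹ (of (Y k))) := rfl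
      rw [e0, e, J_mul, J_mul, one_mul, one_mul, hL0 d hd, hB b' hb',
        hL0 d⁻¹ (Subgroup.inv_mem _ hd), ex_conj]
      ring
    refine fin3_cases (hk 0 (of_mem_Fs (mem_MY0 Y))) (hk 1 (of_mem_Fs (mem_MY1 Y))) ?_
    have e0 : cvec Y g (d, Y i) 2 = J φ 1 (g⁻¹ (of (Y 2))) := rfl
    rw [e0, PT, J_mul, J_mul, J_mul, one_mul, one_mul, one_mul, hL0 d hd, hB c hc, hH0 f hf, J_of,
      h1 _ _ (Y_ne Y hY hi.symm), ex_mul, ex_mul, ex_mul, ex_Fs L _ (hL i) d hd,
      ex_Fs H _ (hH i) f hf, ex_letter _ _ (Y_ne Y hY hi.symm)]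
  -- orthogonality
  have horth : ∀ i : Fin 3, i ≠ 2 → dot (cvec Y g (d, Y i)) (can Y g) = 0 := by
    intro i hi
    have e1 : ex (Y i) (g⁻¹ (g (of (Y 2)))) = 0 := by
      rw [MulAut.inv_apply_self]; exact ex_letter _ _ (Y_ne Y hY hi.symm)
    obtain ⟨h', hh', eh⟩ := PH f' hf'
    rw [T', map_mul, map_mul, map_mul, ex_mul, ex_mul, ex_mul,
      ex_Fs L _ (hL i) _ (PL d' hd'), ex_image Y hY _ _ c' hc', eh, ex_conj,
      ex_Fs H _ (hH i) h' hh'] at e1
    have e2 : can Y g 0 = ex (Y 0) c' := hcan 0 (by decide)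
    have e3 : can Y g 1 = ex (Y 1) c' := hcan 1 (by decide)
    unfold dot
    rw [hfun i hi, hfun i hi, hfun i hi, e2, e3, hcan2]
    linarith
  set a := cvec Y g (d, Y 0) with ha
  set b := cvec Y g (d, Y 1) with hb
  have hdet : cross a b 2 ≠ 0 := by
    obtain ⟨p, hp, ep⟩ := PS _ (of_mem_Fs (mem_MY0 Y))
    obtain ⟨q, hq, eq⟩ := PS _ (of_mem_Fs (mem_MY1 Y))
    have h1 : ex (Y 0) (g⁻¹ p) = 1 := by rw [ep, ex_conj, ex_letter_self]
    have h2 : ex (Y 1) (g⁻¹ p) = 0 := by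
      rw [ep, ex_conj, ex_letter _ _ (Y_ne Y hY (by decide))]
    have h3 : ex (Y 0) (g⁻¹ q) = 0 := by
      rw [eq, ex_conj, ex_letter _ _ (Y_ne Y hY (by decide))]
    have h4 : ex (Y 1) (g⁻¹ q) = 1 := by rw [eq, ex_conj, ex_letter_self]
    rw [ex_image Y hY _ _ p hp, ← hfun 0 (by decide), ← hfun 0 (by decide)] at h1
    rw [ex_image Y hY _ _ p hp, ← hfun 1 (by decide), ← hfun 1 (by decide)] at h2
    rw [ex_image Y hY _ _ q hq, ← hfun 0 (by decide), ← hfun 0 (by decide)] at h3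
    rw [ex_image Y hY _ _ q hq, ← hfun 1 (by decide), ← hfun 1 (by decide)] at h4
    rw [← ha] at h1 h3
    rw [← hb] at h2 h4
    intro hz
    simp only [cross, Matrix.cons_val] at hz
    have : (a 0 * b 1 - a 1 * b 0) * (ex (Y 0) p * ex (Y 1) q - ex (Y 1) p * ex (Y 0) q) =
        (ex (Y 0) p * a 0 + ex (Y 1) p * a 1) * (ex (Y 0) q * b 0 + ex (Y 1) q * b 1) -
        (ex (Y 0) q * a 0 + ex (Y 1) q * a 1) * (ex (Y 0) p * b 0 + ex (Y 1) p * b 1) := by
      ring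
    rw [h1, h2, h3, h4, hz, zero_mul] at this
    exact absurd this (by norm_num)
  refine ⟨⟨fun e => ?_, by rw [hcan2]; norm_num⟩, hcan2⟩
  have h1 := dot_cross_mul (cvec Y g e) a b (can Y g) (horth 0 (by decide)) (horth 1 (by decide))
  rw [hcan2, mul_one, dot_cross] at h1
  have h2 : |det3 (cvec Y g e) a b| ≤ 1 := by
    by_cases h : det3 (cvec Y g e) a b = 0
    · rw [h]; norm_num
    · have := cvec_unimodular Y hY g ![e, (d, Y 0), (d, Y 1)] (by simpa using h)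
      simpa using this.le
  rw [h1, abs_mul] at h2
  have h3 : 1 ≤ |cross a b 2| := Int.one_le_abs hdet
  have h4 := abs_nonneg (dot (cvec Y g e) (can Y g))
  nlinarith

include hL hH in
lemma PsiA_psub (hY : Function.Injective Y) (g : MulAut (FreeGroup X))
    (hg : g ∈ Psub L (MY Y) H (Y 2)) :
    PsiA Y g = ((ex (Y 0) (g (of (Y 2))) : ℝ), (ex (Y 1) (g (of (Y 2))) : ℝ)) := by
  obtain ⟨h0, h2⟩ := can_good2 Y L H hL hH hY g hg
  have h1 : wv Y g = can Y g := wsel_can _ _ h0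
  unfold PsiA
  rw [h1, h2]
  simp [can]

include hL hH in
/-- invariance under the other blocks -/
lemma ex_psub_low (g : MulAut (FreeGroup X))
    (hg : g ∈ Psub L (MY Y) H (Y 2)) (a : FreeGroup X) (ha : a ∈ Fs L ∨ a ∈ Fs H) (k : Fin 3) :
    ex (Y k) (g a) = 0 := by
  obtain ⟨⟨d, hd, c, hc, f, hf, PL, PM, PS, PH, PT⟩, -⟩ := hg
  rcases ha with ha | ha
  · exact ex_Fs L _ (hL k) _ (PL a ha)
  · obtain ⟨h', hh', e⟩ := PH a ha
    rw [e, ex_conj]
    exact ex_Fs H _ (hH k) _ hh'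

end Good2

end Pool.Agent.H.MP_e5d137_al
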