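import Mathlib
import Pool.Agent.H.MP_e5d137_al.Circle2

/-!
# The closed paths and the parallelogram which they enclose
-/

namespace Pool.Agent.H.MP_e5d137_al

open FreeGroup (of)

section Paths

variable {X : Type} [DecidableEq X] (Y : Fin 3 → X) (hY : Function.Injective Y)

/-- automorphisms preserving the rank two factor and fixing the other letters -/
def Msub : Subgroup (MulAut (FreeGroup X)) where
  carrier := {g | (∀ a ∈ Fs (MY Y), g a ∈ Fs (MY Y)) ∧ (∀ a ∈ Fs (MY Y), g⁻¹ a ∈ Fs (MY Y)) ∧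
    ∀ z, z ∉ MY Y → g (of z) = of z}
  one_mem' := ⟨fun a ha => ha, fun a ha => by simpa using ha, fun _ _ => rfl⟩
  mul_mem' := by
    rintro g h ⟨g1, g2, g3⟩ ⟨h1, h2, h3⟩
    refine ⟨fun a ha => g1 _ (h1 a ha), fun a ha => ?_, fun z hz => ?_⟩
    · rw [mul_inv_rev, MulAut.mul_apply]; exact h2 _ (g2 a ha)
    · rw [MulAut.mul_apply, h3 z hz, g3 z hz]
  inv_mem' := by
    rintro g ⟨g1, g2, g3⟩
    exact ⟨g2, fun a ha => by rw [inv_inv]; exact g1 a ha, fun z hz => inv_eq_of _ _ _ (g3 z hz)⟩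

omit [DecidableEq X] in
lemma MY_cases {P : X → Prop} (h0 : P (Y 0)) (h1 : P (Y 1)) : ∀ z ∈ MY Y, P z := by
  intro z hz
  simp only [MY, Set.mem_insert_iff, Set.mem_singleton_iff] at hz
  rcases hz with rfl | rfl
  · exact h0
  · exact h1

omit [DecidableEq X] in
lemma not_MY (z : X) (hz : z ∉ MY Y) : z ≠ Y 0 ∧ z ≠ Y 1 := by
  simp only [MY, Set.mem_insert_iff, Set.mem_singleton_iff, not_or] at hz
  exact hz

include hY in
lemma Y2_not_MY : Y 2 ∉ MY Y := by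
  simp only [MY, Set.mem_insert_iff, Set.mem_singleton_iff, not_or]
  exact ⟨Y_ne Y hY (by decide), Y_ne Y hY (by decide)⟩

lemma phi_Msub : phi Y hY ∈ Msub Y := by
  have hx : phi Y hY (of (Y 0) * of (Y 0) * (of (Y 1))⁻¹) = of (Y 0) := by
    rw [map_mul, map_mul, map_inv, phi_0, phi_1]; group
  have hy : phi Y hY (of (Y 1) * (of (Y 0))⁻¹) = of (Y 1) := by
    rw [map_mul, map_inv, phi_0, phi_1]; group
  have m0 := of_mem_Fs (mem_MY0 Y)
  have m1 := of_mem_Fs (mem_MY1 Y)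
  refine ⟨Fs_map _ _ _ (MY_cases Y ?_ ?_), Fs_map _ _ _ (MY_cases Y ?_ ?_), fun z hz => ?_⟩
  · rw [phi_0]; exact Subgroup.mul_mem _ m0 m1
  · rw [phi_1]; exact Subgroup.mul_mem _ m1 (Subgroup.mul_mem _ m0 m1)
  · rw [inv_eq_of _ _ _ hx]
    exact Subgroup.mul_mem _ (Subgroup.mul_mem _ m0 m0) (Subgroup.inv_mem _ m1)
  · rw [inv_eq_of _ _ _ hy]
    exact Subgroup.mul_mem _ m1 (Subgroup.inv_mem _ m0)
  · exact phi_other Y hY z (not_MY Y z hz).1 (not_MY Y z hz).2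

/-- the data at a vertex of the path -/
def St (g : MulAut (FreeGroup X)) (a b c d : ℤ) : Prop :=
  ex (Y 0) (g (FreeGroup.of (Y 0))) = a ∧ ex (Y 1) (g (FreeGroup.of (Y 0))) = b ∧
    ex (Y 0) (g (FreeGroup.of (Y 1))) = c ∧ ex (Y 1) (g (FreeGroup.of (Y 1))) = d

lemma St_phi (g : MulAut (FreeGroup X)) (a b c d : ℤ) (h : St Y g a b c d) :
    St Y (g * phi Y hY) (a + c) (b + d) (a + 2 * c) (b + 2 * d) := by
  obtain ⟨h1, h2, h3, h4⟩ := h
  unfold St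
  simp only [MulAut.mul_apply, phi_0, phi_1, map_mul, ex_mul, h1, h2, h3, h4]
  refine ⟨?_, ?_, ?_, ?_⟩ <;> first | trivial | ring

lemma St_phi_inv (g : MulAut (FreeGroup X)) (a b c d : ℤ) (h : St Y g a b c d) :
    St Y (g * (phi Y hY)⁻¹) (2 * a - c) (2 * b - d) (c - a) (d - b) := by
  have h' := St_phi Y hY (g * (phi Y hY)⁻¹) _ _ _ _ ⟨rfl, rfl, rfl, rfl⟩
  rw [inv_mul_cancel_right] at h'
  obtain ⟨h1, h2, h3, h4⟩ := h
  obtain ⟨k1, k2, k3, k4⟩ := h'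
  rw [h1] at k1
  rw [h2] at k2
  rw [h3] at k3
  rw [h4] at k4
  refine ⟨?_, ?_, ?_, ?_⟩ <;> linarith

omit [DecidableEq X] in
lemma St_fix (g s : MulAut (FreeGroup X)) (a b c d : ℤ) (h : St Y g a b c d)
    (h0 : s (FreeGroup.of (Y 0)) = FreeGroup.of (Y 0))
    (h1 : s (FreeGroup.of (Y 1)) = FreeGroup.of (Y 1)) : St Y (g * s) a b c d := by
  unfold St
  simp only [MulAut.mul_apply, h0, h1]
  exact h

/-- the sequences -/
def ab : ℕ → ℤ × ℤ
  | 0 => (1, 0)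
  | (n + 1) => ((ab n).1 + (ab n).2, (ab n).1 + 2 * (ab n).2)

def posSt (n : ℕ) (g : MulAut (FreeGroup X)) : Prop :=
  St Y g (ab n).1 (ab n).2 (ab n).2 ((ab n).1 + (ab n).2)

def negSt (n : ℕ) (g : MulAut (FreeGroup X)) : Prop :=
  St Y g ((ab n).1 + (ab n).2) (-(ab n).2) (-(ab n).2) ((ab n).1)

lemma posSt_phi (n : ℕ) (g : MulAut (FreeGroup X)) (h : posSt Y n g) :
    posSt Y (n + 1) (g * phi Y hY) := by
  have := St_phi Y hY g _ _ _ _ h
  unfold posSt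
  simp only [ab]
  convert this using 1 <;> ring

lemma negSt_phi_inv (n : ℕ) (g : MulAut (FreeGroup X)) (h : negSt Y n g) :
    negSt Y (n + 1) (g * (phi Y hY)⁻¹) := by
  have := St_phi_inv Y hY g _ _ _ _ h
  unfold negSt
  simp only [ab]
  convert this using 1 <;> ring

lemma posSt_phi_inv (n : ℕ) (g : MulAut (FreeGroup X)) (h : posSt Y (n + 1) g) :
    posSt Y n (g * (phi Y hY)⁻¹) := by
  have := St_phi_inv Y hY g _ _ _ _ h
  unfold posSt
  simp only [ab] at this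
  convert this using 1 <;> ring

lemma negSt_phi (n : ℕ) (g : MulAut (FreeGroup X)) (h : negSt Y (n + 1) g) :
    negSt Y n (g * phi Y hY) := by
  have := St_phi Y hY g _ _ _ _ h
  unfold negSt
  simp only [ab] at this
  convert this using 1 <;> ring

omit [DecidableEq X] in
lemma pos_neg_zero (g : MulAut (FreeGroup X)) : posSt Y 0 g ↔ negSt Y 0 g := by
  unfold posSt negSt
  simp [ab]

lemma posSt_pow (N : ℕ) (g : MulAut (FreeGroup X)) (h : posSt Y 0 g) :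
    posSt Y N (g * (phi Y hY) ^ N) := by
  induction N with
  | zero => simpa using h
  | succ N ih => rw [pow_succ, ← mul_assoc]; exact posSt_phi Y hY N _ ih

lemma negSt_pow (N : ℕ) (g : MulAut (FreeGroup X)) (h : negSt Y 0 g) :
    negSt Y N (g * ((phi Y hY)⁻¹) ^ N) := by
  induction N with
  | zero => simpa using h
  | succ N ih => rw [pow_succ, ← mul_assoc]; exact negSt_phi_inv Y hY N _ ih

lemma posSt_pow_inv (N : ℕ) (g : MulAut (FreeGroup X)) (h : posSt Y N g) :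
    posSt Y 0 (g * ((phi Y hY)⁻¹) ^ N) := by
  induction N generalizing g with
  | zero => simpa using h
  | succ N ih => rw [pow_succ', ← mul_assoc]; exact ih _ (posSt_phi_inv Y hY N _ h)

lemma negSt_pow_inv (N : ℕ) (g : MulAut (FreeGroup X)) (h : negSt Y N g) :
    negSt Y 0 (g * (phi Y hY) ^ N) := by
  induction N generalizing g with
  | zero => simpa using h
  | succ N ih => rw [pow_succ', ← mul_assoc]; exact ih _ (negSt_phi Y hY N _ h)

lemma psum_append {Γ : Type} [Group Γ] (θ : Γ → Γ → ℤ) (g : Γ) (L L' : List Γ) :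
    psum θ g (L ++ L') = psum θ g L + psum θ (g * L.prod) L' := by
  induction L generalizing g with
  | nil => simp [psum]
  | cons s L ih =>
    rw [List.cons_append, psum, psum, ih, List.prod_cons, mul_assoc, add_assoc]

lemma psum_single {Γ : Type} [Group Γ] (θ : Γ → Γ → ℤ) (g s : Γ) :
    psum θ g [s] = θ g (g * s) := by
  simp [psum]

/-- the winding cochain -/
noncomputable def thY (p : ℝ × ℝ) : MulAut (FreeGroup X) → MulAut (FreeGroup X) → ℤ :=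
  fun x y => th p (PsiA Y x) (PsiA Y y)

variable (H : Set X)

/-- the twist at the edge after the block -/
noncomputable def lamC : MulAut (FreeGroup X) := tw (Y 0) (Y 2) (Y_ne Y hY (by decide)) H

/-- the twist at the edge before the block -/
noncomputable def muC : MulAut (FreeGroup X) :=
  tw (Y 0) (Y 2) (Y_ne Y hY (by decide)) (MY Y ∪ H)

/-- the block subgroup -/
noncomputable def kb : Subgroup (MulAut (FreeGroup X)) :=
  Subgroup.closure {phi Y hY, lamC Y hY H, muC Y hY H}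

lemma kb_phi : phi Y hY ∈ kb Y hY H := Subgroup.subset_closure (by simp)
lemma kb_lam : lamC Y hY H ∈ kb Y hY H := Subgroup.subset_closure (by simp)
lemma kb_mu : muC Y hY H ∈ kb Y hY H := Subgroup.subset_closure (by simp)

variable (hH : ∀ k, Y k ∉ H)

include hH in
lemma kb_le_Usub : kb Y hY H ≤ Usub (MY Y) H (Y 2) := by
  have m0 := of_mem_Fs (mem_MY0 Y)
  have h2M := Y2_not_MY Y hY
  have hHM : ∀ z ∈ H, z ∉ MY Y := fun z hz hM => by
    simp only [MY, Set.mem_insert_iff, Set.mem_singleton_iff] at hM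
    rcases hM with rfl | rfl
    · exact hH 0 hz
    · exact hH 1 hz
  have hHt : ∀ z ∈ H, z ≠ Y 2 := fun z hz h => hH 2 (h ▸ hz)
  have hMt : ∀ z ∈ MY Y, z ≠ Y 2 := fun z hz h => h2M (h ▸ hz)
  unfold kb
  rw [Subgroup.closure_le]
  intro x hx
  simp only [Set.mem_insert_iff, Set.mem_singleton_iff] at hx
  rcases hx with rfl | rfl | rfl
  · obtain ⟨p1, p2, p3⟩ := phi_Msub Y hY
    refine ⟨1, Subgroup.one_mem _, fun z z1 _ _ => p3 z z1, p1, fun b hb => ⟨_, p2 b hb,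
      MulAut.apply_inv_self _ _ _⟩, fun z hz => ?_, ?_⟩
    · rw [p3 z (hHM z hz)]; group
    · rw [p3 _ h2M]; group
  · have hfix : ∀ b ∈ Fs (MY Y), lamC Y hY H b = b := Fs_fix _ _ (fun z hz =>
      tw_other _ _ _ _ _ (hMt z hz) (fun h => hHM z h hz))
    refine ⟨of (Y 0), m0, fun z _ z2 z3 => tw_other _ _ _ _ _ z3 z2, fun b hb => ?_,
      fun b hb => ⟨b, hb, hfix b hb⟩, fun z hz => tw_S _ _ _ _ _ (hHt z hz) hz, tw_t _ _ _ _⟩
    rw [hfix b hb]; exact hb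
  · have hconj : ∀ b ∈ Fs (MY Y), muC Y hY H b = of (Y 0) * b * (of (Y 0))⁻¹ := Fs_conj _ _ _
      (fun z hz => tw_S _ _ _ _ _ (hMt z hz) (Or.inl hz))
    refine ⟨of (Y 0), m0, fun z z1 z2 z3 => tw_other _ _ _ _ _ z3 (fun h => h.elim z1 z2),
      fun b hb => ?_, fun b hb => ⟨(of (Y 0))⁻¹ * b * of (Y 0), ?_, ?_⟩,
      fun z hz => tw_S _ _ _ _ _ (hHt z hz) (Or.inr hz), tw_t _ _ _ _⟩
    · rw [hconj b hb]
      exact Subgroup.mul_mem _ (Subgroup.mul_mem _ m0 hb) (Subgroup.inv_mem _ m0)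
    · exact Subgroup.mul_mem _ (Subgroup.mul_mem _ (Subgroup.inv_mem _ m0) hb) m0
    · rw [hconj _ (Subgroup.mul_mem _ (Subgroup.mul_mem _ (Subgroup.inv_mem _ m0) hb) m0)]
      group

include hH in
/-- the key commutation -/
lemma key_commC (P : MulAut (FreeGroup X)) (hP : P ∈ Msub Y) :
    (P * lamC Y hY H * P⁻¹) * (P⁻¹ * muC Y hY H * P) =
      (P⁻¹ * muC Y hY H * P) * (P * lamC Y hY H * P⁻¹) := by
  have hP' := (Msub Y).inv_mem hP
  have m0 := of_mem_Fs (mem_MY0 Y)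
  have h2M := Y2_not_MY Y hY
  have hHM : ∀ z ∈ H, z ∉ MY Y := fun z hz hM => by
    simp only [MY, Set.mem_insert_iff, Set.mem_singleton_iff] at hM
    rcases hM with rfl | rfl
    · exact hH 0 hz
    · exact hH 1 hz
  have hHt : ∀ z ∈ H, z ≠ Y 2 := fun z hz h => hH 2 (h ▸ hz)
  have hMt : ∀ z ∈ MY Y, z ≠ Y 2 := fun z hz h => h2M (h ▸ hz)
  have hfix : ∀ b ∈ Fs (MY Y), lamC Y hY H b = b := Fs_fix _ _ (fun z hz =>
      tw_other _ _ _ _ _ (hMt z hz) (fun h => hHM z h hz))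
  have hconj : ∀ b ∈ Fs (MY Y), muC Y hY H b = of (Y 0) * b * (of (Y 0))⁻¹ := Fs_conj _ _ _
      (fun z hz => tw_S _ _ _ _ _ (hMt z hz) (Or.inl hz))
  set A := P * lamC Y hY H * P⁻¹ with hA
  set B := P⁻¹ * muC Y hY H * P with hB
  have A1 : ∀ b ∈ Fs (MY Y), A b = b := by
    intro a ha
    rw [hA, MulAut.mul_apply, MulAut.mul_apply, hfix _ (hP.2.1 a ha), MulAut.apply_inv_self]
  have A2 : ∀ z ∈ H, A (of z) = P (of (Y 0)) * of z * (P (of (Y 0)))⁻¹ := by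
    intro z hz
    have e : lamC Y hY H (of z) = of (Y 0) * of z * (of (Y 0))⁻¹ := tw_S _ _ _ _ _ (hHt z hz) hz
    rw [hA, MulAut.mul_apply, MulAut.mul_apply, hP'.2.2 z (hHM z hz), e, map_mul, map_mul,
      map_inv, hP.2.2 z (hHM z hz)]
  have A3 : A (of (Y 2)) = P (of (Y 0)) * of (Y 2) := by
    have e : lamC Y hY H (of (Y 2)) = of (Y 0) * of (Y 2) := tw_t _ _ _ _
    rw [hA, MulAut.mul_apply, MulAut.mul_apply, hP'.2.2 _ h2M, e, map_mul, hP.2.2 _ h2M]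
  have A4 : ∀ z, z ∉ MY Y → z ∉ H → z ≠ Y 2 → A (of z) = of z := by
    intro z z1 z2 z3
    have e : lamC Y hY H (of z) = of z := tw_other _ _ _ _ _ z3 z2
    rw [hA, MulAut.mul_apply, MulAut.mul_apply, hP'.2.2 z z1, e, hP.2.2 z z1]
  have B1 : ∀ b ∈ Fs (MY Y), B b = P⁻¹ (of (Y 0)) * b * (P⁻¹ (of (Y 0)))⁻¹ := by
    intro a ha
    rw [hB, MulAut.mul_apply, MulAut.mul_apply, hconj _ (hP.1 a ha), map_mul, map_mul, map_inv,
      MulAut.inv_apply_self]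
  have B2 : ∀ z ∈ H, B (of z) = P⁻¹ (of (Y 0)) * of z * (P⁻¹ (of (Y 0)))⁻¹ := by
    intro z hz
    have e : muC Y hY H (of z) = of (Y 0) * of z * (of (Y 0))⁻¹ :=
      tw_S _ _ _ _ _ (hHt z hz) (Or.inr hz)
    rw [hB, MulAut.mul_apply, MulAut.mul_apply, hP.2.2 z (hHM z hz), e, map_mul, map_mul,
      map_inv, hP'.2.2 z (hHM z hz)]
  have B3 : B (of (Y 2)) = P⁻¹ (of (Y 0)) * of (Y 2) := by
    have e : muC Y hY H (of (Y 2)) = of (Y 0) * of (Y 2) := tw_t _ _ _ _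
    rw [hB, MulAut.mul_apply, MulAut.mul_apply, hP.2.2 _ h2M, e, map_mul, hP'.2.2 _ h2M]
  have B4 : ∀ z, z ∉ MY Y → z ∉ H → z ≠ Y 2 → B (of z) = of z := by
    intro z z1 z2 z3
    have e : muC Y hY H (of z) = of z := tw_other _ _ _ _ _ z3 (fun h => h.elim z1 z2)
    rw [hB, MulAut.mul_apply, MulAut.mul_apply, hP.2.2 z z1, e, hP'.2.2 z z1]
  have mP : P (of (Y 0)) ∈ Fs (MY Y) := hP.1 _ m0
  have mP' : P⁻¹ (of (Y 0)) ∈ Fs (MY Y) := hP'.1 _ m0
  apply mulAut_ext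
  intro z
  rw [MulAut.mul_apply _ A B, MulAut.mul_apply _ B A]
  by_cases z1 : z ∈ MY Y
  · rw [A1 _ (of_mem_Fs z1), B1 _ (of_mem_Fs z1), A1]
    exact Subgroup.mul_mem _ (Subgroup.mul_mem _ mP' (of_mem_Fs z1)) (Subgroup.inv_mem _ mP')
  · by_cases z2 : z ∈ H
    · rw [A2 z z2, B2 z z2, map_mul, map_mul, map_inv, map_mul, map_mul, map_inv, A2 z z2,
        B2 z z2, A1 _ mP', B1 _ mP]
      group
    · by_cases z3 : z = Y 2
      · subst z3
        rw [A3, B3, map_mul, map_mul, A3, B3, A1 _ mP', B1 _ mP]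
        group
      · rw [A4 z z1 z2 z3, B4 z z1 z2 z3, A4 z z1 z2 z3]

/-- the closed path -/
noncomputable def bpathC (N : ℕ) : List (MulAut (FreeGroup X)) :=
  List.replicate N (phi Y hY) ++ ([lamC Y hY H] ++ (List.replicate N (phi Y hY)⁻¹ ++
    (List.replicate N (phi Y hY)⁻¹ ++ ([muC Y hY H] ++ (List.replicate N (phi Y hY) ++
      (List.replicate N (phi Y hY) ++ ([(lamC Y hY H)⁻¹] ++ (List.replicate N (phi Y hY)⁻¹ ++
        (List.replicate N (phi Y hY)⁻¹ ++ ([(muC Y hY H)⁻¹] ++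
          List.replicate N (phi Y hY)))))))))))

lemma bpathC_length (N : ℕ) : (bpathC Y hY H N).length = 8 * N + 4 := by
  simp only [bpathC, List.length_append, List.length_replicate, List.length_cons, List.length_nil]
  omega

lemma bpathC_mem (N : ℕ) (s : MulAut (FreeGroup X)) (hs : s ∈ bpathC Y hY H N) :
    s ∈ ({phi Y hY, (phi Y hY)⁻¹, lamC Y hY H, (lamC Y hY H)⁻¹, muC Y hY H, (muC Y hY H)⁻¹} :
      Set (MulAut (FreeGroup X))) := by
  simp only [bpathC, List.mem_append, List.mem_replicate, List.mem_singleton] at hs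
  simp only [Set.mem_insert_iff, Set.mem_singleton_iff]
  tauto

lemma bpathC_kb (N : ℕ) (s : MulAut (FreeGroup X)) (hs : s ∈ bpathC Y hY H N) : s ∈ kb Y hY H := by
  have h := bpathC_mem Y hY H N s hs
  simp only [Set.mem_insert_iff, Set.mem_singleton_iff] at h
  rcases h with rfl | rfl | rfl | rfl | rfl | rfl
  · exact kb_phi Y hY H
  · exact Subgroup.inv_mem _ (kb_phi Y hY H)
  · exact kb_lam Y hY H
  · exact Subgroup.inv_mem _ (kb_lam Y hY H)
  · exact kb_mu Y hY H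
  · exact Subgroup.inv_mem _ (kb_mu Y hY H)

include hH in
lemma bpathC_prod (N : ℕ) : (bpathC Y hY H N).prod = 1 := by
  have h := key_commC Y hY H hH ((phi Y hY) ^ N) (Subgroup.pow_mem _ (phi_Msub Y hY) N)
  simp only [bpathC, List.prod_append, List.prod_replicate, List.prod_cons, List.prod_nil, mul_one,
    inv_pow]
  set P := (phi Y hY) ^ N
  set R := lamC Y hY H
  set L := muC Y hY H
  have h' : (P * R * P⁻¹) * (P⁻¹ * L * P) * ((P⁻¹ * L * P) * (P * R * P⁻¹))⁻¹ = 1 := by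
    rw [h, mul_inv_cancel]
  rw [← h']
  group


lemma lamC_t : lamC Y hY H (of (Y 2)) = of (Y 0) * of (Y 2) := tw_t _ _ _ _
lemma muC_t : muC Y hY H (of (Y 2)) = of (Y 0) * of (Y 2) := tw_t _ _ _ _

include hH in
lemma PsiA_kb (g : MulAut (FreeGroup X)) (hg : g ∈ kb Y hY H) :
    PsiA Y g = ((ex (Y 0) (g (of (Y 2))) : ℝ), (ex (Y 1) (g (of (Y 2))) : ℝ)) :=
  PsiA_psub Y ∅ H (fun _ h => h) hH hY g
    (Usub_le_Psub_mid ∅ (MY Y) H (Y 2) (fun _ h => h.elim) (fun _ h => h.elim) (fun h => h)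
      (kb_le_Usub Y hY H hH hg))

include hH in
lemma St_lamC (g : MulAut (FreeGroup X)) (a b c d : ℤ) (h : St Y g a b c d) :
    St Y (g * lamC Y hY H) a b c d :=
  St_fix Y g _ a b c d h (tw_x _ _ _ _)
    (tw_other _ _ _ _ _ (Y_ne Y hY (by decide)) (hH 1))

include hH in
lemma St_lamC_inv (g : MulAut (FreeGroup X)) (a b c d : ℤ) (h : St Y g a b c d) :
    St Y (g * (lamC Y hY H)⁻¹) a b c d :=
  St_fix Y g _ a b c d h (inv_eq_of _ _ _ (tw_x _ _ _ _))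
    (inv_eq_of _ _ _ (tw_other _ _ _ _ _ (Y_ne Y hY (by decide)) (hH 1)))

lemma muC_1 : muC Y hY H (of (Y 1)) = of (Y 0) * of (Y 1) * (of (Y 0))⁻¹ :=
  tw_S _ _ _ _ _ (Y_ne Y hY (by decide)) (Or.inl (mem_MY1 Y))

lemma muC_0 : muC Y hY H (of (Y 0)) = of (Y 0) := tw_x _ _ _ _

lemma muC_inv_1 : (muC Y hY H)⁻¹ (of (Y 1)) = (of (Y 0))⁻¹ * of (Y 1) * of (Y 0) := by
  apply inv_eq_of
  rw [map_mul, map_mul, map_inv, muC_0, muC_1]; group

lemma St_muC (g : MulAut (FreeGroup X)) (a b c d : ℤ) (h : St Y g a b c d) :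
    St Y (g * muC Y hY H) a b c d := by
  obtain ⟨h1, h2, h3, h4⟩ := h
  unfold St
  rw [MulAut.mul_apply, MulAut.mul_apply, muC_0, muC_1, map_mul, map_mul, map_inv, ex_conj,
    ex_conj]
  exact ⟨h1, h2, h3, h4⟩

omit [DecidableEq X] in
lemma ex_conj' (z : X) (u w : FreeGroup X) : ex z (u⁻¹ * w * u) = ex z w := by
  rw [ex_mul, ex_mul, ex_inv]; ring

lemma St_muC_inv (g : MulAut (FreeGroup X)) (a b c d : ℤ) (h : St Y g a b c d) :
    St Y (g * (muC Y hY H)⁻¹) a b c d := by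
  obtain ⟨h1, h2, h3, h4⟩ := h
  unfold St
  rw [MulAut.mul_apply, MulAut.mul_apply, inv_eq_of _ _ _ (muC_0 Y hY H), muC_inv_1, map_mul,
    map_mul, map_inv, ex_conj', ex_conj']
  exact ⟨h1, h2, h3, h4⟩

include hH

/-- behaviour of the map to the plane along the letters -/
lemma Psi_phi (g : MulAut (FreeGroup X)) (hg : g ∈ kb Y hY H) :
    PsiA Y (g * phi Y hY) = PsiA Y g := by
  rw [PsiA_kb Y hY H hH g hg, PsiA_kb Y hY H hH (g * phi Y hY)
    (Subgroup.mul_mem _ hg (kb_phi Y hY H)), MulAut.mul_apply, phi_2]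

lemma Psi_phi_inv (g : MulAut (FreeGroup X)) (hg : g ∈ kb Y hY H) :
    PsiA Y (g * (phi Y hY)⁻¹) = PsiA Y g := by
  have := Psi_phi Y hY H hH (g * (phi Y hY)⁻¹) (Subgroup.mul_mem _ hg (Subgroup.inv_mem _
    (kb_phi Y hY H)))
  rw [inv_mul_cancel_right] at this
  exact this.symm

lemma Psi_lamC (g : MulAut (FreeGroup X)) (hg : g ∈ kb Y hY H) (a b c d : ℤ) (h : St Y g a b c d) :
    PsiA Y (g * lamC Y hY H) = PsiA Y g + ((a : ℝ), (b : ℝ)) := by
  rw [PsiA_kb Y hY H hH g hg, PsiA_kb Y hY H hH (g * lamC Y hY H)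
    (Subgroup.mul_mem _ hg (kb_lam Y hY H)), MulAut.mul_apply, lamC_t, map_mul,
    ex_mul, ex_mul, h.1, h.2.1]
  push_cast
  ext <;> simp [add_comm]

lemma Psi_muC (g : MulAut (FreeGroup X)) (hg : g ∈ kb Y hY H) (a b c d : ℤ) (h : St Y g a b c d) :
    PsiA Y (g * muC Y hY H) = PsiA Y g + ((a : ℝ), (b : ℝ)) := by
  rw [PsiA_kb Y hY H hH g hg, PsiA_kb Y hY H hH (g * muC Y hY H)
    (Subgroup.mul_mem _ hg (kb_mu Y hY H)), MulAut.mul_apply, muC_t, map_mul,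
    ex_mul, ex_mul, h.1, h.2.1]
  push_cast
  ext <;> simp [add_comm]

lemma Psi_lamC_inv (g : MulAut (FreeGroup X)) (hg : g ∈ kb Y hY H) (a b c d : ℤ)
    (h : St Y g a b c d) : PsiA Y (g * (lamC Y hY H)⁻¹) = PsiA Y g - ((a : ℝ), (b : ℝ)) := by
  have := Psi_lamC Y hY H hH (g * (lamC Y hY H)⁻¹) (Subgroup.mul_mem _ hg (Subgroup.inv_mem _
    (kb_lam Y hY H))) a b c d (St_lamC_inv Y hY H hH g a b c d h)
  rw [inv_mul_cancel_right] at this
  rw [this]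
  simp

lemma Psi_muC_inv (g : MulAut (FreeGroup X)) (hg : g ∈ kb Y hY H) (a b c d : ℤ)
    (h : St Y g a b c d) : PsiA Y (g * (muC Y hY H)⁻¹) = PsiA Y g - ((a : ℝ), (b : ℝ)) := by
  have := Psi_muC Y hY H hH (g * (muC Y hY H)⁻¹) (Subgroup.mul_mem _ hg (Subgroup.inv_mem _
    (kb_mu Y hY H))) a b c d (St_muC_inv Y hY H g a b c d h)
  rw [inv_mul_cancel_right] at this
  rw [this]
  simp

lemma psum_phi (p : ℝ × ℝ) (N : ℕ) (g : MulAut (FreeGroup X)) (hg : g ∈ kb Y hY H) :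
    psum (thY Y p) g (List.replicate N (phi Y hY)) = 0 := by
  induction N generalizing g with
  | zero => simp [psum]
  | succ N ih =>
    rw [List.replicate_succ, psum, ih _ (Subgroup.mul_mem _ hg (kb_phi Y hY H)), thY,
      Psi_phi Y hY H hH g hg, th_self, add_zero]

lemma psum_phi_inv (p : ℝ × ℝ) (N : ℕ) (g : MulAut (FreeGroup X)) (hg : g ∈ kb Y hY H) :
    psum (thY Y p) g (List.replicate N (phi Y hY)⁻¹) = 0 := by
  induction N generalizing g with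
  | zero => simp [psum]
  | succ N ih =>
    rw [List.replicate_succ, psum, ih _ (Subgroup.mul_mem _ hg (Subgroup.inv_mem _
      (kb_phi Y hY H))), thY, Psi_phi_inv Y hY H hH g hg, th_self, add_zero]

lemma Psi_pow (N : ℕ) (g : MulAut (FreeGroup X)) (hg : g ∈ kb Y hY H) :
    PsiA Y (g * (phi Y hY) ^ N) = PsiA Y g := by
  induction N with
  | zero => simp
  | succ N ih =>
    rw [pow_succ, ← mul_assoc, Psi_phi Y hY H hH _ (Subgroup.mul_mem _ hg (Subgroup.pow_mem _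
      (kb_phi Y hY H) N)), ih]

lemma Psi_pow_inv (N : ℕ) (g : MulAut (FreeGroup X)) (hg : g ∈ kb Y hY H) :
    PsiA Y (g * ((phi Y hY)⁻¹) ^ N) = PsiA Y g := by
  induction N with
  | zero => simp
  | succ N ih =>
    rw [pow_succ, ← mul_assoc, Psi_phi_inv Y hY H hH _ (Subgroup.mul_mem _ hg (Subgroup.pow_mem _
      (Subgroup.inv_mem _ (kb_phi Y hY H)) N)), ih]

/-- The sum of the winding cochain along the closed path is the winding number of a
parallelogram. -/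
lemma psum_bpathC (p : ℝ × ℝ) (N : ℕ) :
    psum (thY Y p) 1 (bpathC Y hY H N) =
      th p (0, 0) (((ab N).1 : ℝ), ((ab N).2 : ℝ)) +
      th p (((ab N).1 : ℝ), ((ab N).2 : ℝ))
        ((((ab N).1 : ℝ), ((ab N).2 : ℝ)) + ((((ab N).1 + (ab N).2 : ℤ) : ℝ), ((-(ab N).2 : ℤ) : ℝ))) +
      th p ((((ab N).1 : ℝ), ((ab N).2 : ℝ)) +
        ((((ab N).1 + (ab N).2 : ℤ) : ℝ), ((-(ab N).2 : ℤ) : ℝ)))
        ((((ab N).1 + (ab N).2 : ℤ) : ℝ), ((-(ab N).2 : ℤ) : ℝ)) +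
      th p ((((ab N).1 + (ab N).2 : ℤ) : ℝ), ((-(ab N).2 : ℤ) : ℝ)) (0, 0) := by
  set V1 : ℝ × ℝ := (((ab N).1 : ℝ), ((ab N).2 : ℝ)) with hV1
  set V2 : ℝ × ℝ := ((((ab N).1 + (ab N).2 : ℤ) : ℝ), ((-(ab N).2 : ℤ) : ℝ)) with hV2
  have m := fun (g h : MulAut (FreeGroup X)) (a : g ∈ kb Y hY H) (b : h ∈ kb Y hY H) =>
    Subgroup.mul_mem _ a b
  have pm : ∀ N, (phi Y hY) ^ N ∈ kb Y hY H := fun N => Subgroup.pow_mem _ (kb_phi Y hY H) N
  have pim : ∀ N, ((phi Y hY)⁻¹) ^ N ∈ kb Y hY H := fun N =>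
    Subgroup.pow_mem _ (Subgroup.inv_mem _ (kb_phi Y hY H)) N
  have hs0 : posSt Y 0 (1 : MulAut (FreeGroup X)) := by
    unfold posSt St
    simp only [MulAut.one_apply, ab]
    refine ⟨ex_letter_self _, ex_letter _ _ (Y_ne Y hY (by decide)),
      ex_letter _ _ (Y_ne Y hY (by decide)), ?_⟩
    rw [ex_letter_self]; rfl
  -- vertices
  set g1 := (1 : MulAut (FreeGroup X)) * (phi Y hY) ^ N with hg1
  set g2 := g1 * lamC Y hY H with hg2
  set g3 := g2 * ((phi Y hY)⁻¹) ^ N with hg3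
  set g4 := g3 * ((phi Y hY)⁻¹) ^ N with hg4
  set g5 := g4 * muC Y hY H with hg5
  set g6 := g5 * (phi Y hY) ^ N with hg6
  set g7 := g6 * (phi Y hY) ^ N with hg7
  set g8 := g7 * (lamC Y hY H)⁻¹ with hg8
  set g9 := g8 * ((phi Y hY)⁻¹) ^ N with hg9
  set g10 := g9 * ((phi Y hY)⁻¹) ^ N with hg10
  set g11 := g10 * (muC Y hY H)⁻¹ with hg11
  have b0 : (1 : MulAut (FreeGroup X)) ∈ kb Y hY H := Subgroup.one_mem _
  have b1 : g1 ∈ kb Y hY H := m _ _ b0 (pm N)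
  have b2 : g2 ∈ kb Y hY H := m _ _ b1 (kb_lam Y hY H)
  have b3 : g3 ∈ kb Y hY H := m _ _ b2 (pim N)
  have b4 : g4 ∈ kb Y hY H := m _ _ b3 (pim N)
  have b5 : g5 ∈ kb Y hY H := m _ _ b4 (kb_mu Y hY H)
  have b6 : g6 ∈ kb Y hY H := m _ _ b5 (pm N)
  have b7 : g7 ∈ kb Y hY H := m _ _ b6 (pm N)
  have b8 : g8 ∈ kb Y hY H := m _ _ b7 (Subgroup.inv_mem _ (kb_lam Y hY H))
  have b9 : g9 ∈ kb Y hY H := m _ _ b8 (pim N)
  have b10 : g10 ∈ kb Y hY H := m _ _ b9 (pim N)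
  have b11 : g11 ∈ kb Y hY H := m _ _ b10 (Subgroup.inv_mem _ (kb_mu Y hY H))
  -- states
  have s1 : posSt Y N g1 := posSt_pow Y hY N _ hs0
  have s2 : posSt Y N g2 := St_lamC Y hY H hH g1 _ _ _ _ s1
  have s3 : posSt Y 0 g3 := posSt_pow_inv Y hY N _ s2
  have s4 : negSt Y N g4 := negSt_pow Y hY N _ ((pos_neg_zero Y g3).1 s3)
  have s5 : negSt Y N g5 := St_muC Y hY H g4 _ _ _ _ s4
  have s6 : negSt Y 0 g6 := negSt_pow_inv Y hY N _ s5
  have s7 : posSt Y N g7 := posSt_pow Y hY N _ ((pos_neg_zero Y g6).2 s6)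
  have s8 : posSt Y N g8 := St_lamC_inv Y hY H hH g7 _ _ _ _ s7
  have s9 : posSt Y 0 g9 := posSt_pow_inv Y hY N _ s8
  have s10 : negSt Y N g10 := negSt_pow Y hY N _ ((pos_neg_zero Y g9).1 s9)
  -- values
  have p0 : PsiA Y (1 : MulAut (FreeGroup X)) = (0, 0) := by
    rw [PsiA_kb Y hY H hH 1 (Subgroup.one_mem _), MulAut.one_apply,
      ex_letter _ _ (Y_ne Y hY (by decide)), ex_letter _ _ (Y_ne Y hY (by decide))]
    simp
  have p1 : PsiA Y g1 = (0, 0) := by rw [hg1, Psi_pow Y hY H hH N _ b0, p0]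
  have p2 : PsiA Y g2 = V1 := by
    rw [hg2, Psi_lamC Y hY H hH g1 b1 _ _ _ _ s1, p1, hV1]
    simp
  have p4 : PsiA Y g4 = V1 := by
    rw [hg4, Psi_pow_inv Y hY H hH N _ b3, hg3, Psi_pow_inv Y hY H hH N _ b2, p2]
  have p5 : PsiA Y g5 = V1 + V2 := by
    rw [hg5, Psi_muC Y hY H hH g4 b4 _ _ _ _ s4, p4]
  have p7 : PsiA Y g7 = V1 + V2 := by
    rw [hg7, Psi_pow Y hY H hH N _ b6, hg6, Psi_pow Y hY H hH N _ b5, p5]
  have p8 : PsiA Y g8 = V2 := by
    rw [hg8, Psi_lamC_inv Y hY H hH g7 b7 _ _ _ _ s7, p7, ← hV1]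
    simp
  have p10 : PsiA Y g10 = V2 := by
    rw [hg10, Psi_pow_inv Y hY H hH N _ b9, hg9, Psi_pow_inv Y hY H hH N _ b8, p8]
  have p11 : PsiA Y g11 = (0, 0) := by
    rw [hg11, Psi_muC_inv Y hY H hH g10 b10 _ _ _ _ s10, p10, ← hV2, sub_self]
    rfl
  unfold bpathC
  simp only [psum_append, List.prod_replicate, List.prod_cons, List.prod_nil, mul_one]
  rw [psum_phi Y hY H hH p N 1 b0, ← hg1, psum_single, ← hg2, psum_phi_inv Y hY H hH p N g2 b2, ← hg3,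
    psum_phi_inv Y hY H hH p N g3 b3, ← hg4, psum_single, ← hg5, psum_phi Y hY H hH p N g5 b5, ← hg6,
    psum_phi Y hY H hH p N g6 b6, ← hg7, psum_single, ← hg8, psum_phi_inv Y hY H hH p N g8 b8, ← hg9,
    psum_phi_inv Y hY H hH p N g9 b9, ← hg10, psum_single, ← hg11, psum_phi Y hY H hH p N g11 b11]
  simp only [thY, p1, p2, p4, p5, p7, p8, p10, p11]
  ring

end Paths

end Pool.Agent.H.MP_e5d137_al
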