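import Mathlib
import Pool.Agent.H.MP_e5d137_al.Circle3

/-!
# The lower bound for the automorphism groups of free groups
-/

namespace Pool.Agent.H.MP_e5d137_al

open MeasureTheory
open scoped ENNReal

section Region

lemma ab_bounds (n : ℕ) : (2 : ℤ) ^ n ≤ (ab (n + 1)).1 ∧ (2 : ℤ) ^ n ≤ (ab (n + 1)).2 := by
  induction n with
  | zero => simp [ab]
  | succ n ih =>
    obtain ⟨h1, h2⟩ := ih
    have e : ab (n + 1 + 1) = ((ab (n + 1)).1 + (ab (n + 1)).2,
      (ab (n + 1)).1 + 2 * (ab (n + 1)).2) := rfl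
    rw [e, pow_succ]
    have h3 : (0 : ℤ) < 2 ^ n := by positivity
    constructor <;> dsimp only <;> linarith

/-- the region -/
def reg (n : ℕ) : Set (ℝ × ℝ) :=
  Set.Ico (((ab (n + 1)).1 : ℝ) / 2) ((ab (n + 1)).1 : ℝ) ×ˢ
    Set.Ico (0 : ℝ) (((ab (n + 1)).2 : ℝ) / 2)

lemma reg_volume (n : ℕ) : ENNReal.ofReal (1 / 4 * 4 ^ n) ≤ volume (reg n) := by
  obtain ⟨h1, h2⟩ := ab_bounds n
  have h1' : (2 : ℝ) ^ n ≤ ((ab (n + 1)).1 : ℝ) := by exact_mod_cast h1
  have h2' : (2 : ℝ) ^ n ≤ ((ab (n + 1)).2 : ℝ) := by exact_mod_cast h2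
  have h3 : (0 : ℝ) < 2 ^ n := by positivity
  rw [reg, Measure.volume_eq_prod, Measure.prod_prod, Real.volume_Ico, Real.volume_Ico,
    ← ENNReal.ofReal_mul (by linarith)]
  apply ENNReal.ofReal_le_ofReal
  have h4 : (4 : ℝ) ^ n = 2 ^ n * 2 ^ n := by
    rw [← mul_pow]; norm_num
  rw [h4]
  nlinarith

lemma reg_wind (n : ℕ) (p : ℝ × ℝ) (hp : p ∈ reg n) :
    th p (0, 0) (((ab (n + 1)).1 : ℝ), ((ab (n + 1)).2 : ℝ)) +
      th p (((ab (n + 1)).1 : ℝ), ((ab (n + 1)).2 : ℝ))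
        ((((ab (n + 1)).1 : ℝ), ((ab (n + 1)).2 : ℝ)) +
          ((((ab (n + 1)).1 + (ab (n + 1)).2 : ℤ) : ℝ), ((-(ab (n + 1)).2 : ℤ) : ℝ))) +
      th p ((((ab (n + 1)).1 : ℝ), ((ab (n + 1)).2 : ℝ)) +
        ((((ab (n + 1)).1 + (ab (n + 1)).2 : ℤ) : ℝ), ((-(ab (n + 1)).2 : ℤ) : ℝ)))
        ((((ab (n + 1)).1 + (ab (n + 1)).2 : ℤ) : ℝ), ((-(ab (n + 1)).2 : ℤ) : ℝ)) +
      th p ((((ab (n + 1)).1 + (ab (n + 1)).2 : ℤ) : ℝ), ((-(ab (n + 1)).2 : ℤ) : ℝ)) (0, 0)
      = 1 := by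
  classical
  obtain ⟨h1, h2⟩ := ab_bounds n
  have h1' : (2 : ℝ) ^ n ≤ ((ab (n + 1)).1 : ℝ) := by exact_mod_cast h1
  have h2' : (2 : ℝ) ^ n ≤ ((ab (n + 1)).2 : ℝ) := by exact_mod_cast h2
  have h3 : (0 : ℝ) < 2 ^ n := by positivity
  obtain ⟨⟨p1, p2⟩, ⟨p3, p4⟩⟩ := hp
  push_cast
  set a : ℝ := ((ab (n + 1)).1 : ℝ) with ha
  set b : ℝ := ((ab (n + 1)).2 : ℝ) with hb
  have a0 : 0 < a := by linarith
  have b0 : 0 < b := by linarith
  have t1 : tp p (0, 0) (a, b) = 1 := by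
    unfold tp
    rw [if_pos]
    refine ⟨by simp only; linarith, by simpa using p2, ?_⟩
    simp only [sub_zero]
    nlinarith
  have t2 : tp p (a, b) (0, 0) = 0 := by
    unfold tp
    rw [if_neg]
    rintro ⟨h, -⟩
    simp only at h
    linarith
  have t3 : tp p (a, b) ((a, b) + (a + b, -b)) = 0 := by
    unfold tp
    rw [if_neg]
    rintro ⟨h, -⟩
    simp only at h
    linarith
  have t4 : tp p ((a, b) + (a + b, -b)) (a, b) = 0 := by
    unfold tp
    rw [if_neg]
    rintro ⟨h, -⟩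
    simp only [Prod.fst_add] at h
    linarith
  have t5 : tp p ((a, b) + (a + b, -b)) (a + b, -b) = 0 := by
    unfold tp
    rw [if_neg]
    rintro ⟨h, -⟩
    simp only [Prod.fst_add] at h
    linarith
  have t6 : tp p (a + b, -b) ((a, b) + (a + b, -b)) = 0 := by
    unfold tp
    rw [if_neg]
    rintro ⟨h, -⟩
    simp only at h
    linarith
  have t7 : tp p (a + b, -b) (0, 0) = 0 := by
    unfold tp
    rw [if_neg]
    rintro ⟨h, -⟩
    simp only at h
    linarith
  have t8 : tp p (0, 0) (a + b, -b) = 0 := by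
    unfold tp
    rw [if_neg]
    rintro ⟨-, -, h⟩
    simp only [sub_zero] at h
    have e1 : 0 ≤ p.2 * (a + b) := mul_nonneg p3 (by linarith)
    have e2 : p.1 * (-b) ≤ 0 := by
      have : 0 ≤ p.1 * b := mul_nonneg (by linarith) b0.le
      linarith
    linarith
  unfold th
  rw [t1, t2, t3, t4, t5, t6, t7, t8]
  norm_num

end Region

section Data

variable {m n : ℕ} (hn : 2 * m + 1 ≤ n)

/-- the letters of the block `j` -/
def Yc (j : Fin m) : Fin 3 → Fin n :=
  ![⟨2 * j.1, by omega⟩, ⟨2 * j.1 + 1, by omega⟩, ⟨2 * m, by omega⟩]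

/-- the letters before the block -/
def Lset (n : ℕ) (j : Fin m) : Set (Fin n) := {z | z.1 < 2 * j.1}

/-- the letters between the block and the last letter -/
def Hset (n : ℕ) (j : Fin m) : Set (Fin n) := {z | 2 * j.1 + 2 ≤ z.1 ∧ z.1 < 2 * m}

lemma Yc_val (j : Fin m) : ((Yc hn j 0).1 = 2 * j.1) ∧ ((Yc hn j 1).1 = 2 * j.1 + 1) ∧
    ((Yc hn j 2).1 = 2 * m) := ⟨rfl, rfl, rfl⟩

lemma Yc_inj (j : Fin m) : Function.Injective (Yc hn j) := by
  have hj := j.2
  obtain ⟨h0, h1, h2⟩ := Yc_val hn j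
  intro a b h
  have h' : (Yc hn j a).1 = (Yc hn j b).1 := by rw [h]
  fin_cases a <;> fin_cases b <;> simp only [Fin.zero_eta, Fin.mk_one, Fin.reduceFinMk] at h' ⊢ <;>
    simp only [h0, h1, h2] at h' <;> omega

lemma mem_MYc (j : Fin m) (z : Fin n) : z ∈ MY (Yc hn j) ↔ z.1 = 2 * j.1 ∨ z.1 = 2 * j.1 + 1 := by
  unfold MY
  simp only [Set.mem_insert_iff, Set.mem_singleton_iff, Fin.ext_iff]
  rfl

lemma Yc_not_L (j : Fin m) (k : Fin 3) : Yc hn j k ∉ Lset n j := by
  have hj := j.2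
  obtain ⟨h0, h1, h2⟩ := Yc_val hn j
  intro h
  have h' : (Yc hn j k).1 < 2 * j.1 := h
  revert h'
  refine fin3_cases (P := fun k => (Yc hn j k).1 < 2 * j.1 → False) ?_ ?_ ?_ k
  · intro h'; rw [h0] at h'; omega
  · intro h'; rw [h1] at h'; omega
  · intro h'; rw [h2] at h'; omega

lemma Yc_not_H (j : Fin m) (k : Fin 3) : Yc hn j k ∉ Hset n j := by
  have hj := j.2
  obtain ⟨h0, h1, h2⟩ := Yc_val hn j
  rintro ⟨h, h'⟩
  revert h h'
  refine fin3_cases (P := fun k => 2 * j.1 + 2 ≤ (Yc hn j k).1 → (Yc hn j k).1 < 2 * m → False)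
    ?_ ?_ ?_ k
  · intro h h'; rw [h0] at h; omega
  · intro h h'; rw [h1] at h; omega
  · intro h h'; rw [h2] at h'; omega

/-- the block subgroups -/
noncomputable def Kc (j : Fin m) : Subgroup (MulAut (FreeGroup (Fin n))) :=
  kb (Yc hn j) (Yc_inj hn j) (Hset n j)

lemma Kc_le_Usub (j : Fin m) : Kc hn j ≤ Usub (MY (Yc hn j)) (Hset n j) (Yc hn j 2) :=
  kb_le_Usub _ _ _ (Yc_not_H hn j)

lemma Kc_le_Psub (i j : Fin m) :
    Kc hn i ≤ Psub (Lset n j) (MY (Yc hn j)) (Hset n j) (Yc hn j 2) := by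
  refine (Kc_le_Usub hn i).trans ?_
  have h2 : Yc hn i 2 = Yc hn j 2 := rfl
  rw [h2]
  have hi := i.2
  have hj := j.2
  rcases lt_trichotomy i.1 j.1 with hij | hij | hij
  · apply Usub_le_Psub_low
    · intro z hz
      rw [mem_MYc] at hz
      change z.1 < 2 * j.1
      omega
    · intro z hz
      rw [mem_MYc] at hz
      change 2 * i.1 + 2 ≤ z.1 ∧ z.1 < 2 * m
      omega
    · rintro z ⟨h1, h3⟩
      change 2 * i.1 + 2 ≤ z.1 ∧ z.1 < 2 * m
      omega
    · exact Yc_not_L hn j 2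
  · have : i = j := Fin.ext hij
    subst this
    apply Usub_le_Psub_mid
    · intro z hz hM
      rw [mem_MYc] at hM
      have h3 : z.1 < 2 * i.1 := hz
      omega
    · rintro z hz ⟨h1, -⟩
      have h3 : z.1 < 2 * i.1 := hz
      omega
    · exact Yc_not_L hn i 2
  · apply Usub_le_Psub_high
    · intro z hz
      rw [mem_MYc] at hz
      change 2 * j.1 + 2 ≤ z.1 ∧ z.1 < 2 * m
      omega
    · intro z hz hM
      rw [mem_MYc] at hM
      have h3 : z.1 < 2 * j.1 := hz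
      omega
    · rintro z hz ⟨h1, -⟩
      have h3 : z.1 < 2 * j.1 := hz
      omega
    · intro z hz hM
      rw [mem_MYc] at hz hM
      omega
    · rintro z hz ⟨h1, -⟩
      rw [mem_MYc] at hz
      omega
    · exact Yc_not_L hn j 2
    · exact Y2_not_MY _ (Yc_inj hn j)
    · exact Yc_not_H hn j 2

lemma sup_le_Psub (j : Fin m) :
    (⨆ i, Kc hn i) ≤ Psub (Lset n j) (MY (Yc hn j)) (Hset n j) (Yc hn j 2) :=
  iSup_le (fun i => Kc_le_Psub hn i j)

lemma Kc_comm_lt (i j : Fin m) (hij : i.1 < j.1) (a : MulAut (FreeGroup (Fin n)))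
    (ha : a ∈ Kc hn i) (b : MulAut (FreeGroup (Fin n))) (hb : b ∈ Kc hn j) : a * b = b * a := by
  have hi := i.2
  have hj := j.2
  have hb' := Kc_le_Usub hn j hb
  have h2 : Yc hn j 2 = Yc hn i 2 := rfl
  rw [h2] at hb'
  refine Usub_comm _ _ _ _ _ ?_ ?_ ?_ ?_ ?_ a (Kc_le_Usub hn i ha) b hb' ?_
  · intro z hz
    rw [mem_MYc] at hz
    change 2 * i.1 + 2 ≤ z.1 ∧ z.1 < 2 * m
    omega
  · rintro z ⟨h1, h3⟩
    change 2 * i.1 + 2 ≤ z.1 ∧ z.1 < 2 * m
    omega
  · intro z hz hM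
    rw [mem_MYc] at hz hM
    omega
  · rintro z hz ⟨h1, -⟩
    rw [mem_MYc] at hz
    omega
  · exact Y2_not_MY _ (Yc_inj hn i)
  · exact Yc_not_H hn i 2

lemma Kc_comm (i j : Fin m) (hij : i ≠ j) (a : MulAut (FreeGroup (Fin n)))
    (ha : a ∈ Kc hn i) (b : MulAut (FreeGroup (Fin n))) (hb : b ∈ Kc hn j) : a * b = b * a := by
  rcases lt_trichotomy i.1 j.1 with h | h | h
  · exact Kc_comm_lt hn i j h a ha b hb
  · exact absurd (Fin.ext h) hij
  · exact (Kc_comm_lt hn j i h b hb a ha).symm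

lemma PsiA_Kc (i j : Fin m) (hij : i ≠ j) (g : MulAut (FreeGroup (Fin n)))
    (hg : g ∈ ⨆ i, Kc hn i) (a : MulAut (FreeGroup (Fin n))) (ha : a ∈ Kc hn i) :
    PsiA (Yc hn j) (g * a) = PsiA (Yc hn j) g := by
  have hi := i.2
  have hj := j.2
  have hg' := sup_le_Psub hn j hg
  have ha' := Kc_le_Psub hn i j ha
  rw [PsiA_psub _ _ _ (Yc_not_L hn j) (Yc_not_H hn j) (Yc_inj hn j) g hg',
    PsiA_psub _ _ _ (Yc_not_L hn j) (Yc_not_H hn j) (Yc_inj hn j) (g * a)
      (Subgroup.mul_mem _ hg' ha')]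
  obtain ⟨c, hc, -, -, -, -, ht⟩ := Kc_le_Usub hn i ha
  have ht' : a (FreeGroup.of (Yc hn j 2)) = c * FreeGroup.of (Yc hn j 2) := ht
  have hc' : c ∈ Fs (Lset n j) ∨ c ∈ Fs (Hset n j) := by
    rcases lt_trichotomy i.1 j.1 with h | h | h
    · left
      refine Fs_mono ?_ hc
      intro z hz
      rw [mem_MYc] at hz
      change z.1 < 2 * j.1
      omega
    · exact absurd (Fin.ext h) hij
    · right
      refine Fs_mono ?_ hc
      intro z hz
      rw [mem_MYc] at hz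
      change 2 * j.1 + 2 ≤ z.1 ∧ z.1 < 2 * m
      omega
  have e := fun k => ex_psub_low _ _ _ (Yc_not_L hn j) (Yc_not_H hn j) g hg' c hc' k
  rw [MulAut.mul_apply, ht', map_mul, ex_mul, ex_mul, e 0, e 1, zero_add, zero_add]

variable {Γ : Type} [Group Γ] (π : MulAut (FreeGroup (Fin n)) →* Γ)
  (hs : Function.Surjective π)
  (hk : ∀ g g' : MulAut (FreeGroup (Fin n)), π g = π g' → ∃ u, g' = g * MulAut.conj u)

/-- the map to the plane on the quotient group -/
noncomputable def PsiQ (j : Fin m) (γ : Γ) : ℝ × ℝ := PsiA (Yc hn j) (Function.surjInv hs γ)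

include hk in
lemma PsiQ_apply (j : Fin m) (g : MulAut (FreeGroup (Fin n))) :
    PsiQ hn π hs j (π g) = PsiA (Yc hn j) g := by
  unfold PsiQ
  have h := Function.surjInv_eq hs (π g)
  obtain ⟨u, hu⟩ := hk g _ h.symm
  rw [hu, PsiA_conj]

lemma psum_map (θ : Γ → Γ → ℤ) (g : MulAut (FreeGroup (Fin n)))
    (L : List (MulAut (FreeGroup (Fin n)))) :
    psum θ (π g) (L.map π) = psum (fun x y => θ (π x) (π y)) g L := by
  induction L generalizing g with
  | nil => simp [psum]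
  | cons s L ih => rw [List.map_cons, psum, psum, ← map_mul, ih]

/-- the data for the lower bound -/
noncomputable def mkData : LBData Γ m where
  Psi := PsiQ hn π hs
  harea := by
    classical
    intro T hT
    have h1 : ∀ j : Fin m, ∃ C : ℝ, ∀ g, ∀ s ∈ Function.surjInv hs '' T,
        ∀ t ∈ Function.surjInv hs '' T,
        |area2 (PsiA (Yc hn j) g) (PsiA (Yc hn j) (g * s)) (PsiA (Yc hn j) (g * t))| ≤ C :=
      fun j => PsiA_area (Yc hn j) (Yc_inj hn j) _ (hT.image _)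
    choose C hC using h1
    refine ⟨∑ j, |C j|, fun j γ s hsT t htT => ?_⟩
    have h2 := hC j (Function.surjInv hs γ) _ ⟨s, hsT, rfl⟩ _ ⟨t, htT, rfl⟩
    have e1 : PsiQ hn π hs j γ = PsiA (Yc hn j) (Function.surjInv hs γ) := rfl
    have e2 : PsiQ hn π hs j (γ * s) =
        PsiA (Yc hn j) (Function.surjInv hs γ * Function.surjInv hs s) := by
      rw [← PsiQ_apply hn π hs hk, map_mul, Function.surjInv_eq hs, Function.surjInv_eq hs]
    have e3 : PsiQ hn π hs j (γ * t) =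
        PsiA (Yc hn j) (Function.surjInv hs γ * Function.surjInv hs t) := by
      rw [← PsiQ_apply hn π hs hk, map_mul, Function.surjInv_eq hs, Function.surjInv_eq hs]
    rw [e1, e2, e3]
    refine h2.trans ((le_abs_self _).trans ?_)
    exact Finset.single_le_sum (f := fun j => |C j|) (fun _ _ => abs_nonneg _)
      (Finset.mem_univ j)
  K := fun j => (Kc hn j).map π
  hcomm := by
    rintro i j hij _ ⟨a, ha, rfl⟩ _ ⟨b, hb, rfl⟩
    rw [← map_mul, ← map_mul, Kc_comm hn i j hij a ha b hb]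
  hinv := by
    intro j γ hγ i hij _ ha
    obtain ⟨a, ha, rfl⟩ := ha
    rw [← Subgroup.map_iSup] at hγ
    obtain ⟨g, hg, rfl⟩ := hγ
    rw [← map_mul, PsiQ_apply hn π hs hk, PsiQ_apply hn π hs hk]
    exact PsiA_Kc hn i j hij g hg a ha
  path := fun N j => (bpathC (Yc hn j) (Yc_inj hn j) (Hset n j) (N + 1)).map π
  S := ⋃ j : Fin m, π '' {phi (Yc hn j) (Yc_inj hn j), (phi (Yc hn j) (Yc_inj hn j))⁻¹,
    lamC (Yc hn j) (Yc_inj hn j) (Hset n j), (lamC (Yc hn j) (Yc_inj hn j) (Hset n j))⁻¹,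
    muC (Yc hn j) (Yc_inj hn j) (Hset n j), (muC (Yc hn j) (Yc_inj hn j) (Hset n j))⁻¹}
  hS := by
    apply Set.finite_iUnion
    intro j
    apply Set.Finite.image
    exact Set.toFinite _
  path_S := by
    intro N j s hsm
    obtain ⟨s', hs', rfl⟩ := List.mem_map.1 hsm
    rw [Set.mem_iUnion]
    exact ⟨j, s', bpathC_mem _ _ _ _ s' hs', rfl⟩
  path_K := by
    intro N j s hsm
    obtain ⟨s', hs', rfl⟩ := List.mem_map.1 hsm
    exact ⟨s', bpathC_kb _ _ _ _ s' hs', rfl⟩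
  path_closed := by
    intro N j
    rw [← map_list_prod, bpathC_prod _ _ _ (Yc_not_H hn j), map_one]
  A := 12
  path_len := by
    intro N j
    rw [List.length_map, bpathC_length]
    omega
  R := reg
  c0 := 1 / 4
  hc0 := by norm_num
  hR := reg_volume
  hwind := by
    intro N p hp j
    have h1 : psum (fun x y => th p (PsiQ hn π hs j x) (PsiQ hn π hs j y)) 1
        ((bpathC (Yc hn j) (Yc_inj hn j) (Hset n j) (N + 1)).map π) =
        psum (thY (Yc hn j) p) 1 (bpathC (Yc hn j) (Yc_inj hn j) (Hset n j) (N + 1)) := by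
      rw [← map_one π, psum_map]
      congr 1
      funext x y
      rw [PsiQ_apply hn π hs hk, PsiQ_apply hn π hs hk]
      rfl
    rw [h1, psum_bpathC _ _ _ (Yc_not_H hn j)]
    exact reg_wind N p hp

end Data

section Growth

/-- from the cycles to the growth of the isoperimetric function -/
lemma dominated_of {Γ : Type} [Group Γ] (K : GComplex Γ) (m : ℕ) (hm : 1 ≤ m) (C : ℕ)
    (h : ∀ n : ℕ, ∃ z : K.cell m →₀ ℤ, (∃ b, K.bd m b = z) ∧ mass z ≤ C * (n + 1) ^ m ∧
      ∀ c, K.bd m c = z → 4 ^ n ≤ C * (mass c + (n + 1) ^ m)) :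
    Dominated (expRoot m) (fun L => (K.iso m L : ℝ≥0∞)) := by
  -- the constant
  set D : ℕ := (C + 1) * 3 ^ m with hD
  refine ⟨D, by positivity, fun L => ?_⟩
  -- choice of n
  set r : ℝ := (L : ℝ) ^ ((1 : ℝ) / m) with hr
  have hr0 : 0 ≤ r := by positivity
  set n : ℕ := ⌈r⌉₊ with hn
  have hm0 : (m : ℝ) ≠ 0 := by
    have : 0 < m := hm
    positivity
  have hrm : r ^ m = L := by
    rw [hr, ← Real.rpow_natCast, ← Real.rpow_mul (by positivity), one_div, inv_mul_cancel₀ hm0,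
      Real.rpow_one]
  have hnr : (n : ℝ) < r + 1 := Nat.ceil_lt_add_one hr0
  have hrn : r ≤ n := Nat.le_ceil r
  -- (n+1)^m ≤ 3^m (L+1)
  have hpow : (n + 1) ^ m ≤ 3 ^ m * (L + 1) := by
    have h1 : ((n : ℝ) + 1) ^ m ≤ 3 ^ m * (L + 1) := by
      by_cases hr1 : r ≤ 1
      · have hn1 : (n : ℝ) + 1 ≤ 3 := by linarith
        calc ((n : ℝ) + 1) ^ m ≤ 3 ^ m := by gcongr
          _ ≤ 3 ^ m * (L + 1) := by
            have : (0 : ℝ) ≤ 3 ^ m * L := by positivity
            linarith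
      · push Not at hr1
        calc ((n : ℝ) + 1) ^ m ≤ (3 * r) ^ m := by
              apply pow_le_pow_left₀ (by positivity)
              linarith
          _ = 3 ^ m * L := by rw [mul_pow, hrm]
          _ ≤ 3 ^ m * (L + 1) := by
            have : (0 : ℝ) ≤ 3 ^ m := by positivity
            linarith
    exact_mod_cast h1
  obtain ⟨z, hz1, hz2, hz3⟩ := h n
  have hzD : mass z ≤ D * L + D := by
    calc mass z ≤ C * (n + 1) ^ m := hz2
      _ ≤ C * (3 ^ m * (L + 1)) := Nat.mul_le_mul_left _ hpow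
      _ ≤ (C + 1) * 3 ^ m * (L + 1) := by
          rw [← mul_assoc]
          exact Nat.mul_le_mul_right _ (Nat.mul_le_mul_right _ (Nat.le_succ C))
      _ = D * L + D := by rw [hD]; ring
  -- lower bound of the filling volume
  have hfill : (K.fillVol m z : ℝ≥0∞) ≤ (K.iso m (D * L + D) : ℝ≥0∞) := by
    have : K.fillVol m z ≤ K.iso m (D * L + D) := by
      unfold GComplex.iso
      exact le_iSup_of_le z (le_iSup_of_le hz1 (le_iSup_of_le hzD le_rfl))
    exact_mod_cast this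
  have hexp : expRoot m L ≤ ((4 ^ n : ℕ) : ℝ≥0∞) := by
    unfold expRoot
    rw [← hr, ← ENNReal.ofReal_natCast]
    apply ENNReal.ofReal_le_ofReal
    push_cast
    calc Real.exp r ≤ Real.exp n := Real.exp_le_exp.2 hrn
      _ = Real.exp 1 ^ n := by rw [← Real.exp_nat_mul, mul_one]
      _ ≤ 4 ^ n := by
        have := Real.exp_one_lt_d9
        gcongr
        linarith
  by_cases htop : K.fillVol m z = ⊤
  · have : (K.iso m (D * L + D) : ℝ≥0∞) = ⊤ := by
      rw [htop] at hfill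
      simpa using hfill
    simp only [this]
    have hD0 : (D : ℝ≥0∞) ≠ 0 := by
      have : 0 < D := by positivity
      exact_mod_cast this.ne'
    rw [ENNReal.mul_top hD0, top_add, top_add]
    exact le_top
  · -- finite: attained
    obtain ⟨c, hc1, hc2⟩ : ∃ c, K.bd m c = z ∧ (mass c : ℕ∞) = K.fillVol m z := by
      have hne : (Set.range (fun c : {c : K.cell (m + 1) →₀ ℤ // K.bd m c = z} =>
          mass c.1)).Nonempty := by
        obtain ⟨b, hb⟩ := hz1
        exact ⟨_, ⟨⟨b, hb⟩, rfl⟩⟩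
      obtain ⟨⟨c, hc⟩, hcm⟩ := Nat.sInf_mem hne
      refine ⟨c, hc, ?_⟩
      apply le_antisymm
      · unfold GComplex.fillVol
        refine le_iInf (fun c' => le_iInf (fun hc' => ?_))
        have : mass c ≤ mass c' := by
          have h2 := Nat.sInf_le (s := Set.range (fun c : {c : K.cell (m + 1) →₀ ℤ //
            K.bd m c = z} => mass c.1)) ⟨⟨c', hc'⟩, rfl⟩
          simp only at hcm h2
          rw [← hcm] at h2
          exact h2
        exact_mod_cast this
      · unfold GComplex.fillVol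
        exact iInf_le_of_le c (iInf_le_of_le hc le_rfl)
    have h4 := hz3 c hc1
    have h5 : ((4 ^ n : ℕ) : ℝ≥0∞) ≤ ((C * (mass c + (n + 1) ^ m) : ℕ) : ℝ≥0∞) := by
      exact_mod_cast h4
    have h6 : ((C * (mass c + (n + 1) ^ m) : ℕ) : ℝ≥0∞) ≤
        ((D * mass c + D * L + D : ℕ) : ℝ≥0∞) := by
      have : C * (mass c + (n + 1) ^ m) ≤ D * mass c + D * L + D := by
        have h31 : 1 ≤ 3 ^ m := Nat.one_le_pow _ _ (by norm_num)
        calc C * (mass c + (n + 1) ^ m) ≤ C * (mass c + 3 ^ m * (L + 1)) := by gcongr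
          _ = C * mass c + C * 3 ^ m * (L + 1) := by ring
          _ ≤ D * mass c + D * (L + 1) := by
              apply Nat.add_le_add
              · apply Nat.mul_le_mul_right
                rw [hD]
                calc C ≤ (C + 1) * 1 := by omega
                  _ ≤ (C + 1) * 3 ^ m := Nat.mul_le_mul_left _ h31
              · apply Nat.mul_le_mul_right
                rw [hD]
                exact Nat.mul_le_mul_right _ (Nat.le_succ C)
          _ = D * mass c + D * L + D := by ring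
      exact_mod_cast this
    have h7 : ((mass c : ℕ) : ℝ≥0∞) ≤ (K.iso m (D * L + D) : ℝ≥0∞) := by
      refine le_trans ?_ hfill
      rw [← hc2]
      simp
    refine (hexp.trans (h5.trans h6)).trans ?_
    push_cast
    gcongr

end Growth

/-- The main theorem. -/
theorem main (m n : ℕ) (hm : 1 ≤ m) (hn : 2 * m + 1 ≤ n) :
    (∀ K : GComplex (MulAut (FreeGroup (Fin n))), K.FiniteTo (m + 1) →
      Dominated (expRoot m) (fun L => (K.iso m L : ℝ≥0∞))) ∧
    (∀ K : GComplex (Out n), K.FiniteTo (m + 1) →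
      Dominated (expRoot m) (fun L => (K.iso m L : ℝ≥0∞))) := by
  constructor
  · intro K hK
    obtain ⟨s, hs⟩ := hK (m + 1) le_rfl
    obtain ⟨C, hC⟩ := abstract_bound m hm (mkData hn (MonoidHom.id _) Function.surjective_id
      (by
        intro g g' h
        refine ⟨1, ?_⟩
        rw [map_one, mul_one]
        exact h.symm)) K s hs
    exact dominated_of K m hm C hC
  · intro K hK
    obtain ⟨s, hs⟩ := hK (m + 1) le_rfl
    obtain ⟨C, hC⟩ := abstract_bound m hm (mkData hn (QuotientGroup.mk' (Inn n))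
      (QuotientGroup.mk'_surjective _)
      (by
        intro g g' h
        have h' : g⁻¹ * g' ∈ Inn n := by
          rw [← QuotientGroup.eq]
          exact h
        obtain ⟨u, hu⟩ := h'
        refine ⟨u, ?_⟩
        rw [hu, mul_inv_cancel_left])) K s hs
    exact dominated_of K m hm C hC

end Pool.Agent.H.MP_e5d137_al
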